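import Pool.Agent.W_ccff5b_h54.IComm

set_option autoImplicit false

namespace Pool.CCff5b

open Finset
open scoped Classical

variable {Pt Ln : Type} [Fintype Pt] [Fintype Ln] {I : Pt → Ln → Prop} {s t : ℕ}

theorem GQ.IFinal_idem (h : GQ I s t) (hst : s + t + 1 = s * s) (hs : 2 ≤ s) {x y z : Pt}
    (hxy : Far I x y) (hxz : Far I x z) (hyz : Far I y z) :
    (PP I s x y * PP I s x z) * (PP I s x y * PP I s x z) = PP I s x y * PP I s x z := by
  have hc := h.PP_comm hst hs hxy hxz hyz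
  have h1 := h.PP_idem hst hs hxy
  have h2 := h.PP_idem hst hs hxz
  calc (PP I s x y * PP I s x z) * (PP I s x y * PP I s x z)
      = PP I s x y * (PP I s x z * PP I s x y) * PP I s x z := by
        simp only [Matrix.mul_assoc]
    _ = PP I s x y * (PP I s x y * PP I s x z) * PP I s x z := by rw [hc]
    _ = (PP I s x y * PP I s x y) * (PP I s x z * PP I s x z) := by
        simp only [Matrix.mul_assoc]
    _ = PP I s x y * PP I s x z := by rw [h1, h2]

theorem IFinal_arith {s c k : ℕ} (hs : 2 ≤ s)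
    (hk : ((s : ℤ) + 1) * k = ((s : ℤ) - 1) * ((s : ℤ) + 1 - c)) :
    c = 0 ∨ 2 * c = s + 1 ∨ c = s + 1 := by
  have hs' : (2 : ℤ) ≤ s := by exact_mod_cast hs
  have hk0 : (0 : ℤ) ≤ (k : ℤ) := by positivity
  have hc0 : (0 : ℤ) ≤ (c : ℤ) := by positivity
  have hle : (c : ℤ) ≤ s + 1 := by
    by_contra hcon
    push Not at hcon
    have h1 : (0 : ℤ) ≤ ((s : ℤ) + 1) * k := by positivity
    have h2 : ((s : ℤ) - 1) * ((s : ℤ) + 1 - c) < 0 := by
      apply mul_neg_of_pos_of_neg <;> linarith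
    linarith
  have hdvd : ((s : ℤ) + 1) ∣ 2 * (c : ℤ) := by
    refine ⟨k - (s + 1) + c + 2, ?_⟩
    linarith [hk]
  obtain ⟨m, hm⟩ := hdvd
  have hm0 : 0 ≤ m := by
    by_contra hcon
    push Not at hcon
    nlinarith
  have hm2 : m ≤ 2 := by
    by_contra hcon
    push Not at hcon
    nlinarith
  have hm' : m = 0 ∨ m = 1 ∨ m = 2 := by omega
  rcases hm' with rfl | rfl | rfl
  · left
    have : (2 : ℤ) * c = 0 := by linarith
    omega
  · right; left
    have : (2 : ℤ) * c = s + 1 := by linarith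
    omega
  · right; right
    have : (2 : ℤ) * c = 2 * (s + 1) := by linarith
    omega

/-- **Task IFinal (1).** `P^x_y P^x_z` is idempotent, its trace is a natural number `k`
(`trace_idem_real`), and by `trace_QLQL` `(s+1)^2 k = (s-1)(b_x(y,z) + s + 2)`, `b_x(y,z) = (s+1)(s-c) - 1`,
`c = cn x y z`: `(s+1) k = (s-1)(s+1-c)`. So `c ≤ s + 1` and `s + 1` divides `2 c`. -/
theorem GQ.two_cn (h : GQ I s t) (hst : s + t + 1 = s * s) (hs : 2 ≤ s) {x y z : Pt}
    (hxy : Far I x y) (hxz : Far I x z) (hyz : Far I y z) :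
    cn I x y z = 0 ∨ 2 * cn I x y z = s + 1 ∨ cn I x y z = s + 1 := by
  obtain ⟨k, hk⟩ := trace_idem_real _ (h.IFinal_idem hst hs hxy hxz hyz)
  have htr := h.trace_QLQL hst hs hxy hxz
  have hE : E I s x y z = (s : ℤ) - cn I x y z :=
    IE_far (h.far_ne hxz).symm (h.far_ne hyz).symm hxz.not_adj hyz.not_adj
  have hF : F I s x z = 1 := h.F_far hxz
  have hB : B I s x y z = ((s : ℝ) + 1) * ((s : ℝ) - cn I x y z) - 1 := by
    rw [h.IB_far hxy, hE, hF]
    push_cast
    ring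
  have hk' : ((Q I s x * LL I s x y) * (Q I s x * LL I s x z)).trace = (k : ℝ) := hk
  rw [hk', hB] at htr
  have hpos : (0 : ℝ) < (s : ℝ) + 1 := by positivity
  have h1 : ((s : ℝ) + 1) * k = ((s : ℝ) - 1) * ((s : ℝ) + 1 - cn I x y z) := by
    apply mul_left_cancel₀ hpos.ne'
    linear_combination htr
  apply IFinal_arith (k := k) hs
  exact_mod_cast h1

/-- **Task IFinal (2).** `(E-s)(E+1)(2E-(s-1)) = 0` at every point -/
theorem GQ.E_cubic (h : GQ I s t) (hst : s + t + 1 = s * s) (hs : 2 ≤ s) {x y : Pt}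
    (hxy : Far I x y) (z : Pt) :
    (E I s x y z - s) * (E I s x y z + 1) * (2 * E I s x y z - (s - 1)) = 0 := by
  by_cases h1 : z = x
  · subst h1
    rw [IE_self_left]
    ring
  by_cases h2 : z = y
  · subst h2
    rw [IE_self_right]
    ring
  by_cases h3 : Adj I x z ∨ Adj I y z
  · rw [IE_adj h1 h2 h3]
    ring
  push Not at h3
  have hxz : Far I x z := far_of_ne (Ne.symm h1) h3.1
  have hyz : Far I y z := far_of_ne (Ne.symm h2) h3.2
  rw [IE_far h1 h2 h3.1 h3.2]
  rcases h.two_cn hst hs hxy hxz hyz with hc | hc | hc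
  · rw [hc]
    push_cast
    ring
  · have hc' : 2 * (cn I x y z : ℤ) = s + 1 := by exact_mod_cast hc
    have : 2 * ((s : ℤ) - cn I x y z) - (s - 1) = 0 := by linarith
    rw [this]
    ring
  · rw [hc]
    push_cast
    ring

/-- **Task IFinal (3).** `(s+1) ∑ E^3 = ∑ (s F_x + s F_y + ∑_w F_w) E^2 = (2 s - (t+1)/s) ∑ E^2`
(`E_F`, `sum_F_mm`, `sum_F_mm_adj`, `E_InU`, `E_swap`), `sum_E_sq`. -/
theorem GQ.sum_E_cube (h : GQ I s t) (hst : s + t + 1 = s * s) (hs : 2 ≤ s) {x y : Pt}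
    (hxy : Far I x y) : ∑ u, (E I s x y u : ℝ) * ((E I s x y u : ℝ) * (E I s x y u : ℝ)) =
      mu s * s := by
  have hEx := h.E_InU hst hxy
  have hEy : InU I s y (fun u => (E I s x y u : ℝ)) := by
    have := h.E_InU hst hxy.symm
    simpa only [E_swap x y] using this
  have hsum := h.sum_E_sq hst hxy
  have h1 : ∑ u, (F I s x u : ℝ) * ((E I s x y u : ℝ) * (E I s x y u : ℝ)) = mu s * s := by
    rw [h.sum_F_mm hst hs hEx hEx, hsum]
  have h2 : ∑ u, (F I s y u : ℝ) * ((E I s x y u : ℝ) * (E I s x y u : ℝ)) = mu s * s := by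
    rw [h.sum_F_mm hst hs hEy hEy, hsum]
  have hs0 : (0 : ℝ) < s := by
    have : 0 < s := by omega
    exact_mod_cast this
  have h3 : ∀ w ∈ cns2 I x y, ∑ u, (F I s w u : ℝ) * ((E I s x y u : ℝ) * (E I s x y u : ℝ)) =
      -mu s := by
    intro w hw
    rw [mem_cns2] at hw
    have := h.sum_F_mm_adj hst hs hw.1 hEx hEx
    rw [hsum] at this
    apply mul_left_cancel₀ hs0.ne'
    rw [this]
    ring
  have hcard : ((cns2 I x y).card : ℝ) = (t : ℝ) + 1 := by
    rw [h.card_cns2 hxy]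
    push_cast
    ring
  have hst' : (s : ℝ) + t + 1 = s * s := by exact_mod_cast hst
  have hmain : ((s : ℝ) + 1) *
      ∑ u, (E I s x y u : ℝ) * ((E I s x y u : ℝ) * (E I s x y u : ℝ)) =
      (s : ℝ) * (mu s * s) + (s : ℝ) * (mu s * s) + ((t : ℝ) + 1) * (-mu s) := by
    calc ((s : ℝ) + 1) * ∑ u, (E I s x y u : ℝ) * ((E I s x y u : ℝ) * (E I s x y u : ℝ))
        = ∑ u, ((s : ℝ) * ((F I s x u : ℝ) * ((E I s x y u : ℝ) * (E I s x y u : ℝ))) +
            (s : ℝ) * ((F I s y u : ℝ) * ((E I s x y u : ℝ) * (E I s x y u : ℝ))) +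
            ∑ w ∈ cns2 I x y, (F I s w u : ℝ) * ((E I s x y u : ℝ) * (E I s x y u : ℝ))) := by
          rw [Finset.mul_sum]
          apply Finset.sum_congr rfl
          intro u _
          have hEF := h.E_F hst hxy u
          have hEF' : ((s : ℝ) + 1) * (E I s x y u : ℝ) = (s : ℝ) * (F I s x u : ℝ) +
              (s : ℝ) * (F I s y u : ℝ) + ∑ w ∈ cns2 I x y, (F I s w u : ℝ) := by
            exact_mod_cast hEF
          rw [← Finset.sum_mul, ← mul_assoc, hEF']
          ring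
      _ = (s : ℝ) * (mu s * s) + (s : ℝ) * (mu s * s) + ((t : ℝ) + 1) * (-mu s) := by
          rw [Finset.sum_add_distrib, Finset.sum_add_distrib, ← Finset.mul_sum, ← Finset.mul_sum,
            h1, h2, Finset.sum_comm, Finset.sum_congr rfl h3, Finset.sum_const, nsmul_eq_mul,
            hcard]
  have hpos : (0 : ℝ) < (s : ℝ) + 1 := by positivity
  apply mul_left_cancel₀ hpos.ne'
  rw [hmain]
  have ht : (t : ℝ) + 1 = s * s - s := by linarith
  rw [ht]
  ring

/-- **Task IFinal (4).** Sum of (2) over all points: `μ s (2 - 3(s-1)) + s(s-1) |P| = μ s (s-2)(s-3)`. -/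
theorem GQ.no_iso (h : GQ I s t) (hst : s + t + 1 = s * s) (hs : 4 ≤ s) (x : Pt) : False := by
  have hs2 : 2 ≤ s := by omega
  have ht : 0 < t := by nlinarith
  have hfar : 0 < (far I x).card := by
    rw [h.card_far x]
    positivity
  obtain ⟨y, hy⟩ := Finset.card_pos.mp hfar
  have hxy : Far I x y := mem_far.mp hy
  have h1 : ∑ u, (E I s x y u : ℝ) = 0 := h.rsum_univ (h.rLS_E hst hxy)
  have h2 := h.sum_E_sq hst hxy
  have h3 := h.sum_E_cube hst hs2 hxy
  have hP := h.card_Pt hst x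
  have hz : ∑ u, (2 * ((E I s x y u : ℝ) * ((E I s x y u : ℝ) * (E I s x y u : ℝ))) -
      3 * ((s : ℝ) - 1) * ((E I s x y u : ℝ) * (E I s x y u : ℝ)) +
      (((s : ℝ) - 1) ^ 2 - 2 * s) * (E I s x y u : ℝ) + (s : ℝ) * ((s : ℝ) - 1)) = 0 := by
    apply Finset.sum_eq_zero
    intro u _
    have hc := h.E_cubic hst hs2 hxy u
    have hc' : ((E I s x y u : ℝ) - s) * ((E I s x y u : ℝ) + 1) *
        (2 * (E I s x y u : ℝ) - (s - 1)) = 0 := by exact_mod_cast hc
    linear_combination hc'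
  rw [Finset.sum_add_distrib, Finset.sum_add_distrib, Finset.sum_sub_distrib, ← Finset.mul_sum,
    ← Finset.mul_sum, ← Finset.mul_sum, h1, h2, h3, Finset.sum_const, Finset.card_univ,
    nsmul_eq_mul, hP] at hz
  have hs4 : (4 : ℝ) ≤ s := by exact_mod_cast hs
  have hkey : mu s * s * (((s : ℝ) - 2) * ((s : ℝ) - 3)) = 0 := by
    have hmu : mu s = ((s : ℝ) + 1) ^ 2 * ((s : ℝ) - 1) := rfl
    rw [hmu] at hz ⊢
    linear_combination hz
  have hpos : 0 < mu s * s * (((s : ℝ) - 2) * ((s : ℝ) - 3)) := by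
    have := mu_pos (s := s) hs2
    have h5 : (0 : ℝ) < (s : ℝ) - 2 := by linarith
    have h6 : (0 : ℝ) < (s : ℝ) - 3 := by linarith
    have h7 : (0 : ℝ) < (s : ℝ) := by linarith
    positivity
  linarith

end Pool.CCff5b
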