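import Mathlib

set_option autoImplicit false

namespace Pool.CCff5b

open Finset Matrix

theorem IIso_tr (P : Type) [Fintype P] (Z : Matrix P P ℝ) :
    (Zᵀ * Z).trace = ∑ i, ∑ j, Z j i * Z j i := by
  simp only [Matrix.trace, Matrix.diag_apply, Matrix.mul_apply, Matrix.transpose_apply]

theorem IIso_tr_nonneg {P : Type} [Fintype P] (Z : Matrix P P ℝ) : 0 ≤ (Zᵀ * Z).trace := by
  rw [IIso_tr]
  exact Finset.sum_nonneg fun i _ => Finset.sum_nonneg fun j _ => mul_self_nonneg _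

theorem IIso_tr_zero {P : Type} [Fintype P] {Z : Matrix P P ℝ} (h : (Zᵀ * Z).trace = 0) :
    Z = 0 := by
  rw [IIso_tr] at h
  ext j i
  have h1 := (Finset.sum_eq_zero_iff_of_nonneg
    (fun i _ => Finset.sum_nonneg fun j _ => mul_self_nonneg (Z j i))).1 h i (Finset.mem_univ i)
  have h2 := (Finset.sum_eq_zero_iff_of_nonneg
    (fun j _ => mul_self_nonneg (Z j i))).1 h1 j (Finset.mem_univ j)
  simpa using h2

/-- facts on `S` -/
theorem IIso_facts {P ι : Type} [Fintype P] [DecidableEq P] [DecidableEq ι] (m : Finset ι) (s : ℝ)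
    (hs : 1 < s) (Q : ι → Matrix P P ℝ) (R : Matrix P P ℝ)
    (hQs : ∀ a ∈ m, (Q a)ᵀ = Q a) (hQi : ∀ a ∈ m, Q a * Q a = Q a) (hRs : Rᵀ = R)
    (hRi : R * R = R) (hRQ : ∀ a ∈ m, R * Q a = Q a)
    (hsum : ∑ a ∈ m, Q a = ((s + 1) / s) • R) {w : ι} (hw : w ∈ m) (S : Matrix P P ℝ)
    (hS : S = s • Q w + (s / (s + 1)) • (R - Q w)) :
    Sᵀ = S ∧ R * S = S ∧ S * R = S ∧ (∑ b ∈ m.erase w, Q b) * S = R ∧
      ∀ a ∈ m, Q a * R = Q a := by
  have hQR : ∀ a ∈ m, Q a * R = Q a := by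
    intro a ha
    have h := congrArg Matrix.transpose (hRQ a ha)
    rwa [Matrix.transpose_mul, hQs a ha, hRs] at h
  have hT : ∑ b ∈ m.erase w, Q b = ((s + 1) / s) • R - Q w := by
    rw [← hsum, ← Finset.add_sum_erase m Q hw]
    abel
  have hs0 : s ≠ 0 := by positivity
  have hs1 : s + 1 ≠ 0 := by positivity
  have h1 : Sᵀ = S := by
    rw [hS]
    simp only [Matrix.transpose_add, Matrix.transpose_smul, Matrix.transpose_sub, hQs w hw, hRs]
  have h2 : R * S = S := by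
    rw [hS]
    simp only [Matrix.mul_add, Matrix.mul_smul, Matrix.mul_sub, hRQ w hw, hRi]
  have h3 : S * R = S := by
    rw [hS]
    simp only [Matrix.add_mul, Matrix.smul_mul, Matrix.sub_mul, hQR w hw, hRi]
  have h4 : Q w * S = s • Q w := by
    rw [hS]
    simp only [Matrix.mul_add, Matrix.mul_smul, Matrix.mul_sub, hQR w hw, hQi w hw, sub_self,
      smul_zero, add_zero]
  refine ⟨h1, h2, h3, ?_, hQR⟩
  rw [hT, Matrix.sub_mul, Matrix.smul_mul, h2, h4, hS]
  ext i j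
  simp only [Matrix.sub_apply, Matrix.smul_apply, Matrix.add_apply, smul_eq_mul]
  field_simp
  ring

/-- **Task IIso.** Pure linear algebra. `m` has `s + 1` elements, `Q a` (`a ∈ m`) and `R` are orthogonal
projections (real symmetric idempotent matrices), `R Q a = Q a`, `∑_{a ∈ m} Q a = ((s+1)/s) R`,
`tr Q a = n`, `tr R = s n`. Let `w ∈ m`, `S = s Q w + (s/(s+1)) (R - Q w)`,
`T = ∑_{a ∈ m.erase w} Q a = ((s+1)/s) R - Q w`. Then `T S = R` and `S` is symmetric, `R S = S = S R`.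
For `a ∈ m.erase w` put `Y a = Q a * S * Q a`. Then
`(Q a - Y a)^2 + ∑_{b ∈ (m.erase w).erase a} Q a * S * Q b * S * Q a = Q a - Y a`
(because `∑_{b ∈ m.erase w} Q a S Q b S Q a = Q a S T S Q a = Y a`, and the term `b = a` is `(Y a)^2`).
Take traces and sum over `a ∈ m.erase w`: the right side gives `s n - tr (T S) = s n - tr R = 0`. On the
left all traces are sums of squares (`tr (Q a - Y a)^2`, `tr ((Q b S Q a)ᵀ (Q b S Q a))`), so all these
matrices are zero (`Matrix.trace_conjTranspose_mul_self_eq_zero_iff` or entrywise):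
`Q a S Q a = Q a`, `Q b S Q a = 0` for `b ≠ a` in `m.erase w`. -/
theorem iso_S {P ι : Type} [Fintype P] [DecidableEq P] [DecidableEq ι] (m : Finset ι) (s n : ℝ)
    (hs : 1 < s) (hcard : (m.card : ℝ) = s + 1) (Q : ι → Matrix P P ℝ) (R : Matrix P P ℝ)
    (hQs : ∀ a ∈ m, (Q a)ᵀ = Q a) (hQi : ∀ a ∈ m, Q a * Q a = Q a) (hRs : Rᵀ = R)
    (hRi : R * R = R) (hRQ : ∀ a ∈ m, R * Q a = Q a)
    (hsum : ∑ a ∈ m, Q a = ((s + 1) / s) • R) (htr : ∀ a ∈ m, (Q a).trace = n)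
    (htrR : R.trace = s * n) {w : ι} (hw : w ∈ m) {a : ι} (ha : a ∈ m.erase w) :
    Q a * (s • Q w + (s / (s + 1)) • (R - Q w)) * Q a = Q a ∧
    ∀ b ∈ (m.erase w).erase a, Q b * (s • Q w + (s / (s + 1)) • (R - Q w)) * Q a = 0 := by
  obtain ⟨S, hS⟩ : ∃ S, S = s • Q w + (s / (s + 1)) • (R - Q w) := ⟨_, rfl⟩
  rw [← hS]
  obtain ⟨hSt, hRS, hSR, hTS, hQR⟩ := IIso_facts m s hs Q R hQs hQi hRs hRi hRQ hsum hw S hS
  have hmem : ∀ b, b ∈ m.erase w → b ∈ m := fun b hb => Finset.mem_of_mem_erase hb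
  have hsumY : ∀ c ∈ m.erase w, ∑ b ∈ m.erase w, Q c * S * Q b * S * Q c = Q c * S * Q c := by
    intro c hc
    have e1 : ∑ b ∈ m.erase w, Q c * S * Q b * S * Q c =
        Q c * S * (∑ b ∈ m.erase w, Q b) * S * Q c := by
      rw [Finset.mul_sum, Finset.sum_mul, Finset.sum_mul]
    rw [e1, Matrix.mul_assoc (Q c * S) _ S, hTS, Matrix.mul_assoc (Q c) S R, hSR]
  have hid : ∀ c ∈ m.erase w, (Q c - Q c * S * Q c)ᵀ * (Q c - Q c * S * Q c) +
      ∑ b ∈ (m.erase w).erase c, (Q b * S * Q c)ᵀ * (Q b * S * Q c) = Q c - Q c * S * Q c := by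
    intro c hc
    have hcm := hmem c hc
    have hQc := hQi c hcm
    have e1 : ∑ b ∈ (m.erase w).erase c, (Q b * S * Q c)ᵀ * (Q b * S * Q c) =
        ∑ b ∈ (m.erase w).erase c, Q c * S * Q b * S * Q c := by
      refine Finset.sum_congr rfl fun b hb => ?_
      have hbm := hmem b (Finset.mem_of_mem_erase hb)
      rw [Matrix.transpose_mul, Matrix.transpose_mul, hQs c hcm, hQs b hbm, hSt]
      calc Q c * (S * Q b) * (Q b * S * Q c) = Q c * S * (Q b * Q b) * S * Q c := by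
            simp only [Matrix.mul_assoc]
        _ = Q c * S * Q b * S * Q c := by rw [hQi b hbm]
    have e2 := hsumY c hc
    rw [← Finset.add_sum_erase (m.erase w) _ hc] at e2
    have e3 : (Q c - Q c * S * Q c)ᵀ = Q c - Q c * S * Q c := by
      rw [Matrix.transpose_sub, Matrix.transpose_mul, Matrix.transpose_mul, hQs c hcm, hSt,
        Matrix.mul_assoc]
    have e4 : Q c * (Q c * S * Q c) = Q c * S * Q c := by
      calc Q c * (Q c * S * Q c) = (Q c * Q c) * S * Q c := by simp only [Matrix.mul_assoc]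
        _ = Q c * S * Q c := by rw [hQc]
    have e5 : Q c * S * Q c * Q c = Q c * S * Q c := by
      rw [Matrix.mul_assoc (Q c * S), hQc]
    have e6 : Q c * S * Q c * (Q c * S * Q c) = Q c * S * Q c * S * Q c := by
      calc Q c * S * Q c * (Q c * S * Q c) = Q c * S * (Q c * Q c) * S * Q c := by
            simp only [Matrix.mul_assoc]
        _ = Q c * S * Q c * S * Q c := by rw [hQc]
    rw [e1, e3, Matrix.sub_mul, Matrix.mul_sub, Matrix.mul_sub, hQc, e4, e5, e6,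
      eq_sub_of_add_eq' e2]
    abel
  have hcard' : (((m.erase w).card : ℕ) : ℝ) = s := by
    have h := Finset.card_erase_add_one hw
    have h' : (((m.erase w).card : ℕ) : ℝ) + 1 = s + 1 := by
      rw [← hcard]
      exact_mod_cast h
    linarith
  have htot : ∑ c ∈ m.erase w, ((Q c - Q c * S * Q c).trace) = 0 := by
    have e1 : ∀ c ∈ m.erase w, (Q c - Q c * S * Q c).trace = n - (Q c * S).trace := by
      intro c hc
      have hcm := hmem c hc
      rw [Matrix.trace_sub, htr c hcm, Matrix.trace_mul_comm (Q c * S) (Q c), ← Matrix.mul_assoc,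
        hQi c hcm]
    rw [Finset.sum_congr rfl e1, Finset.sum_sub_distrib, Finset.sum_const, nsmul_eq_mul, hcard']
    have e2 : ∑ c ∈ m.erase w, (Q c * S).trace = R.trace := by
      rw [← Matrix.trace_sum, ← Finset.sum_mul, hTS]
    rw [e2, htrR, sub_self]
  have hnn : ∀ c ∈ m.erase w, 0 ≤ (Q c - Q c * S * Q c).trace := by
    intro c hc
    rw [← hid c hc, Matrix.trace_add, Matrix.trace_sum]
    exact add_nonneg (IIso_tr_nonneg _) (Finset.sum_nonneg fun b _ => IIso_tr_nonneg _)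
  have hz := (Finset.sum_eq_zero_iff_of_nonneg hnn).1 htot a ha
  rw [← hid a ha, Matrix.trace_add, Matrix.trace_sum] at hz
  have hz1 : 0 ≤ ((Q a - Q a * S * Q a)ᵀ * (Q a - Q a * S * Q a)).trace := IIso_tr_nonneg _
  have hz2 : 0 ≤ ∑ b ∈ (m.erase w).erase a, ((Q b * S * Q a)ᵀ * (Q b * S * Q a)).trace :=
    Finset.sum_nonneg fun b _ => IIso_tr_nonneg _
  have hz3 : ((Q a - Q a * S * Q a)ᵀ * (Q a - Q a * S * Q a)).trace = 0 := by linarith
  have hz4 : ∑ b ∈ (m.erase w).erase a, ((Q b * S * Q a)ᵀ * (Q b * S * Q a)).trace = 0 := by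
    linarith
  refine ⟨?_, fun b hb => ?_⟩
  · have := IIso_tr_zero hz3
    exact (sub_eq_zero.1 this).symm
  · exact IIso_tr_zero ((Finset.sum_eq_zero_iff_of_nonneg
      (fun b _ => IIso_tr_nonneg _)).1 hz4 b hb)

/-- `Q a Q w Q a = Q a / s^2`: expand the first part of `iso_S` (`Q a R Q a = Q a`). -/
theorem iso_abs {P ι : Type} [Fintype P] [DecidableEq P] [DecidableEq ι] (m : Finset ι) (s n : ℝ)
    (hs : 1 < s) (hcard : (m.card : ℝ) = s + 1) (Q : ι → Matrix P P ℝ) (R : Matrix P P ℝ)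
    (hQs : ∀ a ∈ m, (Q a)ᵀ = Q a) (hQi : ∀ a ∈ m, Q a * Q a = Q a) (hRs : Rᵀ = R)
    (hRi : R * R = R) (hRQ : ∀ a ∈ m, R * Q a = Q a)
    (hsum : ∑ a ∈ m, Q a = ((s + 1) / s) • R) (htr : ∀ a ∈ m, (Q a).trace = n)
    (htrR : R.trace = s * n) {w a : ι} (hw : w ∈ m) (ha : a ∈ m) (haw : a ≠ w) :
    Q a * Q w * Q a = (1 / s ^ 2) • Q a := by
  obtain ⟨S, hS⟩ : ∃ S, S = s • Q w + (s / (s + 1)) • (R - Q w) := ⟨_, rfl⟩
  obtain ⟨_, _, _, _, hQR⟩ := IIso_facts m s hs Q R hQs hQi hRs hRi hRQ hsum hw S hS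
  have h1 := (iso_S m s n hs hcard Q R hQs hQi hRs hRi hRQ hsum htr htrR hw
    (Finset.mem_erase.2 ⟨haw, ha⟩)).1
  have h2 : Q a * (s • Q w + (s / (s + 1)) • (R - Q w)) * Q a =
      s • (Q a * Q w * Q a) + (s / (s + 1)) • (Q a - Q a * Q w * Q a) := by
    simp only [Matrix.mul_add, Matrix.add_mul, Matrix.mul_smul, Matrix.smul_mul, Matrix.mul_sub,
      Matrix.sub_mul, hQR a ha, hQi a ha]
  rw [h2] at h1
  have hs0 : s ≠ 0 := by positivity
  have hs1 : s + 1 ≠ 0 := by positivity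
  ext i j
  have h3 := congrFun (congrFun h1 i) j
  simp only [Matrix.add_apply, Matrix.smul_apply, Matrix.sub_apply, smul_eq_mul] at h3 ⊢
  generalize (Q a * Q w * Q a) i j = x at h3 ⊢
  generalize Q a i j = q at h3 ⊢
  have h4 : s * x * (s + 1) + s * (q - x) = q * (s + 1) := by
    have h5 : (s * x + s / (s + 1) * (q - x)) * (s + 1) = q * (s + 1) := by rw [h3]
    rw [← h5]
    field_simp
  have h6 : s ^ 2 * x = q := by linarith
  rw [← h6]
  field_simp

/-- uniqueness: if `d a` is in the range of `Q a` for `a ∈ m.erase w` and `∑ d a = 0`, then all `d a = 0`: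
apply `Q b * S` to the sum and use both parts of `iso_S`. -/
theorem iso_uniq {P ι : Type} [Fintype P] [DecidableEq P] [DecidableEq ι] (m : Finset ι) (s n : ℝ)
    (hs : 1 < s) (hcard : (m.card : ℝ) = s + 1) (Q : ι → Matrix P P ℝ) (R : Matrix P P ℝ)
    (hQs : ∀ a ∈ m, (Q a)ᵀ = Q a) (hQi : ∀ a ∈ m, Q a * Q a = Q a) (hRs : Rᵀ = R)
    (hRi : R * R = R) (hRQ : ∀ a ∈ m, R * Q a = Q a)
    (hsum : ∑ a ∈ m, Q a = ((s + 1) / s) • R) (htr : ∀ a ∈ m, (Q a).trace = n)
    (htrR : R.trace = s * n) {w : ι} (hw : w ∈ m) (d : ι → P → ℝ)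
    (hd : ∀ a ∈ m.erase w, (Q a).mulVec (d a) = d a) (hd0 : ∑ a ∈ m.erase w, d a = 0) :
    ∀ a ∈ m.erase w, d a = 0 := by
  intro b hb
  have h0 : (Q b * (s • Q w + (s / (s + 1)) • (R - Q w))).mulVec (∑ a ∈ m.erase w, d a) = 0 := by
    rw [hd0, Matrix.mulVec_zero]
  rw [Matrix.mulVec_sum] at h0
  have h1 : ∀ a ∈ m.erase w, (Q b * (s • Q w + (s / (s + 1)) • (R - Q w))).mulVec (d a) =
      (Q b * (s • Q w + (s / (s + 1)) • (R - Q w)) * Q a).mulVec (d a) := by
    intro a ha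
    calc (Q b * (s • Q w + (s / (s + 1)) • (R - Q w))).mulVec (d a) =
        (Q b * (s • Q w + (s / (s + 1)) • (R - Q w))).mulVec ((Q a).mulVec (d a)) := by
          rw [hd a ha]
      _ = _ := Matrix.mulVec_mulVec _ _ _
  rw [Finset.sum_congr rfl h1, ← Finset.add_sum_erase (m.erase w) _ hb] at h0
  have h2 : ∑ a ∈ (m.erase w).erase b,
      (Q b * (s • Q w + (s / (s + 1)) • (R - Q w)) * Q a).mulVec (d a) = 0 := by
    refine Finset.sum_eq_zero fun a ha => ?_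
    have ha1 := Finset.mem_erase.1 ha
    rw [(iso_S m s n hs hcard Q R hQs hQi hRs hRi hRQ hsum htr htrR hw ha1.2).2 b
      (Finset.mem_erase.2 ⟨ha1.1.symm, hb⟩), Matrix.zero_mulVec]
  rw [h2, add_zero, (iso_S m s n hs hcard Q R hQs hQi hRs hRi hRQ hsum htr htrR hw hb).1,
    hd b hb] at h0
  exact h0

end Pool.CCff5b
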