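import Pool.Agent.W_ccff5b_h54.IB

set_option autoImplicit false

namespace Pool.CCff5b

open Finset
open scoped Classical

variable {Pt Ln : Type} [Fintype Pt] [Fintype Ln] {I : Pt → Ln → Prop} {s t : ℕ}

theorem GQ.ILine_double (h : GQ I s t) {l m : Ln} {x w : Pt} (hx : ¬ I x l) (hw : I w l)
    (hxw : Adj I x w) (hxm : I x m) (hwm : I w m) {g : Pt → ℤ} (hg : LS I g) :
    ∑ a ∈ (pts I l).erase w, ∑ v ∈ cns2 I x a, g v = (s : ℤ) * g w - (t : ℤ) * g x := by
  have hwl : w ∈ pts I l := mem_pts.2 hw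
  have hxne : x ≠ w := hxw.ne
  have h1 : ∑ a ∈ (pts I l).erase w, ∑ v ∈ cns2 I x a, g v =
      ∑ v ∈ nb I x, ∑ a ∈ ((pts I l).erase w).filter (fun a => Adj I a v), g v := by
    refine Finset.sum_comm' ?_
    intro a v
    simp only [Finset.mem_erase, mem_pts, mem_cns2, Finset.mem_filter, mem_nb]
    tauto
  have h2 : ∀ v ∈ nb I x, ∑ a ∈ ((pts I l).erase w).filter (fun a => Adj I a v), g v =
      (if v = w then ((s : ℤ) - 1) * g v else 0) + (if I v m then (if v = w then g v else 0)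
        else g v) := by
    intro v hv
    rw [mem_nb] at hv
    rw [Finset.sum_const, nsmul_eq_mul]
    by_cases hvw : v = w
    · have h3 : ((pts I l).erase w).filter (fun a => Adj I a v) = (pts I l).erase w := by
        refine Finset.filter_true_of_mem ?_
        intro a ha
        rw [Finset.mem_erase, mem_pts] at ha
        rw [hvw]
        exact ⟨ha.1, l, ha.2, hw⟩
      rw [h3, Finset.card_erase_of_mem hwl, h.pts_card, if_pos hvw, if_pos hvw, hvw, if_pos hwm,
        Nat.add_sub_cancel]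
      ring
    · have hvl : ¬ I v l := by
        intro hvl
        exact hvw (h.proj_unique hx hvl hw hv hxw)
      rw [if_neg hvw, if_neg hvw, zero_add]
      by_cases hvm : I v m
      · have h3 : ((pts I l).erase w).filter (fun a => Adj I a v) = ∅ := by
          refine Finset.filter_false_of_mem ?_
          intro a ha hav
          rw [Finset.mem_erase, mem_pts] at ha
          exact ha.1 (h.proj_unique hvl ha.2 hw hav.symm ⟨hvw, m, hvm, hwm⟩)
        rw [h3, if_pos hvm]
        simp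
      · obtain ⟨q, hq, hvq⟩ := h.exists_proj hvl
        have h3 : ((pts I l).erase w).filter (fun a => Adj I a v) = {q} := by
          ext a
          simp only [Finset.mem_filter, Finset.mem_erase, mem_pts, Finset.mem_singleton]
          constructor
          · rintro ⟨⟨_, ha2⟩, ha3⟩
            exact h.proj_unique hvl ha2 hq ha3.symm hvq
          · rintro rfl
            refine ⟨⟨?_, hq⟩, hvq.symm⟩
            rintro rfl
            exact hvm (h.tri hxne hxm hwm hv hvq.symm)
        rw [h3, if_neg hvm]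
        simp
  have h4 : ∑ v ∈ nb I x, (if v = w then ((s : ℤ) - 1) * g v else 0) = ((s : ℤ) - 1) * g w := by
    rw [Finset.sum_ite_eq' (nb I x) w, if_pos (mem_nb.2 hxw)]
  have h5 : ∑ v ∈ nb I x, (if I v m then (if v = w then g v else 0) else g v) =
      g w + ∑ v ∈ (nb I x).filter (fun v => ¬ I v m), g v := by
    rw [Finset.sum_ite, Finset.sum_ite_eq' ((nb I x).filter (fun v => I v m)) w, if_pos]
    exact Finset.mem_filter.2 ⟨mem_nb.2 hxw, hwm⟩
  have h6 : (nb I x).filter (fun v => I v m) = (pts I m).erase x := by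
    ext v
    simp only [Finset.mem_filter, Finset.mem_erase, mem_pts, mem_nb]
    constructor
    · rintro ⟨h7, h8⟩
      exact ⟨h7.ne.symm, h8⟩
    · rintro ⟨h7, h8⟩
      exact ⟨⟨h7.symm, m, hxm, h8⟩, h8⟩
  have h7 : ∑ v ∈ (nb I x).filter (fun v => I v m), g v + ∑ v ∈ (nb I x).filter (fun v => ¬ I v m), g v =
      ∑ v ∈ nb I x, g v := Finset.sum_filter_add_sum_filter_not _ _ _
  have h8 := Finset.add_sum_erase (pts I m) g (mem_pts.2 hxm)
  rw [hg m] at h8
  rw [h6, h.sum_nb hg] at h7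
  rw [h1, Finset.sum_congr rfl h2, Finset.sum_add_distrib, h4, h5]
  linear_combination h7 - h8

/-- **Task ILine (1).** `x` not on `l`, `w ∈ l` collinear with `x`. Then `∑_{a ∈ l - w} E_xa = F_x`.
Proof: by `GQ.E_F`, `(s+1) ∑_a E_xa = s^2 F_x + s ∑_{a ∈ l - w} F_a + ∑_a ∑_{v ∈ cns2 x a} F_v`. The line sums
of `a ↦ F_a(u) = F_u(a)` are `0` (`F_symm`, `LS_F`), so the second term is `-s F_w`. The common neighbours
`v` of `x` and `a` are `w` (for every `a`: `s F_w` in total) and the points `v ∼ x` not on the line `xw`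
which are collinear with `a`; every `v ∼ x` not on the line `xw` is collinear with exactly one point of `l`
and this point is not `w`. So the rest of the third term is the sum of `F_v` over the `v ∼ x` not on `xw`,
which is `-t F_x` (`sum_nb` minus the sum over `xw - x`). Total `(s^2 - t) F_x = (s+1) F_x`. -/
theorem GQ.sumE_line (h : GQ I s t) (hst : s + t + 1 = s * s) {l : Ln} {x w : Pt}
    (hx : ¬ I x l) (hw : I w l) (hxw : Adj I x w) (u : Pt) :
    ∑ a ∈ (pts I l).erase w, E I s x a u = F I s x u := by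
  obtain ⟨hne, m, hxm, hwm⟩ := id hxw
  have hst' : (s : ℤ) + t + 1 = s * s := by exact_mod_cast hst
  have hwl : w ∈ pts I l := mem_pts.2 hw
  have hfar : ∀ a ∈ (pts I l).erase w, Far I x a := by
    intro a ha
    rw [Finset.mem_erase, mem_pts] at ha
    refine far_of_ne ?_ fun hxa => ha.1 (h.proj_unique hx ha.2 hw hxa hxw)
    rintro rfl
    exact hx ha.2
  have h1 : ((s : ℤ) + 1) * ∑ a ∈ (pts I l).erase w, E I s x a u =
      ∑ a ∈ (pts I l).erase w, ((s : ℤ) * F I s x u + (s : ℤ) * F I s u a +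
        ∑ v ∈ cns2 I x a, F I s u v) := by
    rw [Finset.mul_sum]
    refine Finset.sum_congr rfl fun a ha => ?_
    rw [h.E_F hst (hfar a ha) u, IB_F_symm a u]
    congr 1
    exact Finset.sum_congr rfl fun v _ => IB_F_symm v u
  have h2 := h.ILine_double hx hw hxw hxm hwm (h.LS_F u)
  have h3 := Finset.add_sum_erase (pts I l) (F I s u) hwl
  rw [h.LS_F u l] at h3
  rw [Finset.sum_add_distrib, Finset.sum_add_distrib, Finset.sum_const, Finset.card_erase_of_mem hwl,
    h.pts_card, Nat.add_sub_cancel, nsmul_eq_mul, ← Finset.mul_sum, h2, IB_F_symm u x] at h1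
  have h4 : ((s : ℤ) + 1) * ∑ a ∈ (pts I l).erase w, E I s x a u = ((s : ℤ) + 1) * F I s x u := by
    linear_combination h1 + (s : ℤ) * h3 - F I s x u * hst'
  have h5 : ((s : ℤ) + 1) ≠ 0 := by positivity
  exact mul_left_cancel₀ h5 h4

/-- **Task ILine (2).** `∑_{x ∈ l} b_x(y,z) = (s+1) F_y(z)`. If `y ∈ l`: `s F_y(z) - ∑_{x ∈ l - y} F_x(z)`
`= s F_y(z) + F_y(z)`. If `y ∉ l`, `w ∈ l` collinear with `y`: `-F_w(z) + ∑_{x ∈ l - w} ((s+1) E_xy(z) - F_x(z))`
`= -F_w(z) + (s+1) F_y(z) + F_w(z)` by (1) and `E_swap`. -/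
theorem GQ.sumB_line (h : GQ I s t) (hst : s + t + 1 = s * s) (l : Ln) (y z : Pt) :
    ∑ x ∈ pts I l, B I s x y z = ((s : ℝ) + 1) * (F I s y z : ℝ) := by
  have hF : ∑ x ∈ pts I l, (F I s x z : ℝ) = 0 := by
    have h1 := h.rLS_F z l

    rw [Finset.sum_congr rfl fun x _ => by rw [IB_F_symm x z]]
    exact h1
  by_cases hy : I y l
  · have hm : y ∈ pts I l := mem_pts.2 hy
    have h2 := Finset.add_sum_erase (pts I l) (fun x => (F I s x z : ℝ)) hm

    rw [hF] at h2
    have h3 : ∀ x ∈ (pts I l).erase y, B I s x y z = -(F I s x z : ℝ) := by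
      intro x hx
      rw [Finset.mem_erase, mem_pts] at hx
      exact IB_adj ⟨hx.1, l, hx.2, hy⟩
    rw [← Finset.add_sum_erase (pts I l) _ hm, Finset.sum_congr rfl h3, Finset.sum_neg_distrib,
      IB_eq rfl]
    linear_combination -h2
  · obtain ⟨w, hw, hyw⟩ := h.exists_proj hy
    have hm : w ∈ pts I l := mem_pts.2 hw
    have h2 := Finset.add_sum_erase (pts I l) (fun x => (F I s x z : ℝ)) hm

    rw [hF] at h2
    have h3 : ∀ x ∈ (pts I l).erase w, B I s x y z =
        ((s : ℝ) + 1) * (E I s y x z : ℝ) - (F I s x z : ℝ) := by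
      intro x hx
      rw [Finset.mem_erase, mem_pts] at hx
      have hf : Far I x y := by
        refine far_of_ne ?_ fun hxa => hx.1 (h.proj_unique hy hx.2 hw hxa.symm hyw)
        rintro rfl
        exact hy hx.2
      rw [h.IB_far hf, E_swap]
    have h4 : ∑ x ∈ (pts I l).erase w, (E I s y x z : ℝ) = (F I s y z : ℝ) := by
      have h5 := h.sumE_line hst hy hw hyw z
      exact_mod_cast h5
    rw [← Finset.add_sum_erase (pts I l) _ hm, Finset.sum_congr rfl h3, Finset.sum_sub_distrib,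
      ← Finset.mul_sum, h4, IB_adj hyw.symm]
    linear_combination -h2

/-- **Task ILine (3).** from (2) -/
theorem GQ.sumQ_line (h : GQ I s t) (hst : s + t + 1 = s * s) (hs : 2 ≤ s) (l : Ln) :
    ∑ x ∈ pts I l, Q I s x = (((s : ℝ) + 1) / s) • PM I s := by
  have hs0 : (s : ℝ) ≠ 0 := by
    have : 0 < s := by omega
    positivity
  have hmu : mu s ≠ 0 := (mu_pos hs).ne'
  ext y z
  rw [Matrix.sum_apply, Matrix.smul_apply, smul_eq_mul]
  have h1 := h.sumB_line hst l y z
  have h2 : ∑ x ∈ pts I l, Q I s x y z = (∑ x ∈ pts I l, B I s x y z) / ((s : ℝ) * mu s) := by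
    rw [Finset.sum_div]
    rfl
  rw [h2, h1]
  unfold PM
  field_simp

/-- `|P| = (s+1)(st+1) = (s+1)^2 (s-1)^2`: `rsum_split` for `f = 1`, `card_nb`, `card_far` -/
theorem GQ.card_Pt (h : GQ I s t) (hst : s + t + 1 = s * s) (x : Pt) :
    (Fintype.card Pt : ℝ) = ((s : ℝ) + 1) ^ 2 * ((s : ℝ) - 1) ^ 2 := by
  have hst' : (s : ℝ) + t + 1 = s * s := by exact_mod_cast hst
  have h1 := h.rsum_split (fun _ : Pt => (1 : ℝ)) x
  simp only [Finset.sum_const, nsmul_eq_mul, mul_one] at h1
  rw [h.card_nb, h.card_far, Finset.card_univ] at h1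
  rw [h1]
  push_cast
  have ht : (t : ℝ) = s * s - s - 1 := by linarith
  rw [ht]
  ring

theorem GQ.PM_trace (h : GQ I s t) (hst : s + t + 1 = s * s) (hs : 2 ≤ s) (x : Pt) :
    (PM I s).trace = (s : ℝ) ^ 2 * ((s : ℝ) - 1) := by
  have h1 : (2 : ℝ) ≤ s := by exact_mod_cast hs
  have h2 : (s : ℝ) - 1 ≠ 0 := by
    have : 0 < (s : ℝ) - 1 := by linarith
    exact this.ne'
  have h3 : (s : ℝ) + 1 ≠ 0 := by positivity
  have h4 : ∀ u : Pt, PM I s u u = (s : ℝ) ^ 2 / mu s := by
    intro u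
    unfold PM
    rw [F_self]
    push_cast
    rfl
  unfold Matrix.trace
  simp only [Matrix.diag_apply]
  rw [Finset.sum_congr rfl (fun u _ => h4 u), Finset.sum_const, Finset.card_univ, nsmul_eq_mul,
    h.card_Pt hst x]
  unfold mu
  field_simp

/-- `b_x(u,u) = (s-1) F_x(u) + s^2` -/
theorem GQ.B_diag (h : GQ I s t) (x u : Pt) :
    B I s x u u = ((s : ℝ) - 1) * (F I s x u : ℝ) + (s : ℝ) ^ 2 := by
  rcases eq_or_adj_or_far I x u with hu | hu | hu
  · rw [IB_eq hu, hu, F_self]
    push_cast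
    ring
  · rw [IB_adj hu, F_adj hu]
    push_cast
    ring
  · rw [h.IB_far hu, h.F_far hu, E_swap, IB_E_left]
    push_cast
    ring

/-- `tr Q_x = s (s-1)` (`B_diag`, `∑_u F_x(u) = 0`, `card_Pt`) -/
theorem GQ.Q_trace (h : GQ I s t) (hst : s + t + 1 = s * s) (hs : 2 ≤ s) (x : Pt) :
    (Q I s x).trace = (s : ℝ) * ((s : ℝ) - 1) := by
  have h1 : (2 : ℝ) ≤ s := by exact_mod_cast hs
  have h2 : (s : ℝ) - 1 ≠ 0 := by
    have : 0 < (s : ℝ) - 1 := by linarith
    exact this.ne'
  have h3 : (s : ℝ) + 1 ≠ 0 := by positivity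
  have h5 : (s : ℝ) ≠ 0 := by
    have : (0 : ℝ) < s := by linarith
    exact this.ne'
  have h4 : ∀ u : Pt, Q I s x u u =
      (((s : ℝ) - 1) * (F I s x u : ℝ) + (s : ℝ) ^ 2) / ((s : ℝ) * mu s) := by
    intro u
    unfold Q
    rw [h.B_diag]
  have h6 := h.rsum_univ (h.rLS_F x)

  unfold Matrix.trace
  simp only [Matrix.diag_apply]
  rw [Finset.sum_congr rfl (fun u _ => h4 u), ← Finset.sum_div, Finset.sum_add_distrib,
    ← Finset.mul_sum, h6, Finset.sum_const, Finset.card_univ, nsmul_eq_mul, h.card_Pt hst x]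
  unfold mu
  field_simp
  try ring

end Pool.CCff5b
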