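import Pool.Agent.W_ccff5b_h54.IT
import Pool.Agent.W_ccff5b_h54.ILine
import Pool.Agent.W_ccff5b_h54.IIso

set_option autoImplicit false

namespace Pool.CCff5b

open Finset
open scoped Classical

variable {Pt Ln : Type} [Fintype Pt] [Fintype Ln] {I : Pt → Ln → Prop} {s t : ℕ}

omit [Fintype Ln] in
theorem IAlg_K1 {x : Pt} {f g : Pt → ℝ} (hg : InU I s x g) (y : Pt) :
    RLS I (fun z => f y * g z) := by
  intro l
  rw [← Finset.mul_sum, hg.1 l, mul_zero]

omit [Fintype Ln] in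
theorem IAlg_K2 {x : Pt} {f g : Pt → ℝ} (hf : InU I s x f) (z : Pt) :
    RLS I (fun y => f y * g z) := by
  intro l
  rw [← Finset.sum_mul, hf.1 l, zero_mul]

theorem IAlg_dot {P : Type} [Fintype P] (A : Matrix P P ℝ) (f g : P → ℝ) :
    ∑ y, ∑ z, A y z * (f y * g z) = ∑ y, f y * A.mulVec g y := by
  refine Finset.sum_congr rfl fun y _ => ?_
  rw [Matrix.mulVec, dotProduct, Finset.mul_sum]
  exact Finset.sum_congr rfl fun z _ => by ring

/-- **Task IAlg (1).** `iso_abs` for `m = pts I l`, `n = s (s-1)`, `R = PM I s`. -/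
theorem GQ.Q_abs_adj (h : GQ I s t) (hst : s + t + 1 = s * s) (hs : 2 ≤ s) {a w : Pt}
    (haw : Adj I a w) : Q I s a * Q I s w * Q I s a = (1 / (s : ℝ) ^ 2) • Q I s a := by
  obtain ⟨hne, l, hal, hwl⟩ := haw
  have hs' : (1 : ℝ) < s := by
    have : (2 : ℝ) ≤ s := by exact_mod_cast hs
    linarith
  exact iso_abs (pts I l) (s : ℝ) ((s : ℝ) * ((s : ℝ) - 1)) hs'
    (by rw [h.pts_card l]; push_cast; ring) (Q I s) (PM I s) (fun b _ => h.Q_symm b)
    (fun b _ => h.Q_idem hst hs b) h.PM_symm (h.PM_idem hst hs) (fun b _ => h.PM_Q hst hs b)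
    (h.sumQ_line hst hs l) (fun b _ => h.Q_trace hst hs b)
    (by rw [h.PM_trace hst hs a]; ring) (mem_pts.2 hwl) (mem_pts.2 hal) hne

/-- **Task IAlg (2).** `iso_uniq`; `(Q a).mulVec (d a) = d a` by `GQ.Q_mulVec`. -/
theorem GQ.Q_uniq (h : GQ I s t) (hst : s + t + 1 = s * s) (hs : 2 ≤ s) {l : Ln} {w : Pt}
    (hw : I w l) (d : Pt → Pt → ℝ) (hd : ∀ a ∈ (pts I l).erase w, InU I s a (d a))
    (hd0 : ∑ a ∈ (pts I l).erase w, d a = 0) : ∀ a ∈ (pts I l).erase w, d a = 0 := by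
  have hs' : (1 : ℝ) < s := by
    have : (2 : ℝ) ≤ s := by exact_mod_cast hs
    linarith
  exact iso_uniq (pts I l) (s : ℝ) ((s : ℝ) * ((s : ℝ) - 1)) hs'
    (by rw [h.pts_card l]; push_cast; ring) (Q I s) (PM I s) (fun b _ => h.Q_symm b)
    (fun b _ => h.Q_idem hst hs b) h.PM_symm (h.PM_idem hst hs) (fun b _ => h.PM_Q hst hs b)
    (h.sumQ_line hst hs l) (fun b _ => h.Q_trace hst hs b)
    (by rw [h.PM_trace hst hs w]; ring) (mem_pts.2 hw) d
    (fun a ha => h.Q_mulVec hst hs (hd a ha)) hd0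

/-- **Task IAlg (3).** For `f, g ∈ U_x`: `∑ F_x f g = ∑ f g`. `GQ.Q_kernel` with `K y z = f y g z`, the left
side is `s ⟨Q_x f, g⟩ = s ⟨f, g⟩` (`Q_mulVec`). -/
theorem GQ.sum_F_mm (h : GQ I s t) (hst : s + t + 1 = s * s) (hs : 2 ≤ s) {x : Pt}
    {f g : Pt → ℝ} (hf : InU I s x f) (hg : InU I s x g) :
    ∑ u, (F I s x u : ℝ) * (f u * g u) = ∑ u, f u * g u := by
  have h1 := h.Q_kernel hst hs x (K := fun y z => f y * g z) (IAlg_K1 hg) (IAlg_K2 hf)
  rw [IAlg_dot] at h1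
  have h2 : ∑ y, f y * (Q I s x).mulVec g y = ∑ u, f u * g u := by rw [h.Q_mulVec hst hs hg]
  rw [h2] at h1
  have hs' : (s : ℝ) - 1 ≠ 0 := by
    have : (2 : ℝ) ≤ s := by exact_mod_cast hs
    intro h3
    linarith
  apply mul_left_cancel₀ hs'
  linear_combination -h1

/-- **Task IAlg (4).** For `f, g ∈ U_x` and `w ∼ x`: `s ∑ F_w f g = -∑ f g`. `GQ.Q_kernel` for `w`; the left side
is `s ⟨Q_w f, g⟩ = s ⟨Q_x Q_w Q_x f, g⟩ = (1/s) ⟨f, g⟩` by (1) (`f = Q_x f`, `g = Q_x g`, `Q_symm`). -/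
theorem GQ.sum_F_mm_adj (h : GQ I s t) (hst : s + t + 1 = s * s) (hs : 2 ≤ s) {x w : Pt}
    (hxw : Adj I x w) {f g : Pt → ℝ} (hf : InU I s x f) (hg : InU I s x g) :
    (s : ℝ) * ∑ u, (F I s w u : ℝ) * (f u * g u) = -∑ u, f u * g u := by
  have h1 := h.Q_kernel hst hs w (K := fun y z => f y * g z) (IAlg_K1 hg) (IAlg_K2 hf)
  rw [IAlg_dot] at h1
  have hs2 : (2 : ℝ) ≤ s := by exact_mod_cast hs
  have hs0 : (s : ℝ) ≠ 0 := by
    intro h3
    linarith
  have hs' : (s : ℝ) - 1 ≠ 0 := by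
    intro h3
    linarith
  have h2 : ∑ y, f y * (Q I s w).mulVec g y = (1 / (s : ℝ) ^ 2) * ∑ u, f u * g u := by
    have e1 : ∑ y, f y * (Q I s w).mulVec g y = f ⬝ᵥ (Q I s w).mulVec g := rfl
    have e2 : ∑ u, f u * g u = f ⬝ᵥ g := rfl
    have e3 : f ⬝ᵥ (Q I s w).mulVec g =
        f ⬝ᵥ (Q I s x * Q I s w * Q I s x).mulVec g := by
      have e4 : f ⬝ᵥ (Q I s w).mulVec g =
          (Q I s x).mulVec f ⬝ᵥ (Q I s w).mulVec ((Q I s x).mulVec g) := by
        rw [h.Q_mulVec hst hs hf, h.Q_mulVec hst hs hg]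
      rw [e4, ← Matrix.mulVec_mulVec, ← Matrix.mulVec_mulVec,
        Matrix.dotProduct_mulVec f (Q I s x), ← Matrix.mulVec_transpose, h.Q_symm]
    rw [e1, e2, e3, h.Q_abs_adj hst hs hxw, Matrix.smul_mulVec, h.Q_mulVec hst hs hg,
      dotProduct_smul, smul_eq_mul]
  rw [h2] at h1
  apply mul_left_cancel₀ hs'
  have h3 : (s : ℝ) * (1 / (s : ℝ) ^ 2 * ∑ u, f u * g u) * s = ∑ u, f u * g u := by
    field_simp
  linear_combination (-(s : ℝ)) * h1 + h3

/-- **Task IAlg (5).** `U_x` is a subalgebra: from (3), (4), as `(Π k)(w) = (1/μ) ∑ F_w k`. -/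
theorem GQ.mul_InU (h : GQ I s t) (hst : s + t + 1 = s * s) (hs : 2 ≤ s) {x : Pt}
    {f g : Pt → ℝ} (hf : InU I s x f) (hg : InU I s x g) :
    InU I s x ((PM I s).mulVec (fun u => f u * g u)) := by
  refine ⟨h.PM_RLS _, fun w hw => ?_⟩
  have h0 : mu s ≠ 0 := (mu_pos hs).ne'
  have h1 : ∀ v, (PM I s).mulVec (fun u => f u * g u) v =
      (∑ u, (F I s v u : ℝ) * (f u * g u)) / mu s := by
    intro v
    rw [Matrix.mulVec, dotProduct, Finset.sum_div]
    refine Finset.sum_congr rfl fun u _ => ?_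
    unfold PM
    ring
  rw [h1, h1, h.sum_F_mm hst hs hf hg]
  have h2 := h.sum_F_mm_adj hst hs hw hf hg
  rw [← mul_div_assoc, h2, neg_div]

/-- **Task IAlg (6).** For `f ∈ U_x`, `T f` commutes with `Q_x`: the columns of `T f * Q_x` are
`Π (f q)` with `q` a column of `Q_x`, in `U_x` (`T_mulVec`, `mul_InU`, columns of `Q_x` are in `U_x`), so
`Q_x * T f * Q_x = T f * Q_x` (`Q_mulVec`); transpose. -/
theorem GQ.T_Q_comm (h : GQ I s t) (hst : s + t + 1 = s * s) (hs : 2 ≤ s) {x : Pt}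
    {f : Pt → ℝ} (hf : InU I s x f) : T I s f * Q I s x = Q I s x * T I s f := by
  have h1 : Q I s x * (T I s f * Q I s x) = T I s f * Q I s x := by
    ext y z
    have h2 : ∀ v, (T I s f * Q I s x) v z =
        (PM I s).mulVec (fun u => f u * Q I s x u z) v := by
      intro v
      have h3 : (T I s f * Q I s x) v z = (T I s f).mulVec (fun u => Q I s x u z) v := by
        rw [Matrix.mul_apply, Matrix.mulVec, dotProduct]
      rw [h3, h.T_mulVec hst hs f (h.IB_Qcol hst x z).1]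
    have h4 : (Q I s x * (T I s f * Q I s x)) y z =
        (Q I s x).mulVec (fun v => (T I s f * Q I s x) v z) y := by
      rw [Matrix.mul_apply, Matrix.mulVec, dotProduct]
    have h5 : (fun v => (T I s f * Q I s x) v z) =
        (PM I s).mulVec (fun u => f u * Q I s x u z) := funext h2
    rw [h4, h5, h.Q_mulVec hst hs (h.mul_InU hst hs hf (h.IB_Qcol hst x z)), h2]
  have h6 : (Q I s x * (T I s f * Q I s x)).transpose = Q I s x * (T I s f * Q I s x) := by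
    rw [Matrix.transpose_mul, Matrix.transpose_mul, h.Q_symm, h.T_symm, Matrix.mul_assoc]
  rw [h1, Matrix.transpose_mul, h.Q_symm, h.T_symm] at h6
  exact h6.symm

/-- `Q_x T(F_x) = Q_x`: multiply `Q_eq` by `Q_x`. -/
theorem GQ.Q_TF (h : GQ I s t) (hst : s + t + 1 = s * s) (hs : 2 ≤ s) (x : Pt) :
    Q I s x * T I s (fun u => (F I s x u : ℝ)) = Q I s x := by
  have h1 := congrArg (fun A => Q I s x * A) (h.Q_eq hst hs x)
  simp only [Matrix.mul_smul, Matrix.mul_add, h.Q_idem hst hs, h.Q_PM hst hs] at h1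
  have hs' : (s : ℝ) - 1 ≠ 0 := by
    have : (2 : ℝ) ≤ s := by exact_mod_cast hs
    intro h3
    linarith
  ext y z
  have h2 := congrFun (congrFun h1 y) z
  simp only [Matrix.smul_apply, Matrix.add_apply, smul_eq_mul] at h2
  apply mul_left_cancel₀ hs'
  linear_combination -h2

theorem GQ.LL_symm (h : GQ I s t) (hst : s + t + 1 = s * s) (hs : 2 ≤ s) {x y : Pt}
    (hxy : Far I x y) : (LL I s x y).transpose = LL I s x y := by
  rw [h.LL_eq hst hs hxy, h.T_symm]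

theorem GQ.LL_swap (h : GQ I s t) (hst : s + t + 1 = s * s) (hs : 2 ≤ s) {x y : Pt}
    (hxy : Far I x y) : LL I s x y = LL I s y x := by
  rw [h.LL_eq hst hs hxy, h.LL_eq hst hs hxy.symm]
  congr 1
  funext u
  rw [E_swap]

theorem GQ.PM_LL (h : GQ I s t) (hst : s + t + 1 = s * s) (hs : 2 ≤ s) {x y : Pt}
    (hxy : Far I x y) : PM I s * LL I s x y = LL I s x y := by
  rw [h.LL_eq hst hs hxy, h.PM_T hst hs]

theorem GQ.LL_Q_comm (h : GQ I s t) (hst : s + t + 1 = s * s) (hs : 2 ≤ s) {x y : Pt}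
    (hxy : Far I x y) : LL I s x y * Q I s x = Q I s x * LL I s x y := by
  rw [h.LL_eq hst hs hxy]
  exact h.T_Q_comm hst hs (h.E_InU hst hxy)

/-- **Task IAlg (7).** `(s^2-1) Q_x L = s^2 Q_x Q_y Q_x - Q_x`. `Q_x L = Q_x L Q_x` (`LL_Q_comm`), expand the
definitions of `LL`, `Lam`; `Q_x Q_w Q_x = Q_x / s^2` for the `t + 1 = s^2 - s` common neighbours `w`. -/
theorem GQ.Q_LL (h : GQ I s t) (hst : s + t + 1 = s * s) (hs : 2 ≤ s) {x y : Pt}
    (hxy : Far I x y) : ((s : ℝ) ^ 2 - 1) • (Q I s x * LL I s x y) =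
      ((s : ℝ) ^ 2) • (Q I s x * Q I s y * Q I s x) - Q I s x := by
  have h0 : Q I s x * LL I s x y = Q I s x * LL I s x y * Q I s x := by
    rw [Matrix.mul_assoc, h.LL_Q_comm hst hs hxy, ← Matrix.mul_assoc, h.Q_idem hst hs]
  have hs2 : (2 : ℝ) ≤ s := by exact_mod_cast hs
  have hs0 : (s : ℝ) ≠ 0 := by
    intro h3
    linarith
  have hs' : (s : ℝ) - 1 ≠ 0 := by
    intro h3
    linarith
  have hs1 : (s : ℝ) + 1 ≠ 0 := by
    intro h3
    linarith
  have h1 : ∀ a, Q I s x * Lam I s a * Q I s x =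
      (1 / ((s : ℝ) - 1)) • ((s : ℝ) • (Q I s x * Q I s a * Q I s x) - Q I s x) := by
    intro a
    unfold Lam
    rw [Matrix.mul_smul, Matrix.smul_mul, Matrix.mul_sub, Matrix.sub_mul, Matrix.mul_smul,
      Matrix.smul_mul, h.Q_PM hst hs, h.Q_idem hst hs]
  have h2 : Q I s x * Lam I s x * Q I s x = Q I s x := by
    rw [h1, h.Q_idem hst hs, h.Q_idem hst hs]
    ext i j
    simp only [Matrix.smul_apply, Matrix.sub_apply, smul_eq_mul]
    field_simp
  have h3 : ∀ w ∈ cns2 I x y, Q I s x * Lam I s w * Q I s x = (-(1 / (s : ℝ))) • Q I s x := by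
    intro w hw
    rw [h1, h.Q_abs_adj hst hs (mem_cns2.1 hw).1]
    ext i j
    simp only [Matrix.smul_apply, Matrix.sub_apply, smul_eq_mul]
    field_simp
    ring
  have h4 : Q I s x * (∑ w ∈ cns2 I x y, Lam I s w) * Q I s x =
      ((t : ℝ) + 1) • ((-(1 / (s : ℝ))) • Q I s x) := by
    rw [Finset.mul_sum, Finset.sum_mul, Finset.sum_congr rfl h3, Finset.sum_const,
      h.card_cns2 hxy]
    ext i j
    simp only [Matrix.smul_apply, smul_eq_mul, nsmul_eq_mul]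
    push_cast
    ring
  have ht : (t : ℝ) = (s : ℝ) * s - s - 1 := by
    have h5 : (s : ℝ) + t + 1 = s * s := by exact_mod_cast hst
    linarith
  rw [h0]
  unfold LL
  rw [Matrix.mul_smul, Matrix.smul_mul, Matrix.mul_add, Matrix.mul_add, Matrix.add_mul,
    Matrix.add_mul, Matrix.mul_smul, Matrix.mul_smul, Matrix.smul_mul, Matrix.smul_mul, h2, h4,
    h1 y, ht]
  ext i j
  simp only [Matrix.smul_apply, Matrix.add_apply, Matrix.sub_apply, smul_eq_mul]
  generalize (Q I s x * Q I s y * Q I s x) i j = X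
  generalize Q I s x i j = q
  field_simp
  ring

/-- **Task IAlg (8).** from (7) and the definition of `AA` -/
theorem GQ.Q_LL_AA (h : GQ I s t) (hst : s + t + 1 = s * s) (hs : 2 ≤ s) {x y : Pt}
    (hxy : Far I x y) : ((s : ℝ) + 1) • (Q I s x * LL I s x y) =
      (s : ℝ) • AA I s x y + Q I s x := by
  have h1 := h.Q_LL hst hs hxy
  have hs2 : (2 : ℝ) ≤ s := by exact_mod_cast hs
  have hs' : (s : ℝ) - 1 ≠ 0 := by
    intro h3
    linarith
  ext i j
  have h2 := congrFun (congrFun h1 i) j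
  unfold AA
  simp only [Matrix.smul_apply, Matrix.add_apply, Matrix.sub_apply, smul_eq_mul] at h2 ⊢
  generalize (Q I s x * Q I s y * Q I s x) i j = X at h2 ⊢
  generalize (Q I s x * LL I s x y) i j = L at h2 ⊢
  generalize Q I s x i j = q at h2 ⊢
  apply mul_left_cancel₀ hs'
  have h3 : ((s : ℝ) - 1) * ((s : ℝ) * (1 / ((s : ℝ) - 1) * ((s : ℝ) * X - q)) + q) =
      (s : ℝ) * ((s : ℝ) * X - q) + ((s : ℝ) - 1) * q := by
    field_simp
  rw [h3]
  linear_combination h2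

/-- **Task IAlg (9).** Expand `L Q_x` by the definitions of `LL`, `Lam` (no conjugation):
`(s^2-1) L Q_x = s^2 Q_y Q_x + s ∑_w Q_w Q_x - s Q_x`, and compare with (7) (`LL_Q_comm`). -/
theorem GQ.QQ_rel (h : GQ I s t) (hst : s + t + 1 = s * s) (hs : 2 ≤ s) {x y : Pt}
    (hxy : Far I x y) : ((s : ℝ) ^ 2) • (Q I s y * Q I s x) +
      (s : ℝ) • ∑ w ∈ cns2 I x y, Q I s w * Q I s x =
      ((s : ℝ) ^ 2) • (Q I s x * Q I s y * Q I s x) + ((s : ℝ) - 1) • Q I s x := by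
  have h1 := h.Q_LL hst hs hxy
  rw [← h.LL_Q_comm hst hs hxy] at h1
  have hs2 : (2 : ℝ) ≤ s := by exact_mod_cast hs
  have hs' : (s : ℝ) - 1 ≠ 0 := by
    intro h3
    linarith
  have hs1 : (s : ℝ) + 1 ≠ 0 := by
    intro h3
    linarith
  have h2 : ∀ a, Lam I s a * Q I s x =
      (1 / ((s : ℝ) - 1)) • ((s : ℝ) • (Q I s a * Q I s x) - Q I s x) := by
    intro a
    unfold Lam
    rw [Matrix.smul_mul, Matrix.sub_mul, Matrix.smul_mul, h.PM_Q hst hs]
  have h4 : (∑ w ∈ cns2 I x y, Lam I s w) * Q I s x =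
      (1 / ((s : ℝ) - 1)) • ((s : ℝ) • (∑ w ∈ cns2 I x y, Q I s w * Q I s x) -
        ((t : ℝ) + 1) • Q I s x) := by
    rw [Finset.sum_mul, Finset.sum_congr rfl (fun w _ => h2 w), ← Finset.smul_sum,
      Finset.sum_sub_distrib, ← Finset.smul_sum, Finset.sum_const, h.card_cns2 hxy,
      ← Nat.cast_smul_eq_nsmul ℝ]
    push_cast
    rfl
  have ht : (t : ℝ) = (s : ℝ) * s - s - 1 := by
    have h5 : (s : ℝ) + t + 1 = s * s := by exact_mod_cast hst
    linarith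
  unfold LL at h1
  rw [Matrix.smul_mul, Matrix.add_mul, Matrix.add_mul, Matrix.smul_mul, Matrix.smul_mul, h4,
    h2 x, h2 y, h.Q_idem hst hs, ht] at h1
  ext i j
  have h3 := congrFun (congrFun h1 i) j
  simp only [Matrix.smul_apply, Matrix.add_apply, Matrix.sub_apply, smul_eq_mul] at h3 ⊢
  generalize (Q I s x * Q I s y * Q I s x) i j = X at h3 ⊢
  generalize (∑ w ∈ cns2 I x y, Q I s w * Q I s x) i j = W at h3 ⊢
  generalize (Q I s y * Q I s x) i j = Y at h3 ⊢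
  generalize Q I s x i j = q at h3 ⊢
  have h6 : ((s : ℝ) ^ 2 - 1) * (1 / ((s : ℝ) + 1) * ((s : ℝ) * (1 / ((s : ℝ) - 1) * ((s : ℝ) * q - q)) +
      (s : ℝ) * (1 / ((s : ℝ) - 1) * ((s : ℝ) * Y - q)) +
      1 / ((s : ℝ) - 1) * ((s : ℝ) * W - ((s : ℝ) * s - s - 1 + 1) * q))) =
      (s : ℝ) * ((s : ℝ) * q - q) + (s : ℝ) * ((s : ℝ) * Y - q) +
        ((s : ℝ) * W - ((s : ℝ) * s - s) * q) := by
    field_simp
    ring
  rw [h6] at h3
  linear_combination h3

end Pool.CCff5b
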