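import Pool.Agent.W_ccff5b_h54.Swap

set_option autoImplicit false

namespace Pool.CCff5b

open Finset
open scoped Classical

variable {Pt Ln : Type} [Fintype Pt] [Fintype Ln] {I : Pt → Ln → Prop} {s t : ℕ}

theorem GQ.F_symm (h : GQ I s t) (x z : Pt) : F I s x z = F I s z x := by
  rcases eq_or_adj_or_far I x z with rfl | h1 | h1
  · rfl
  · rw [F_adj h1, F_adj h1.symm]
  · rw [h.F_far h1, h.F_far h1.symm]

theorem not_far_of_mem {x y : Pt} {l : Ln} (hx : I x l) (hy : I y l) : ¬ Far I x y :=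
  fun hf => hf l hx hy

/-- the case `y ∈ l` -/
theorem GQ.ident_on (h : GQ I s t) {l : Ln} {y : Pt} (hy : I y l) (z : Pt) :
    ((s : ℤ) + 1) ^ 2 * ∑ x ∈ pts I l, H I s x y z + ∑ x ∈ pts I l, F I s x y * F I s x z =
      (s : ℤ) * ((s : ℤ) + 1) * F I s y z := by
  have h1 : ∑ x ∈ pts I l, H I s x y z = 0 :=
    Finset.sum_eq_zero fun x hx => H_zero_left (not_far_of_mem (mem_pts.1 hx) hy)
  have h2 : ∑ x ∈ pts I l, F I s x z = 0 := by
    rw [← h.LS_F z l]
    exact Finset.sum_congr rfl fun x _ => h.F_symm x z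
  have hm : y ∈ pts I l := mem_pts.2 hy
  rw [h1, ← Finset.add_sum_erase _ _ hm, F_self]
  have h3 : ∀ x ∈ (pts I l).erase y, F I s x y * F I s x z = -(s : ℤ) * F I s x z := by
    intro x hx
    rw [Finset.mem_erase, mem_pts] at hx
    rw [F_adj ⟨hx.1, l, hx.2, hy⟩]
  rw [Finset.sum_congr rfl h3, ← Finset.mul_sum]
  rw [← Finset.add_sum_erase _ _ hm] at h2
  linear_combination (-(s : ℤ)) * h2

/-- both points off `l`, with the same foot -/
theorem GQ.ident_same (h : GQ I s t) (hst : s + t = s * s) {l : Ln} {y z w : Pt} (hy : ¬ I y l)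
    (hz : ¬ I z l) (hw : I w l) (hyw : Adj I y w) (hzw : Adj I z w) :
    ((s : ℤ) + 1) ^ 2 * ∑ x ∈ pts I l, H I s x y z + ∑ x ∈ pts I l, F I s x y * F I s x z =
      (s : ℤ) * ((s : ℤ) + 1) * F I s y z := by
  have hm : w ∈ pts I l := mem_pts.2 hw
  have hcard : ((pts I l).erase w).card = s := by
    rw [Finset.card_erase_of_mem hm, h.pts_card l]
    simp
  have hyo : y ∈ offs I l w := mem_offs.2 ⟨hyw.symm, hy⟩
  have hzo : z ∈ offs I l w := mem_offs.2 ⟨hzw.symm, hz⟩
  have hfar : ∀ v, ¬ I v l → Adj I v w → ∀ x ∈ (pts I l).erase w, Far I x v := by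
    intro v hv hvw x hx
    rw [Finset.mem_erase, mem_pts] at hx
    refine far_of_ne ?_ fun hadj => hx.1 (h.proj_unique hv hx.2 hw hadj.symm hvw)
    rintro rfl
    exact hv hx.2
  rw [← Finset.add_sum_erase _ _ hm, ← Finset.add_sum_erase (pts I l) (fun x => F I s x y * _) hm,
    H_zero_left hyw.symm.not_far, F_adj hyw.symm, F_adj hzw.symm]
  have h1 : ∑ x ∈ (pts I l).erase w, H I s x y z = K I s y z := by
    rw [← h.sum_G_line hst hw hyo hzo]
    exact Finset.sum_congr rfl fun x hx => H_far (hfar y hy hyw x hx)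
  have h2 : ∑ x ∈ (pts I l).erase w, F I s x y * F I s x z = s := by
    rw [Finset.sum_congr rfl (g := fun _ => (1 : ℤ)) fun x hx => by
      rw [h.F_far (hfar y hy hyw x hx), h.F_far (hfar z hz hzw x hx), mul_one]]
    rw [Finset.sum_const, hcard, nsmul_eq_mul, mul_one]
  rw [h1, h2]
  unfold K
  rcases eq_or_adj_or_far I y z with rfl | h3 | h3
  · rw [if_pos rfl, F_self]
    ring
  · rw [if_neg h3.ne, if_pos h3, F_adj h3]
    ring
  · rw [if_neg (h.far_ne h3), if_neg h3.not_adj, h.F_far h3]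
    ring

/-- both points off `l`, with different feet -/
theorem GQ.ident_diff (h : GQ I s t) (hst : s + t = s * s) {l : Ln} {y z m p : Pt}
    (hy : ¬ I y l) (hz : ¬ I z l) (hm : I m l) (hp : I p l) (hym : Adj I y m) (hzp : Adj I z p)
    (hmp : m ≠ p) :
    ((s : ℤ) + 1) ^ 2 * ∑ x ∈ pts I l, H I s x y z + ∑ x ∈ pts I l, F I s x y * F I s x z =
      (s : ℤ) * ((s : ℤ) + 1) * F I s y z := by
  have hm1 : m ∈ pts I l := mem_pts.2 hm
  have hp1 : p ∈ (pts I l).erase m := Finset.mem_erase.2 ⟨hmp.symm, mem_pts.2 hp⟩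
  have hcard : ((((pts I l).erase m).erase p).card : ℤ) = (s : ℤ) - 1 := by
    have h1 : (((pts I l).erase m).erase p).card + 1 = s := by
      rw [Finset.card_erase_add_one hp1, Finset.card_erase_of_mem hm1, h.pts_card l]
      simp
    have h2 : ((((pts I l).erase m).erase p).card : ℤ) + 1 = s := by exact_mod_cast h1
    linarith
  have hyz : y ≠ z := by
    rintro rfl
    exact hmp (h.proj_unique hy hm hp hym hzp)
  have hfary : ∀ x, I x l → x ≠ m → Far I x y := by
    intro x hx hxm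
    refine far_of_ne ?_ fun hadj => hxm (h.proj_unique hy hx hm hadj.symm hym)
    rintro rfl
    exact hy hx
  have hfarz : ∀ x, I x l → x ≠ p → Far I x z := by
    intro x hx hxp
    refine far_of_ne ?_ fun hadj => hxp (h.proj_unique hz hx hp hadj.symm hzp)
    rintro rfl
    exact hz hx
  rw [← Finset.add_sum_erase _ _ hm1, ← Finset.add_sum_erase (pts I l) (fun x => F I s x y * _) hm1,
    ← Finset.add_sum_erase _ _ hp1, ← Finset.add_sum_erase _ (fun x => F I s x y * _) hp1,
    H_zero_left hym.symm.not_far, H_zero_right hzp.symm.not_far, F_adj hym.symm,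
    h.F_far (hfarz m hm hmp), h.F_far (hfary p hp hmp.symm), F_adj hzp.symm]
  have h2 : ∑ x ∈ ((pts I l).erase m).erase p, F I s x y * F I s x z = (s : ℤ) - 1 := by
    rw [Finset.sum_congr rfl (g := fun _ => (1 : ℤ)) fun x hx => by
      rw [Finset.mem_erase, Finset.mem_erase, mem_pts] at hx
      rw [h.F_far (hfary x hx.2.2 hx.2.1), h.F_far (hfarz x hx.2.2 hx.1), mul_one]]
    rw [Finset.sum_const, nsmul_eq_mul, mul_one, hcard]
  rw [h2]
  have hst' : (s : ℤ) + t = s * s := by exact_mod_cast hst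
  rcases eq_or_adj_or_far I y z with h3 | h3 | h3
  · exact absurd h3.symm hyz
  · have h1 : ∑ x ∈ ((pts I l).erase m).erase p, H I s x y z = -((s : ℤ) - 1) := by
      rw [Finset.sum_congr rfl (g := fun _ => (-1 : ℤ)) fun x hx => by
        rw [Finset.mem_erase, Finset.mem_erase, mem_pts] at hx
        rw [H_far (hfary x hx.2.2 hx.2.1), G_adj (hfarz x hx.2.2 hx.1) h3]]
      rw [Finset.sum_const, nsmul_eq_mul, hcard]
      ring
    rw [h1, F_adj h3]
    ring
  · have h4 := h.sum_cn_diff h3 hy hz hm hp hym hzp hmp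
    have h5 : ((∑ x ∈ ((pts I l).erase m).erase p, (cn I y z x : ℤ))) + 1 = t := by
      exact_mod_cast h4
    have h1 : ∑ x ∈ ((pts I l).erase m).erase p, H I s x y z = 1 := by
      rw [Finset.sum_congr rfl (g := fun x => (s : ℤ) - (cn I y z x : ℤ)) fun x hx => by
        rw [Finset.mem_erase, Finset.mem_erase, mem_pts] at hx
        rw [H_far (hfary x hx.2.2 hx.2.1), h.G_triad (hfarz x hx.2.2 hx.1) h3, cn_swap12,
          cn_swap23]]
      rw [Finset.sum_sub_distrib, Finset.sum_const, nsmul_eq_mul, hcard]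
      linear_combination (-1) * h5 - hst'
    rw [h1, h.F_far h3]
    ring

/-- **Identity (D).** -/
theorem GQ.ident (h : GQ I s t) (hst : s + t = s * s) (l : Ln) (y z : Pt) :
    ((s : ℤ) + 1) ^ 2 * ∑ x ∈ pts I l, H I s x y z + ∑ x ∈ pts I l, F I s x y * F I s x z =
      (s : ℤ) * ((s : ℤ) + 1) * F I s y z := by
  by_cases hy : I y l
  · exact h.ident_on hy z
  by_cases hz : I z l
  · have h1 := h.ident_on hz y
    rw [h.F_symm z y] at h1
    rw [← h1, Finset.sum_congr rfl fun x _ => H_symm x y z,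
      Finset.sum_congr (g := fun x => F I s x z * F I s x y) rfl fun x _ => mul_comm _ _]
  obtain ⟨m, hm, hym⟩ := h.exists_proj hy
  obtain ⟨p, hp, hzp⟩ := h.exists_proj hz
  by_cases hmp : m = p
  · subst hmp
    exact h.ident_same hst hy hz hm hym hzp
  · exact h.ident_diff hst hy hz hm hp hym hzp hmp

end Pool.CCff5b
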