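import Pool.Agent.W_ccff5b_h54.IDefs
import Pool.Agent.W_ccff5b_h54.Ident

set_option autoImplicit false

namespace Pool.CCff5b

open Finset
open scoped Classical

variable {Pt Ln : Type} [Fintype Pt] [Fintype Ln] {I : Pt → Ln → Prop} {s t : ℕ}

theorem GQ.IE_sum (h : GQ I s t) {x y u : Pt} (hxy : Far I x y) (hu : ¬ (Adj I x u ∧ Adj I y u)) :
    ∑ w ∈ cns2 I x y, F I s w u = ((t : ℤ) + 1) - ((s : ℤ) + 1) * (cn I x y u : ℤ) := by
  have h1 : ∀ w ∈ cns2 I x y, F I s w u = 1 - ((s : ℤ) + 1) * (if Adj I u w then 1 else 0) := by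
    intro w hw
    rw [mem_cns2] at hw
    rcases eq_or_adj_or_far I w u with rfl | h2 | h2
    · exact absurd hw hu
    · rw [F_adj h2, if_pos h2.symm]
      ring
    · rw [h.F_far h2, if_neg h2.symm.not_adj]
      ring
  have h3 : (cns2 I x y).filter (fun w => Adj I u w) = cns I x y u := by
    ext w
    rw [Finset.mem_filter, mem_cns2, mem_cns, and_assoc]
  rw [Finset.sum_congr rfl h1, Finset.sum_sub_distrib, Finset.sum_const, h.card_cns2 hxy,
    nsmul_eq_mul, ← Finset.mul_sum, Finset.sum_boole, h3]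
  unfold cn
  push_cast
  ring

theorem GQ.IE_sum_mem (h : GQ I s t) {x y u : Pt} (hxy : Far I x y) (hu1 : Adj I x u)
    (hu2 : Adj I y u) : ∑ w ∈ cns2 I x y, F I s w u = (s : ℤ) ^ 2 + (t : ℤ) := by
  have hm : u ∈ cns2 I x y := mem_cns2.2 ⟨hu1, hu2⟩
  have hcard : ((cns2 I x y).erase u).card = t := by
    rw [Finset.card_erase_of_mem hm, h.card_cns2 hxy]
    simp
  rw [← Finset.add_sum_erase _ _ hm, F_self]
  rw [Finset.sum_congr rfl (g := fun _ => (1 : ℤ)) fun w hw => by
    rw [Finset.mem_erase, mem_cns2] at hw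
    exact h.F_far (far_of_ne hw.1 (h.common_not_adj hxy hw.2.1 hw.2.2 hu1 hu2))]
  rw [Finset.sum_const, hcard, nsmul_eq_mul, mul_one]

theorem IE_self_left (x y : Pt) : E I s x y x = (s : ℤ) := by simp [E]

theorem IE_self_right (x y : Pt) : E I s x y y = (s : ℤ) := by simp [E]

theorem IE_adj {x y u : Pt} (h1 : u ≠ x) (h2 : u ≠ y) (h3 : Adj I x u ∨ Adj I y u) :
    E I s x y u = -1 := by
  simp [E, h1, h2, h3]

theorem IE_far {x y u : Pt} (h1 : u ≠ x) (h2 : u ≠ y) (h3 : ¬ Adj I x u) (h4 : ¬ Adj I y u) :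
    E I s x y u = (s : ℤ) - cn I x y u := by
  simp [E, h1, h2, h3, h4]

theorem IE_cn_left (h : GQ I s t) {x y : Pt} (hxy : Far I x y) : cn I x y x = t + 1 := by
  rw [← h.card_cns2 hxy]
  unfold cn
  congr 1
  ext w
  rw [mem_cns, mem_cns2]
  tauto

theorem IE_cn_right (h : GQ I s t) {x y : Pt} (hxy : Far I x y) : cn I x y y = t + 1 := by
  rw [cn_self, h.card_cns2 hxy]

/-- **Task IE (1).** `(s+1) E_xy = s F_x + s F_y + ∑_w F_w`, `w` the `t+1` common neighbours of `x`, `y`
(`GQ.card_cns2`), `t + 1 = s^2 - s`. Cases for `u`: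
`u = x` (or `y`): `s * s^2 + s - s (t+1) = s (s+1)`.
`u ∼ x` and `u ∼ y` (so `u` is one of the `w`, and far from the others, `GQ.common_not_adj`):
`-s^2 - s^2 + s^2 + t = -(s+1)`.
`u ∼ x`, `u` far from `y`: exactly one `w` is collinear with `u`, the point of the line `xu` collinear with
`y`; it is not `u`; the `t` others are far from `u`: `-s^2 + s - s + t = -(s+1)`. Same for `u ∼ y`.
`u` far from `x` and `y`: `cn x y u` of the `w` are collinear with `u`, the others are far from `u`
(none is equal to `u`): `2s - s c + (t+1-c) = (s+1)(s-c)`. -/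
theorem GQ.E_F (h : GQ I s t) (hst : s + t + 1 = s * s) {x y : Pt} (hxy : Far I x y) (u : Pt) :
    ((s : ℤ) + 1) * E I s x y u = (s : ℤ) * F I s x u + (s : ℤ) * F I s y u +
      ∑ w ∈ cns2 I x y, F I s w u := by
  have hst' : (s : ℤ) + t + 1 = s * s := by exact_mod_cast hst
  rcases eq_or_adj_or_far I x u with rfl | h1 | h1
  · rw [h.IE_sum hxy (fun hu => not_adj_self hu.1), IE_cn_left h hxy, IE_self_left, F_self,
      h.F_far hxy.symm]
    push_cast
    linear_combination (s : ℤ) * hst'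
  · have hux : u ≠ x := h1.ne.symm
    rcases eq_or_adj_or_far I y u with rfl | h2 | h2
    · exact absurd h1 hxy.not_adj
    · rw [h.IE_sum_mem hxy h1 h2, IE_adj hux h2.ne.symm (Or.inl h1), F_adj h1, F_adj h2]
      linear_combination (-1) * hst'
    · rw [h.IE_sum hxy (fun hu => h2.not_adj hu.2), IE_adj hux (h.far_ne h2).symm (Or.inl h1),
        F_adj h1, h.F_far h2, cn_swap12, h.cn_of_adj hxy.symm h2 h1]
      push_cast
      linear_combination (-1) * hst'
  · have hux : u ≠ x := (h.far_ne h1).symm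
    rcases eq_or_adj_or_far I y u with rfl | h2 | h2
    · rw [h.IE_sum hxy (fun hu => not_adj_self hu.2), IE_cn_right h hxy, IE_self_right, F_self,
        h.F_far h1]
      push_cast
      linear_combination (s : ℤ) * hst'
    · rw [h.IE_sum hxy (fun hu => h1.not_adj hu.1), IE_adj hux h2.ne.symm (Or.inr h2),
        F_adj h2, h.F_far h1, h.cn_of_adj hxy h1 h2]
      push_cast
      linear_combination (-1) * hst'
    · rw [h.IE_sum hxy (fun hu => h1.not_adj hu.1), IE_far hux (h.far_ne h2).symm h1.not_adj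
        h2.not_adj, h.F_far h1, h.F_far h2]
      linear_combination (-1) * hst'

/-- `E` is symmetric in the last two arguments for `y`, `z` far from `x` (cases `z = y`, `z ∼ y`,
`z` far from `y` with `cn_swap23`) -/
theorem GQ.E_symm23 (h : GQ I s t) {x y z : Pt} (hxy : Far I x y) (hxz : Far I x z) :
    E I s x y z = E I s x z y := by
  have hx1 : z ≠ x := (h.far_ne hxz).symm
  have hx2 : y ≠ x := (h.far_ne hxy).symm
  rcases eq_or_adj_or_far I y z with rfl | h1 | h1
  · rfl
  · rw [IE_adj hx1 h1.ne.symm (Or.inr h1), IE_adj hx2 h1.ne (Or.inr h1.symm)]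
  · rw [IE_far hx1 (h.far_ne h1).symm hxz.not_adj h1.not_adj,
      IE_far hx2 (h.far_ne h1) hxy.not_adj h1.symm.not_adj, cn_swap23]

end Pool.CCff5b
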