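import Pool.Agent.W_ccff5b_h54.IReal
import Pool.Agent.W_ccff5b_h54.IE

set_option autoImplicit false

namespace Pool.CCff5b

open Finset
open scoped Classical

variable {Pt Ln : Type} [Fintype Pt] [Fintype Ln] {I : Pt → Ln → Prop} {s t : ℕ}

theorem mu_pos (hs : 2 ≤ s) : 0 < mu s := by
  have h : (2 : ℝ) ≤ s := by exact_mod_cast hs
  unfold mu
  have h1 : 0 < (s : ℝ) - 1 := by linarith
  positivity

/-- `(s+1)(s+t) = μ` as `s + t = s^2 - 1` -/
theorem mu_eq (hst : s + t + 1 = s * s) : ((s : ℝ) + 1) * ((s : ℝ) + t) = mu s := by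
  have h : (s : ℝ) + t + 1 = s * s := by exact_mod_cast hst
  have h1 : (s : ℝ) + t = s * s - 1 := by linarith
  rw [h1]
  unfold mu
  ring

/-- **Task IB.** `E_xy` has zero line sums: from `GQ.E_F` (cast to `ℝ`), `rLS_F`. -/
theorem GQ.rLS_E (h : GQ I s t) (hst : s + t + 1 = s * s) {x y : Pt} (hxy : Far I x y) :
    RLS I (fun u => (E I s x y u : ℝ)) := by
  intro l
  have h1 : ∀ u, ((s : ℝ) + 1) * (E I s x y u : ℝ) = (s : ℝ) * (F I s x u : ℝ) +
      (s : ℝ) * (F I s y u : ℝ) + ∑ w ∈ cns2 I x y, (F I s w u : ℝ) := by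
    intro u
    have h2 := h.E_F hst hxy u
    exact_mod_cast h2
  have h3 : ((s : ℝ) + 1) * ∑ u ∈ pts I l, (E I s x y u : ℝ) = 0 := by
    rw [Finset.mul_sum, Finset.sum_congr rfl (fun u _ => h1 u), Finset.sum_add_distrib,
      Finset.sum_add_distrib, ← Finset.mul_sum, ← Finset.mul_sum, Finset.sum_comm,
      Finset.sum_congr rfl (fun w _ => h.rLS_F w l), Finset.sum_const_zero]
    have h4 := h.rLS_F x l
    have h5 := h.rLS_F y l
    simp only at h4 h5
    rw [h4, h5]
    ring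
  have h6 : ((s : ℝ) + 1) ≠ 0 := by positivity
  exact (mul_eq_zero.1 h3).resolve_left h6

/-- `(s+1) ⟨E_xy, f⟩ = μ (s f(x) + s f(y) + ∑_w f(w))`: `GQ.E_F`, `rsum_F_mul`. -/
theorem GQ.rsum_E_mul (h : GQ I s t) (hst : s + t + 1 = s * s) {x y : Pt} (hxy : Far I x y)
    {f : Pt → ℝ} (hf : RLS I f) :
    ((s : ℝ) + 1) * ∑ u, (E I s x y u : ℝ) * f u =
      mu s * ((s : ℝ) * f x + (s : ℝ) * f y + ∑ w ∈ cns2 I x y, f w) := by
  have h1 : ∀ u, ((s : ℝ) + 1) * ((E I s x y u : ℝ) * f u) =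
      (s : ℝ) * ((F I s x u : ℝ) * f u) +
      (s : ℝ) * ((F I s y u : ℝ) * f u) + ∑ w ∈ cns2 I x y, (F I s w u : ℝ) * f u := by
    intro u
    have h2 := h.E_F hst hxy u
    have h3 : ((s : ℝ) + 1) * (E I s x y u : ℝ) = (s : ℝ) * (F I s x u : ℝ) +
      (s : ℝ) * (F I s y u : ℝ) + ∑ w ∈ cns2 I x y, (F I s w u : ℝ) := by exact_mod_cast h2
    rw [← Finset.sum_mul, ← mul_assoc, h3]
    ring
  rw [Finset.mul_sum, Finset.sum_congr rfl (fun u _ => h1 u), Finset.sum_add_distrib,
    Finset.sum_add_distrib, ← Finset.mul_sum, ← Finset.mul_sum, Finset.sum_comm,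
    h.rsum_F_mul hf x, h.rsum_F_mul hf y, Finset.sum_congr rfl (fun w _ => h.rsum_F_mul hf w),
    ← Finset.mul_sum, mu_eq hst]
  ring

omit [Fintype Ln] in
theorem IB_eq {x y z : Pt} (hy : y = x) : B I s x y z = (s : ℝ) * (F I s x z : ℝ) := by
  simp [B, hy]

omit [Fintype Ln] in
theorem IB_adj {x y z : Pt} (hy : Adj I x y) : B I s x y z = -(F I s x z : ℝ) := by
  have h1 : y ≠ x := hy.ne.symm
  simp [B, hy, h1]

theorem GQ.IB_far (h : GQ I s t) {x y z : Pt} (hy : Far I x y) :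
    B I s x y z = ((s : ℝ) + 1) * (E I s x y z : ℝ) - (F I s x z : ℝ) := by
  have h1 : y ≠ x := (h.far_ne hy).symm
  have h2 : ¬ Adj I x y := hy.not_adj
  simp [B, h1, h2]

omit [Fintype Ln] in
theorem IB_E_left (x y : Pt) : E I s x y x = (s : ℤ) := by
  simp [E]

theorem GQ.IB_E_adj (_h : GQ I s t) {x y u : Pt} (hxy : Far I x y) (hu : Adj I x u) :
    E I s x y u = -1 := by
  have h1 : u ≠ x := hu.ne.symm
  have h2 : u ≠ y := by
    rintro rfl
    exact hxy.not_adj hu
  simp [E, h1, h2, hu]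

omit [Fintype Ln] in
theorem IB_F_symm (x y : Pt) : F I s x y = F I s y x := by
  by_cases h1 : y = x
  · rw [h1]
  by_cases h2 : Adj I x y
  · rw [F_adj h2, F_adj h2.symm]
  · have h3 : ¬ Adj I y x := fun h => h2 h.symm
    have h4 : ¬ x = y := fun h => h1 h.symm
    simp [F, h1, h2, h3, h4]

/-- symmetry of `b_x`: cases `y, z = x`, collinear with `x`, far from `x` (then `E_symm23`);
for `y` far from `x`: `b x y x = (s+1) s - s^2 = s = b x x y`, and `b x y z = -(s+1) + s = -1 = b x z y`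
for `z ∼ x`. -/
theorem GQ.B_symm (h : GQ I s t) (x y z : Pt) : B I s x y z = B I s x z y := by
  rcases eq_or_adj_or_far I x y with hy | hy | hy
  · rcases eq_or_adj_or_far I x z with hz | hz | hz
    · rw [hy, hz]
    · rw [IB_eq hy, IB_adj hz, hy, F_self, F_adj hz]
      push_cast
      ring
    · rw [IB_eq hy, h.IB_far hz, hy, F_self, h.F_far hz, IB_E_left]
      push_cast
      ring
  · rcases eq_or_adj_or_far I x z with hz | hz | hz
    · rw [IB_adj hy, IB_eq hz, hz, F_self, F_adj hy]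
      push_cast
      ring
    · rw [IB_adj hy, IB_adj hz, F_adj hy, F_adj hz]
    · rw [IB_adj hy, h.IB_far hz, h.F_far hz, F_adj hy, h.IB_E_adj hz hy]
      push_cast
      ring
  · rcases eq_or_adj_or_far I x z with hz | hz | hz
    · rw [h.IB_far hy, IB_eq hz, hz, F_self, h.F_far hy, IB_E_left]
      push_cast
      ring
    · rw [h.IB_far hy, IB_adj hz, h.F_far hy, F_adj hz, h.IB_E_adj hy hz]
      push_cast
      ring
    · rw [h.IB_far hy, h.IB_far hz, h.F_far hy, h.F_far hz, h.E_symm23 hy hz]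

theorem GQ.B_LS (h : GQ I s t) (hst : s + t + 1 = s * s) (x y : Pt) :
    RLS I (fun z => B I s x y z) := by
  intro l
  rcases eq_or_adj_or_far I x y with hy | hy | hy
  · have h1 : ∀ z ∈ pts I l, B I s x y z = (s : ℝ) * (F I s x z : ℝ) := fun z _ => IB_eq hy
    have h2 := h.rLS_F x l
    simp only at h2
    simp only
    rw [Finset.sum_congr rfl h1, ← Finset.mul_sum, h2, mul_zero]
  · have h1 : ∀ z ∈ pts I l, B I s x y z = -(F I s x z : ℝ) := fun z _ => IB_adj hy
    have h2 := h.rLS_F x l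
    simp only at h2
    simp only
    rw [Finset.sum_congr rfl h1, Finset.sum_neg_distrib, h2, neg_zero]
  · have h1 : ∀ z ∈ pts I l, B I s x y z =
        ((s : ℝ) + 1) * (E I s x y z : ℝ) - (F I s x z : ℝ) := fun z _ => h.IB_far hy
    have h2 := h.rLS_F x l
    have h3 := h.rLS_E hst hy l
    simp only at h2 h3
    simp only
    rw [Finset.sum_congr rfl h1, Finset.sum_sub_distrib, ← Finset.mul_sum, h2, h3]
    ring

/-- action of `b_x` on functions with zero line sums (`rsum_F_mul`, `rsum_E_mul`, `mu_eq`) -/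
theorem GQ.B_act (h : GQ I s t) (hst : s + t + 1 = s * s) (x y : Pt) {f : Pt → ℝ}
    (hf : RLS I f) :
    ∑ z, B I s x y z * f z = mu s * (if y = x then (s : ℝ) * f x else if Adj I x y then -f x
      else ((s : ℝ) - 1) * f x + (s : ℝ) * f y + ∑ w ∈ cns2 I x y, f w) := by
  rcases eq_or_adj_or_far I x y with hy | hy | hy
  · have h1 : ∀ z ∈ (Finset.univ : Finset Pt), B I s x y z * f z =
        (s : ℝ) * ((F I s x z : ℝ) * f z) := fun z _ => by rw [IB_eq hy]; ring
    rw [Finset.sum_congr rfl h1, ← Finset.mul_sum, h.rsum_F_mul hf, mu_eq hst, if_pos hy]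
    ring
  · have h1 : ∀ z ∈ (Finset.univ : Finset Pt), B I s x y z * f z =
        -((F I s x z : ℝ) * f z) := fun z _ => by rw [IB_adj hy]; ring
    have hne : y ≠ x := hy.ne.symm
    rw [Finset.sum_congr rfl h1, Finset.sum_neg_distrib, h.rsum_F_mul hf, mu_eq hst, if_neg hne,
      if_pos hy]
    ring
  · have h1 : ∀ z ∈ (Finset.univ : Finset Pt), B I s x y z * f z =
        ((s : ℝ) + 1) * ((E I s x y z : ℝ) * f z) - (F I s x z : ℝ) * f z :=
      fun z _ => by rw [h.IB_far hy]; ring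
    have hne : y ≠ x := (h.far_ne hy).symm
    rw [Finset.sum_congr rfl h1, Finset.sum_sub_distrib, ← Finset.mul_sum,
      h.rsum_E_mul hst hy hf, h.rsum_F_mul hf, mu_eq hst, if_neg hne, if_neg hy.not_adj]
    ring

/-- reproducing property on `U_x`: `B_act`; for `y` far from `x` the `t + 1 = s^2 - s` common neighbours
`w` have `f w = -f x / s`, so `∑_w f w = -(s-1) f x`. -/
theorem GQ.B_rep (h : GQ I s t) (hst : s + t + 1 = s * s) (hs : 2 ≤ s) {x : Pt} {f : Pt → ℝ}
    (hf : InU I s x f) (y : Pt) : ∑ z, B I s x y z * f z = (s : ℝ) * mu s * f y := by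
  have hs0 : (s : ℝ) ≠ 0 := by
    have : 0 < s := by omega
    positivity
  rw [h.B_act hst x y hf.1]
  rcases eq_or_adj_or_far I x y with hy | hy | hy
  · rw [if_pos hy, hy]
    ring
  · rw [if_neg hy.ne.symm, if_pos hy]
    have h1 := hf.2 y hy
    rw [mul_assoc, mul_comm (mu s) (f y), ← mul_assoc, h1]
    ring
  · rw [if_neg (h.far_ne hy).symm, if_neg hy.not_adj]
    have h1 : ∀ w ∈ cns2 I x y, f w = -f x / s := by
      intro w hw
      have h2 := hf.2 w (mem_cns2.1 hw).1
      rw [eq_div_iff hs0, mul_comm]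
      exact h2
    rw [Finset.sum_congr rfl h1, Finset.sum_const, h.card_cns2 hy, nsmul_eq_mul]
    have h3 : ((t + 1 : ℕ) : ℝ) = (s : ℝ) * ((s : ℝ) - 1) := by
      have h4 : (s : ℝ) + t + 1 = s * s := by exact_mod_cast hst
      push_cast
      linarith
    rw [h3]
    field_simp
    ring

theorem GQ.F_InU (h : GQ I s t) (x : Pt) : InU I s x (fun z => (F I s x z : ℝ)) := by
  refine ⟨h.rLS_F x, fun w hw => ?_⟩
  simp only
  rw [F_self, F_adj hw]
  push_cast
  ring

/-- `E_xy` is `s` at `x` and `-1` on the neighbours of `x` -/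
theorem GQ.E_InU (h : GQ I s t) (hst : s + t + 1 = s * s) {x y : Pt} (hxy : Far I x y) :
    InU I s x (fun u => (E I s x y u : ℝ)) := by
  refine ⟨h.rLS_E hst hxy, fun w hw => ?_⟩
  simp only
  rw [IB_E_left, h.IB_E_adj hxy hw]
  push_cast
  ring

omit [Fintype Ln] in
/-- `E_xy = E_yx` -/
theorem E_swap (x y u : Pt) : E I s x y u = E I s y x u := by
  by_cases h1 : u = x
  · by_cases h2 : u = y
    · rw [← h1, ← h2]
    · simp [E, h1]
  by_cases h2 : u = y
  · simp [E, h2]
  by_cases h3 : Adj I x u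
  · simp [E, h1, h2, h3]
  by_cases h4 : Adj I y u
  · simp [E, h1, h2, h4]
  · simp [E, h1, h2, h3, h4, cn_swap12 x y u]

/-- rows of `b_x` are in `U_x` -/
theorem GQ.B_InU (h : GQ I s t) (hst : s + t + 1 = s * s) (x y : Pt) :
    InU I s x (fun z => B I s x y z) := by
  refine ⟨h.B_LS hst x y, fun w hw => ?_⟩
  simp only
  have h1 := (h.F_InU x).2 w hw
  simp only at h1
  rcases eq_or_adj_or_far I x y with hy | hy | hy
  · rw [IB_eq hy, IB_eq hy]
    linear_combination (s : ℝ) * h1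
  · rw [IB_adj hy, IB_adj hy]
    linear_combination -h1
  · rw [h.IB_far hy, h.IB_far hy]
    have h2 := (h.E_InU hst hy).2 w hw
    simp only at h2
    linear_combination ((s : ℝ) + 1) * h2 - h1

theorem GQ.Q_symm (h : GQ I s t) (x : Pt) : (Q I s x).transpose = Q I s x := by
  ext y z
  rw [Matrix.transpose_apply]
  unfold Q
  rw [h.B_symm]

theorem IB_smu_pos (hs : 2 ≤ s) : 0 < (s : ℝ) * mu s := by
  have h1 : (0 : ℝ) < s := by
    have : 0 < s := by omega
    exact_mod_cast this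
  exact mul_pos h1 (mu_pos hs)

theorem GQ.Q_idem (h : GQ I s t) (hst : s + t + 1 = s * s) (hs : 2 ≤ s) (x : Pt) :
    Q I s x * Q I s x = Q I s x := by
  ext y z
  rw [Matrix.mul_apply]
  have h0 : (s : ℝ) * mu s ≠ 0 := (IB_smu_pos hs).ne'
  have h1 : ∀ u, Q I s x y u * Q I s x u z =
      (B I s x y u * B I s x z u) / (((s : ℝ) * mu s) * ((s : ℝ) * mu s)) := by
    intro u
    unfold Q
    rw [h.B_symm x u z, div_mul_div_comm]
  rw [Finset.sum_congr rfl (fun u _ => h1 u), ← Finset.sum_div,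
    h.B_rep hst hs (h.B_InU hst x z) y, h.B_symm x z y]
  unfold Q
  field_simp

theorem GQ.PM_symm (h : GQ I s t) : (PM I s).transpose = PM I s := by
  ext y z
  rw [Matrix.transpose_apply]
  unfold PM
  rw [IB_F_symm]

theorem GQ.PM_mulVec (h : GQ I s t) (hst : s + t + 1 = s * s) (hs : 2 ≤ s) {f : Pt → ℝ}
    (hf : RLS I f) : (PM I s).mulVec f = f := by
  ext y
  have h0 : mu s ≠ 0 := (mu_pos hs).ne'
  have h1 : ∀ z, PM I s y z * f z = ((F I s y z : ℝ) * f z) / mu s := by
    intro z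
    unfold PM
    ring
  rw [Matrix.mulVec, dotProduct, Finset.sum_congr rfl (fun z _ => h1 z), ← Finset.sum_div,
    h.rsum_F_mul hf, mu_eq hst]
  field_simp

theorem GQ.PM_RLS (h : GQ I s t) (g : Pt → ℝ) : RLS I ((PM I s).mulVec g) := by
  intro l
  have h1 : ∀ y, (PM I s).mulVec g y = ∑ z, (g z / mu s) * (F I s z y : ℝ) := by
    intro y
    rw [Matrix.mulVec, dotProduct]
    refine Finset.sum_congr rfl fun z _ => ?_
    unfold PM
    rw [IB_F_symm y z]
    ring
  rw [Finset.sum_congr rfl (fun y _ => h1 y), Finset.sum_comm]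
  refine Finset.sum_eq_zero fun z _ => ?_
  have h2 := h.rLS_F z l
  simp only at h2
  rw [← Finset.mul_sum, h2, mul_zero]

theorem GQ.PM_idem (h : GQ I s t) (hst : s + t + 1 = s * s) (hs : 2 ≤ s) :
    PM I s * PM I s = PM I s := by
  ext y z
  have h1 : (PM I s * PM I s) y z = (PM I s).mulVec (fun u => PM I s u z) y := by
    rw [Matrix.mul_apply, Matrix.mulVec, dotProduct]
  have h2 : RLS I (fun u => PM I s u z) := by
    intro l
    have h3 : ∀ u, PM I s u z = (F I s z u : ℝ) / mu s := by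
      intro u
      unfold PM
      rw [IB_F_symm]
    have h4 := h.rLS_F z l
    simp only at h4
    simp only
    rw [Finset.sum_congr rfl (fun u _ => h3 u), ← Finset.sum_div, h4, zero_div]
  rw [h1, h.PM_mulVec hst hs h2]

theorem GQ.IB_Qcol (h : GQ I s t) (hst : s + t + 1 = s * s) (x z : Pt) :
    InU I s x (fun u => Q I s x u z) := by
  have h3 : ∀ u, Q I s x u z = B I s x z u / ((s : ℝ) * mu s) := by
    intro u
    unfold Q
    rw [h.B_symm]
  refine ⟨fun l => ?_, fun w hw => ?_⟩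
  · have h4 := h.B_LS hst x z l
    simp only at h4
    simp only
    rw [Finset.sum_congr rfl (fun u _ => h3 u), ← Finset.sum_div, h4, zero_div]
  · have h4 := (h.B_InU hst x z).2 w hw
    simp only at h4
    simp only
    rw [h3, h3, ← mul_div_assoc, h4, neg_div]

theorem GQ.PM_Q (h : GQ I s t) (hst : s + t + 1 = s * s) (hs : 2 ≤ s) (x : Pt) :
    PM I s * Q I s x = Q I s x := by
  ext y z
  have h1 : (PM I s * Q I s x) y z = (PM I s).mulVec (fun u => Q I s x u z) y := by
    rw [Matrix.mul_apply, Matrix.mulVec, dotProduct]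
  rw [h1, h.PM_mulVec hst hs (h.IB_Qcol hst x z).1]

theorem GQ.Q_PM (h : GQ I s t) (hst : s + t + 1 = s * s) (hs : 2 ≤ s) (x : Pt) :
    Q I s x * PM I s = Q I s x := by
  have h1 : (PM I s * Q I s x).transpose = (Q I s x).transpose := by rw [h.PM_Q hst hs]
  rw [Matrix.transpose_mul, h.Q_symm, h.PM_symm] at h1
  exact h1

theorem GQ.Q_mulVec (h : GQ I s t) (hst : s + t + 1 = s * s) (hs : 2 ≤ s) {x : Pt}
    {f : Pt → ℝ} (hf : InU I s x f) : (Q I s x).mulVec f = f := by
  ext y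
  have h0 : (s : ℝ) * mu s ≠ 0 := (IB_smu_pos hs).ne'
  have h1 : ∀ z, Q I s x y z * f z = (B I s x y z * f z) / ((s : ℝ) * mu s) := by
    intro z
    unfold Q
    ring
  rw [Matrix.mulVec, dotProduct, Finset.sum_congr rfl (fun z _ => h1 z), ← Finset.sum_div,
    h.B_rep hst hs hf, mul_div_cancel_left₀ _ h0]

theorem GQ.Q_InU (h : GQ I s t) (hst : s + t + 1 = s * s) (x : Pt) (g : Pt → ℝ) :
    InU I s x ((Q I s x).mulVec g) := by
  refine ⟨fun l => ?_, fun w hw => ?_⟩
  · have h1 : ∀ y, (Q I s x).mulVec g y = ∑ z, g z * Q I s x y z := by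
      intro y
      rw [Matrix.mulVec, dotProduct]
      exact Finset.sum_congr rfl fun z _ => mul_comm _ _
    rw [Finset.sum_congr rfl (fun y _ => h1 y), Finset.sum_comm]
    refine Finset.sum_eq_zero fun z _ => ?_
    have h2 := (h.IB_Qcol hst x z).1 l
    simp only at h2
    rw [← Finset.mul_sum, h2, mul_zero]
  · rw [Matrix.mulVec, Matrix.mulVec, dotProduct, dotProduct, Finset.mul_sum,
      ← Finset.sum_neg_distrib]
    refine Finset.sum_congr rfl fun z _ => ?_
    have h2 := (h.IB_Qcol hst x z).2 w hw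
    simp only at h2
    linear_combination g z * h2

end Pool.CCff5b
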