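import Pool.Agent.W_ccff5b_h54.Key

set_option autoImplicit false

namespace Pool.CCff5b

open Finset
open scoped Classical

variable {Pt Ln : Type} [Fintype Pt] [Fintype Ln] {I : Pt → Ln → Prop} {s t : ℕ}

/-- diagonal entries of `M` -/
theorem GQ.M_diag (h : GQ I s t) (hst : s + t = s * s) {a c b : Pt} (hac : Far I a c)
    (hab : Far I a b) (hcb : Far I c b) :
    M I s a c b b = (s : ℤ) ^ 2 * (((s : ℤ) - 1) + ((s : ℤ) - 2) * G I s a c b -
      (G I s a c b) ^ 2) := by
  have hst' : (s : ℤ) + t = s * s := by exact_mod_cast hst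
  have e1 : H I s a b c = G I s a c b := by
    rw [H_far hab, G_symm hab hac]
  have e2 : H I s c a b = G I s a c b := by
    rw [H_far hac.symm, h.G_swap hcb hab]
  have e3 : G I s b a c = G I s a c b := by
    rw [h.G_swap hcb.symm hac, G_symm hab hac]
  have hf : LS I (H I s c b) := h.LS_H hst c b
  have h1 : ∑ v, ((s : ℤ) + 1) * (G I s a b v - G I s b a v) * H I s c b v =
      ((s : ℤ) + 1) * ((s : ℤ) + t) * H I s c b b - ((s : ℤ) + 1) * ((s : ℤ) + t) * H I s c b a := by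
    rw [← h.sum_F_mul hf b, ← h.sum_F_mul hf a, ← Finset.sum_sub_distrib]
    refine Finset.sum_congr rfl fun z _ => ?_
    rw [h.G_swap_F hab z]
    ring
  have h2 : ∑ v, ((s : ℤ) + 1) * (G I s a b v - G I s b a v) * H I s c b v =
      ((s : ℤ) + 1) * (∑ v, G I s a b v * H I s c b v - ∑ v, G I s c b v * G I s b a v) := by
    rw [← Finset.sum_sub_distrib, Finset.mul_sum]
    refine Finset.sum_congr rfl fun z _ => ?_
    rw [H_far hcb]
    ring
  have h3 : ∑ v, G I s c b v * G I s b a v = ((s : ℤ) ^ 3 - (s : ℤ) ^ 2) * G I s b a c :=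
    h.sum_G_other hst hcb.symm (h.LS_G hst hab.symm) fun z hz => G_zero hz
  have e4 : H I s c b a = G I s a c b := by
    rw [H_symm, e2]
  rw [h2, h3, e3, e4, H_far hcb, G_self hcb, hst'] at h1
  have h4 : ((s : ℤ) + 1) ≠ 0 := by positivity
  have h5 : ∑ v, G I s a b v * H I s c b v = ((s : ℤ) ^ 3 - (s : ℤ) ^ 2) * G I s a c b +
      (s : ℤ) ^ 2 * ((s : ℤ) - 1) - (s : ℤ) ^ 2 * G I s a c b := by
    apply mul_left_cancel₀ h4
    linear_combination h1
  unfold M
  rw [e1, e2]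
  have h6 : ∑ v, H I s c b v * H I s a b v = ∑ v, G I s a b v * H I s c b v :=
    Finset.sum_congr rfl fun v _ => by rw [H_far hab]; ring
  rw [h6, h5]
  ring

/-- the trace of `M` -/
theorem GQ.M_trace (h : GQ I s t) (hst : s + t = s * s) (hs : 1 ≤ s) {a c : Pt}
    (hac : Far I a c) :
    ∑ b, M I s a c b b = (s : ℤ) ^ 5 * (((s : ℤ) - 1) * ((s : ℤ) - 2)) := by
  have h0 : ∑ b, M I s a c b b = ∑ b ∈ tr I a c, M I s a c b b := by
    symm
    refine Finset.sum_subset (Finset.subset_univ _) fun b _ hb => ?_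
    rw [mem_tr, not_and_or] at hb
    rcases hb with hb | hb
    · exact h.M_zero_a hst hs b hb
    · exact h.M_zero_c b hb
  have h1 : ∀ b ∈ tr I a c, M I s a c b b = (s : ℤ) ^ 2 * ((s : ℤ) - 1) +
      (s : ℤ) ^ 2 * ((s : ℤ) - 2) * G I s a c b - (s : ℤ) ^ 2 * (G I s a c b) ^ 2 := by
    intro b hb
    rw [mem_tr] at hb
    rw [h.M_diag hst hac hb.1 hb.2]
    ring
  have hcard : ((tr I a c).card : ℤ) + 1 + s * (t + 1) = (s : ℤ) ^ 2 * t + (t + 1) := by
    exact_mod_cast h.card_tr hac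
  have hst' : (t : ℤ) = s * s - s := by
    have : (s : ℤ) + t = s * s := by exact_mod_cast hst
    linarith
  rw [h0, Finset.sum_congr rfl h1, Finset.sum_sub_distrib, Finset.sum_add_distrib,
    Finset.sum_const, ← Finset.mul_sum, ← Finset.mul_sum, h.sum_tr_one hst hac,
    h.sum_tr_sq hst hac, nsmul_eq_mul]
  have h2 : ((tr I a c).card : ℤ) = (s : ℤ) ^ 2 * t + t - s * (t + 1) := by linarith
  rw [h2, hst']
  ring

/-- the trace of an idempotent rational matrix is a natural number -/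
theorem trace_idem {P : Type} [Fintype P] (N : Matrix P P ℚ) (hN : N * N = N) :
    ∃ r : ℕ, N.trace = (r : ℚ) := by
  have h1 : IsIdempotentElem (Matrix.toLin' N) := by
    unfold IsIdempotentElem
    rw [Module.End.mul_eq_comp, ← Matrix.toLin'_mul, hN]
  refine ⟨Module.finrank ℚ (LinearMap.range (Matrix.toLin' N)), ?_⟩
  have h2 := (LinearMap.IsIdempotentElem.isProj_range _ h1).trace
  rw [← h2]
  exact (Matrix.trace_toLin'_eq N).symm

/-- **No generalized quadrangle of order `(s, s^2 - s)`, `s ≥ 3`.** -/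
theorem GQ.no_extremal (h : GQ I s t) (hst : s + t = s * s) (hs : 3 ≤ s) (x : Pt) : False := by
  have ht : 1 ≤ t := by nlinarith
  obtain ⟨y, hy⟩ : (far I x).Nonempty := by
    rw [← Finset.card_pos, h.card_far x]
    positivity
  rw [mem_far] at hy
  have hs1 : 1 ≤ s := by omega
  have hs0 : (s : ℚ) ≠ 0 := by positivity
  let N : Matrix Pt Pt ℚ := fun u v => (M I s x y u v : ℚ) / (s : ℚ) ^ 6
  have hN : N * N = N := by
    ext u v
    rw [Matrix.mul_apply]
    have h1 := h.M_sq hst hs1 x y u v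
    have h2 : ∑ z, (M I s x y u z : ℚ) * (M I s x y z v : ℚ) =
        (s : ℚ) ^ 6 * (M I s x y u v : ℚ) := by exact_mod_cast h1
    have h3 : ∀ z, N u z * N z v =
        ((M I s x y u z : ℚ) * (M I s x y z v : ℚ)) / ((s : ℚ) ^ 6) ^ 2 := by
      intro z
      simp only [N]
      field_simp
    rw [Finset.sum_congr rfl fun z _ => h3 z, ← Finset.sum_div, h2]
    simp only [N]
    field_simp
  obtain ⟨r, hr⟩ := trace_idem N hN
  have h1 : N.trace = ((s : ℚ) ^ 5 * (((s : ℚ) - 1) * ((s : ℚ) - 2))) / (s : ℚ) ^ 6 := by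
    have h2 : (∑ b, (M I s x y b b : ℚ)) = (s : ℚ) ^ 5 * (((s : ℚ) - 1) * ((s : ℚ) - 2)) := by
      exact_mod_cast h.M_trace hst hs1 hy
    rw [← h2, Finset.sum_div]
    rfl
  rw [h1] at hr
  have h3 : (r : ℚ) * s = ((s : ℚ) - 1) * ((s : ℚ) - 2) := by
    rw [← hr]
    field_simp
  have h4 : (r : ℤ) * s = ((s : ℤ) - 1) * ((s : ℤ) - 2) := by exact_mod_cast h3
  have h5 : (s : ℤ) ∣ 2 := by
    refine ⟨(r : ℤ) - s + 3, ?_⟩
    linear_combination (-1) * h4
  have h6 := Int.le_of_dvd (by norm_num) h5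
  omega

end Pool.CCff5b
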