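import Pool.Agent.W_ccff5b_h54.IReal
import Pool.Agent.W_ccff5b_h54.Trace

/-!
The classical conditions: `t ≤ s^2`, `s + t ∣ s^2 (s t + 1)`, and their arithmetic consequence.
-/

set_option autoImplicit false

namespace Pool.CCff5b

open Finset
open scoped Classical

variable {Pt Ln : Type} [Fintype Pt] [Fintype Ln] {I : Pt → Ln → Prop} {s t : ℕ}

theorem GQ.card_all (h : GQ I s t) (x : Pt) : Fintype.card Pt = (s + 1) * (s * t + 1) := by
  have h1 := h.rsum_split (fun _ => (1 : ℕ)) x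
  simp only [Finset.sum_const, smul_eq_mul, mul_one, Finset.card_univ] at h1
  rw [h.card_nb x, h.card_far x] at h1
  rw [h1]
  ring

theorem GQ.F_sum_cns2_left (h : GQ I s t) {x y : Pt} (hxy : Far I x y) :
    ∑ w ∈ cns2 I x y, F I s w x = -((s : ℤ) * (t + 1)) := by
  have h1 : ∀ w ∈ cns2 I x y, F I s w x = -(s : ℤ) := by
    intro w hw
    rw [mem_cns2] at hw
    exact F_adj hw.1.symm
  rw [Finset.sum_congr rfl h1, Finset.sum_const, h.card_cns2 hxy, nsmul_eq_mul]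
  push_cast
  ring

theorem GQ.F_sum_cns2_right (h : GQ I s t) {x y : Pt} (hxy : Far I x y) :
    ∑ w ∈ cns2 I x y, F I s w y = -((s : ℤ) * (t + 1)) := by
  have h1 : ∀ w ∈ cns2 I x y, F I s w y = -(s : ℤ) := by
    intro w hw
    rw [mem_cns2] at hw
    exact F_adj hw.2.symm
  rw [Finset.sum_congr rfl h1, Finset.sum_const, h.card_cns2 hxy, nsmul_eq_mul]
  push_cast
  ring

theorem GQ.F_sum_cns2_mem (h : GQ I s t) {x y v : Pt} (hxy : Far I x y)
    (hv : v ∈ cns2 I x y) : ∑ w ∈ cns2 I x y, F I s w v = (s : ℤ) ^ 2 + t := by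
  rw [← Finset.add_sum_erase _ _ hv, F_self]
  have h1 : ∀ w ∈ (cns2 I x y).erase v, F I s w v = 1 := by
    intro w hw
    rw [Finset.mem_erase] at hw
    have hw2 := mem_cns2.1 hw.2
    have hv2 := mem_cns2.1 hv
    exact h.F_far (far_of_ne hw.1 (h.common_not_adj hxy hw2.1 hw2.2 hv2.1 hv2.2))
  rw [Finset.sum_congr rfl h1, Finset.sum_const, Finset.card_erase_of_mem hv, h.card_cns2 hxy,
    nsmul_eq_mul]
  push_cast
  ring

/-- Higman's inequality -/
theorem GQ.le_sq (h : GQ I s t) (hs : 2 ≤ s) (x : Pt) : t ≤ s ^ 2 := by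
  by_contra hcon
  push Not at hcon
  have ht : 1 ≤ t := by omega
  obtain ⟨y, hy⟩ : (far I x).Nonempty := by
    rw [← Finset.card_pos, h.card_far x]
    positivity
  rw [mem_far] at hy
  let D : Pt → ℤ := fun u => (s : ℤ) * (t + 1) * (F I s x u + F I s y u) +
    ((s : ℤ) ^ 2 + 1) * ∑ w ∈ cns2 I x y, F I s w u
  have hD : LS I D := by
    intro l
    simp only [D]
    rw [Finset.sum_add_distrib, ← Finset.mul_sum, ← Finset.mul_sum, Finset.sum_add_distrib,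
      h.LS_F x l, h.LS_F y l, Finset.sum_comm, Finset.sum_eq_zero fun w _ => h.LS_F w l]
    ring
  have hDx : D x = 0 := by
    simp only [D]
    rw [F_self, h.F_far hy.symm, h.F_sum_cns2_left hy]
    ring
  have hDy : D y = 0 := by
    simp only [D]
    rw [F_self, h.F_far hy, h.F_sum_cns2_right hy]
    ring
  have hDw : ∀ w ∈ cns2 I x y, D w = ((s : ℤ) ^ 2 - 1) * ((s : ℤ) ^ 2 - t) := by
    intro w hw
    simp only [D]
    have hw2 := mem_cns2.1 hw
    rw [F_adj hw2.1, F_adj hw2.2, h.F_sum_cns2_mem hy hw]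
    ring
  have h1 : ∑ u, D u * D u = ((s : ℤ) ^ 2 + 1) *
      (((s : ℤ) + 1) * ((s : ℤ) + t) * (((t : ℤ) + 1) * (((s : ℤ) ^ 2 - 1) * ((s : ℤ) ^ 2 - t)))) := by
    have e1 : ∀ u, D u * D u = (s : ℤ) * (t + 1) * (F I s x u * D u) +
        (s : ℤ) * (t + 1) * (F I s y u * D u) +
        ((s : ℤ) ^ 2 + 1) * ∑ w ∈ cns2 I x y, F I s w u * D u := by
      intro u
      rw [← Finset.sum_mul]
      conv_lhs => rw [show D u * D u = ((s : ℤ) * (t + 1) * (F I s x u + F I s y u) +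
        ((s : ℤ) ^ 2 + 1) * ∑ w ∈ cns2 I x y, F I s w u) * D u from rfl]
      ring
    rw [Finset.sum_congr rfl fun u _ => e1 u, Finset.sum_add_distrib, Finset.sum_add_distrib,
      ← Finset.mul_sum, ← Finset.mul_sum, ← Finset.mul_sum, h.sum_F_mul hD x, h.sum_F_mul hD y,
      hDx, hDy, Finset.sum_comm]
    have e2 : ∀ w ∈ cns2 I x y, ∑ u, F I s w u * D u =
        ((s : ℤ) + 1) * ((s : ℤ) + t) * (((s : ℤ) ^ 2 - 1) * ((s : ℤ) ^ 2 - t)) := by
      intro w hw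
      rw [h.sum_F_mul hD w, hDw w hw]
    rw [Finset.sum_congr rfl e2, Finset.sum_const, h.card_cns2 hy, nsmul_eq_mul]
    push_cast
    ring
  have h2 : 0 ≤ ∑ u, D u * D u := Finset.sum_nonneg fun u _ => mul_self_nonneg _
  rw [h1] at h2
  have h3 : (s : ℤ) ^ 2 - t < 0 := by
    have : ((s ^ 2 : ℕ) : ℤ) < t := by exact_mod_cast hcon
    push_cast at this
    linarith
  have h4 : (0 : ℤ) < (s : ℤ) ^ 2 - 1 := by
    have : (2 : ℤ) ≤ s := by exact_mod_cast hs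
    nlinarith
  have h5 : (0 : ℤ) < ((s : ℤ) ^ 2 + 1) * (((s : ℤ) + 1) * ((s : ℤ) + t) * (((t : ℤ) + 1) *
      ((s : ℤ) ^ 2 - 1))) := by positivity
  nlinarith

/-- the multiplicity is an integer -/
theorem GQ.dvd_mult (h : GQ I s t) (hs : 1 ≤ s) (x : Pt) : (s + t) ∣ s ^ 2 * (s * t + 1) := by
  have hM : (((s : ℚ) + 1) * ((s : ℚ) + t)) ≠ 0 := by positivity
  let N : Matrix Pt Pt ℚ := fun u v => (F I s u v : ℚ) / (((s : ℚ) + 1) * ((s : ℚ) + t))
  have hN : N * N = N := by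
    ext u v
    rw [Matrix.mul_apply]
    have h1 := h.sum_F_mul (h.LS_F v) u
    have h2 : ∑ z, (F I s u z : ℚ) * (F I s z v : ℚ) =
        ((s : ℚ) + 1) * ((s : ℚ) + t) * (F I s u v : ℚ) := by
      rw [h.F_symm u v]
      have h3 : (((∑ z, F I s u z * F I s v z : ℤ)) : ℚ) =
          ((((s : ℤ) + 1) * ((s : ℤ) + t) * F I s v u : ℤ) : ℚ) := by rw [h1]
      push_cast at h3
      rw [← h3]
      exact Finset.sum_congr rfl fun z _ => by rw [h.F_symm z v]
    have h3 : ∀ z, N u z * N z v =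
        ((F I s u z : ℚ) * (F I s z v : ℚ)) / (((s : ℚ) + 1) * ((s : ℚ) + t)) ^ 2 := by
      intro z
      simp only [N]
      field_simp
    rw [Finset.sum_congr rfl fun z _ => h3 z, ← Finset.sum_div, h2]
    simp only [N]
    field_simp
  obtain ⟨r, hr⟩ := trace_idem N hN
  have h1 : N.trace = (((s : ℚ) + 1) * (s * t + 1)) * ((s : ℚ) ^ 2 /
      (((s : ℚ) + 1) * ((s : ℚ) + t))) := by
    unfold Matrix.trace
    have h2 : ∀ u, Matrix.diag N u = (s : ℚ) ^ 2 / (((s : ℚ) + 1) * ((s : ℚ) + t)) := by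
      intro u
      show (F I s u u : ℚ) / (((s : ℚ) + 1) * ((s : ℚ) + t)) = _
      rw [F_self]
      push_cast
      rfl
    rw [Finset.sum_congr rfl fun u _ => h2 u, Finset.sum_const, Finset.card_univ, h.card_all x,
      nsmul_eq_mul]
    push_cast
    rfl
  rw [h1] at hr
  have h2 : (s : ℚ) ^ 2 * (s * t + 1) = (s + t) * r := by
    rw [← hr]
    have h3 : ((s : ℚ) + 1) ≠ 0 := by positivity
    have h4 : ((s : ℚ) + t) ≠ 0 := by positivity
    field_simp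
  exact ⟨r, by exact_mod_cast h2⟩

/-- arithmetic: `t ≤ s^2` and `s + t ∣ s^2 (s t + 1)` give `t = s^2`, `s^2 - s`, `s^2 - s - 1` or
`t ≤ s^2 - 2 s` -/
theorem arith_bound {s t : ℕ} (hs : 1 ≤ s) (h1 : t ≤ s ^ 2) (h2 : (s + t) ∣ s ^ 2 * (s * t + 1)) :
    t = s ^ 2 ∨ s + t = s * s ∨ s + t + 1 = s * s ∨ t + 2 * s ≤ s ^ 2 := by
  by_contra hcon
  push Not at hcon
  obtain ⟨hc1, hc2, hc3, hc4⟩ := hcon
  have hs' : (1 : ℤ) ≤ s := by exact_mod_cast hs
  have h1' : (t : ℤ) ≤ (s : ℤ) ^ 2 := by exact_mod_cast h1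
  have hc1' : (t : ℤ) ≠ (s : ℤ) ^ 2 := by exact_mod_cast hc1
  have hc2' : (s : ℤ) + t ≠ (s : ℤ) * s := by exact_mod_cast hc2
  have hc3' : (s : ℤ) + t + 1 ≠ (s : ℤ) * s := by exact_mod_cast hc3
  have hc4' : (s : ℤ) ^ 2 < t + 2 * s := by exact_mod_cast hc4
  have h2' : ((s : ℤ) + t) ∣ (s : ℤ) ^ 2 * (s * t + 1) := by exact_mod_cast h2
  -- `j = s^2 - s - t`, `-s < j < s`, `j ≠ 0, 1`
  obtain ⟨j, hj⟩ : ∃ j : ℤ, (t : ℤ) = (s : ℤ) ^ 2 - s - j := ⟨(s : ℤ) ^ 2 - s - t, by ring⟩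
  have h3 : ((s : ℤ) + t) ∣ j * (j - 1) := by
    have h4 : j * (j - 1) = ((s : ℤ) + t) * ((s - 1) * ((s : ℤ) + t) - j + 1 + j * (s - 1)) -
        (s : ℤ) ^ 2 * (s * t + 1) := by
      rw [hj]
      ring
    rw [h4]
    exact dvd_sub (dvd_mul_right _ _) h2'
  have hj0 : j ≠ 0 := by
    rintro rfl
    apply hc2'
    rw [hj]
    ring
  have hj1 : j ≠ 1 := by
    rintro rfl
    apply hc3'
    rw [hj]
    ring
  have hjl : -(s : ℤ) < j := by
    rcases lt_or_ge (-(s : ℤ)) j with h5 | h5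
    · exact h5
    · exact absurd (le_antisymm h1' (by rw [hj]; linarith)) hc1'
  have hju : j < s := by
    rw [hj] at hc4'
    linarith
  have hpos : 0 < j * (j - 1) := by
    rcases lt_or_ge j 0 with h5 | h5
    · nlinarith
    · have h6 : 2 ≤ j := by omega
      nlinarith
  have h5 := Int.le_of_dvd hpos h3
  rw [hj] at h5
  nlinarith

end Pool.CCff5b
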