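import Pool.Agent.W_ccff5b_h54.IAlg

set_option autoImplicit false

namespace Pool.CCff5b

open Finset
open scoped Classical

variable {Pt Ln : Type} [Fintype Pt] [Fintype Ln] {I : Pt → Ln → Prop} {s t : ℕ}

/-- **Task ICas (1).** `X = Q_x Q_y Q_x`; multiply `QQ_rel` on the left by `Q_x Q_y`. -/
theorem GQ.X_sq (h : GQ I s t) (hst : s + t + 1 = s * s) (hs : 2 ≤ s) {x y : Pt}
    (hxy : Far I x y) :
    ((s : ℝ) ^ 2) • ((Q I s x * Q I s y * Q I s x) * (Q I s x * Q I s y * Q I s x)) =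
      ((s : ℝ) ^ 2 - s + 1) • (Q I s x * Q I s y * Q I s x) +
        (s : ℝ) • ∑ w ∈ cns2 I x y, Q I s x * Q I s y * Q I s w * Q I s x := by
  have h1 := h.QQ_rel hst hs hxy
  have hx := h.Q_idem hst hs x
  have hy := h.Q_idem hst hs y
  have h2 := congrArg (fun M => Q I s x * Q I s y * M) h1
  simp only [mul_add, Matrix.mul_smul, Matrix.mul_sum] at h2
  have e1 : Q I s x * Q I s y * (Q I s y * Q I s x) = Q I s x * Q I s y * Q I s x := by
    rw [← mul_assoc, mul_assoc (Q I s x) (Q I s y) (Q I s y), hy]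
  have e2 : Q I s x * Q I s y * (Q I s x * Q I s y * Q I s x) =
      (Q I s x * Q I s y * Q I s x) * (Q I s x * Q I s y * Q I s x) := by
    have e3 : (Q I s x * Q I s y * Q I s x) * (Q I s x * Q I s y * Q I s x) =
        Q I s x * Q I s y * (Q I s x * Q I s x) * Q I s y * Q I s x := by
      simp only [mul_assoc]
    rw [e3, hx]
    simp only [mul_assoc]
  have e4 : ∀ w ∈ cns2 I x y, Q I s x * Q I s y * (Q I s w * Q I s x) =
      Q I s x * Q I s y * Q I s w * Q I s x := fun w _ => (mul_assoc _ _ _).symm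
  rw [e1, e2, Finset.sum_congr rfl e4] at h2
  have h3 : ((s : ℝ) ^ 2) • ((Q I s x * Q I s y * Q I s x) * (Q I s x * Q I s y * Q I s x)) =
      ((s : ℝ) ^ 2) • (Q I s x * Q I s y * Q I s x) +
        (s : ℝ) • ∑ w ∈ cns2 I x y, Q I s x * Q I s y * Q I s w * Q I s x -
        ((s : ℝ) - 1) • (Q I s x * Q I s y * Q I s x) := by
    rw [h2]
    abel
  rw [h3]
  module

/-- **Task ICas (2).** `y ↦ s Q_y(p,q) - Π(p,q)` has zero line sums (`sumQ_line`, `pts_card`) -/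
theorem GQ.RLS_Q (h : GQ I s t) (hst : s + t + 1 = s * s) (hs : 2 ≤ s) (p q : Pt) :
    RLS I (fun y => (s : ℝ) * Q I s y p q - PM I s p q) := by
  intro l
  have h1 := congrFun (congrFun (h.sumQ_line hst hs l) p) q
  rw [Matrix.sum_apply, Matrix.smul_apply, smul_eq_mul] at h1
  have hs0 : (s : ℝ) ≠ 0 := by
    have : 0 < s := by omega
    positivity
  simp only
  rw [Finset.sum_sub_distrib, ← Finset.mul_sum, h1, Finset.sum_const, h.pts_card, nsmul_eq_mul]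
  push_cast
  field_simp
  ring

/-- **Task ICas (3).** `rsum_nb_far` for (2); there are `s t` such points (`card_nb` minus the `s` points of
the line `wx` different from `w`). -/
theorem GQ.sumQ_nb_far (h : GQ I s t) (hst : s + t + 1 = s * s) (hs : 2 ≤ s) {x w : Pt}
    (hxw : Adj I x w) :
    (s : ℝ) • ∑ y ∈ univ.filter (fun z => Adj I w z ∧ Far I x z), Q I s y =
      (t : ℝ) • (((s : ℝ) + 1) • PM I s - (s : ℝ) • Q I s w) := by
  obtain ⟨hne, l, hxl, hwl⟩ := id hxw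
  have hc : (univ.filter (fun z => Adj I w z ∧ Far I x z)).card = s * t := by
    rw [← h.offs_eq hxl hwl hne]
    exact h.card_offs hwl
  ext p q
  have h1 := h.rsum_nb_far (h.RLS_Q hst hs p q) hxw
  rw [Finset.sum_sub_distrib, ← Finset.mul_sum, Finset.sum_const, hc, nsmul_eq_mul] at h1
  push_cast at h1
  simp only [Matrix.smul_apply, Matrix.sum_apply, Matrix.sub_apply, smul_eq_mul]
  linarith

/-- **Task ICas (4).** `rsum_far` for (2), `card_far` -/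
theorem GQ.sumQ_far (h : GQ I s t) (hst : s + t + 1 = s * s) (hs : 2 ≤ s) (x : Pt) :
    (s : ℝ) • ∑ y ∈ far I x, Q I s y =
      (t : ℝ) • (((s : ℝ) ^ 2 - 1) • PM I s + (s : ℝ) • Q I s x) := by
  ext p q
  have h1 := h.rsum_far (h.RLS_Q hst hs p q) x
  rw [Finset.sum_sub_distrib, ← Finset.mul_sum, Finset.sum_const, h.card_far, nsmul_eq_mul] at h1
  push_cast at h1
  simp only [Matrix.smul_apply, Matrix.sum_apply, Matrix.add_apply, smul_eq_mul]
  linarith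

/-- the sum of `Q_x Q_y Q_x` over the `y` far from `x` -/
theorem GQ.ICas_sumX (h : GQ I s t) (hst : s + t + 1 = s * s) (hs : 2 ≤ s) (x : Pt) :
    ∃ c : ℝ, ∑ y ∈ far I x, Q I s x * Q I s y * Q I s x = c • Q I s x := by
  have hs0 : (s : ℝ) ≠ 0 := by
    have : 0 < s := by omega
    positivity
  have h1 : ∑ y ∈ far I x, Q I s y =
      (1 / (s : ℝ)) • ((t : ℝ) • (((s : ℝ) ^ 2 - 1) • PM I s + (s : ℝ) • Q I s x)) := by
    rw [← h.sumQ_far hst hs x, smul_smul, one_div, inv_mul_cancel₀ hs0, one_smul]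
  have h2 : Q I s x * PM I s * Q I s x = Q I s x := by
    rw [h.Q_PM hst hs, h.Q_idem hst hs]
  have h3 : Q I s x * Q I s x * Q I s x = Q I s x := by
    rw [h.Q_idem hst hs, h.Q_idem hst hs]
  refine ⟨(1 / (s : ℝ)) * ((t : ℝ) * (((s : ℝ) ^ 2 - 1) + (s : ℝ))), ?_⟩
  rw [← Finset.sum_mul, ← Finset.mul_sum, h1]
  simp only [Matrix.mul_smul, Matrix.smul_mul, mul_add, add_mul, h2, h3, smul_add, smul_smul]
  module

/-- the sum of the squares -/
theorem GQ.ICas_sumX2 (h : GQ I s t) (hst : s + t + 1 = s * s) (hs : 2 ≤ s) (x : Pt) :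
    ∃ c : ℝ, ∑ y ∈ far I x, (Q I s x * Q I s y * Q I s x) * (Q I s x * Q I s y * Q I s x) =
      c • Q I s x := by
  have hs0 : (s : ℝ) ≠ 0 := by
    have : 0 < s := by omega
    positivity
  obtain ⟨a, ha⟩ := h.ICas_sumX hst hs x
  have h1 : ∀ w ∈ nb I x, ∑ y ∈ univ.filter (fun y => Adj I w y ∧ Far I x y),
      Q I s x * Q I s y * Q I s w * Q I s x =
      ((1 / (s : ℝ)) * ((t : ℝ) * (1 / (s : ℝ) ^ 2))) • Q I s x := by
    intro w hw
    have hxw : Adj I x w := mem_nb.1 hw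
    have h2 : ∑ y ∈ univ.filter (fun z => Adj I w z ∧ Far I x z), Q I s y =
        (1 / (s : ℝ)) • ((t : ℝ) • (((s : ℝ) + 1) • PM I s - (s : ℝ) • Q I s w)) := by
      rw [← h.sumQ_nb_far hst hs hxw, smul_smul, one_div, inv_mul_cancel₀ hs0, one_smul]
    have h3 : Q I s x * PM I s * Q I s w * Q I s x = (1 / (s : ℝ) ^ 2) • Q I s x := by
      rw [h.Q_PM hst hs, h.Q_abs_adj hst hs hxw]
    have h4 : Q I s x * Q I s w * Q I s w * Q I s x = (1 / (s : ℝ) ^ 2) • Q I s x := by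
      rw [mul_assoc (Q I s x) (Q I s w) (Q I s w), h.Q_idem hst hs, h.Q_abs_adj hst hs hxw]
    rw [← Finset.sum_mul, ← Finset.sum_mul, ← Finset.mul_sum, h2]
    simp only [Matrix.mul_smul, Matrix.smul_mul, mul_sub, sub_mul, h3, h4, smul_sub, smul_smul]
    module
  have h5 : ∑ y ∈ far I x, ∑ w ∈ cns2 I x y, Q I s x * Q I s y * Q I s w * Q I s x =
      (((nb I x).card : ℝ) * ((1 / (s : ℝ)) * ((t : ℝ) * (1 / (s : ℝ) ^ 2)))) • Q I s x := by
    rw [exch x (fun y w => Q I s x * Q I s y * Q I s w * Q I s x), Finset.sum_congr rfl h1,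
      Finset.sum_const, ← Nat.cast_smul_eq_nsmul ℝ, smul_smul]
  have h6 : ((s : ℝ) ^ 2) • ∑ y ∈ far I x,
      (Q I s x * Q I s y * Q I s x) * (Q I s x * Q I s y * Q I s x) =
      ((s : ℝ) ^ 2 - s + 1) • (a • Q I s x) + (s : ℝ) •
        ((((nb I x).card : ℝ) * ((1 / (s : ℝ)) * ((t : ℝ) * (1 / (s : ℝ) ^ 2)))) • Q I s x) := by
    rw [← ha, ← h5, Finset.smul_sum, Finset.smul_sum, Finset.smul_sum, ← Finset.sum_add_distrib]
    refine Finset.sum_congr rfl fun y hy => ?_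
    exact h.X_sq hst hs (mem_far.1 hy)
  have h7 : (s : ℝ) ^ 2 ≠ 0 := pow_ne_zero 2 hs0
  refine ⟨((s : ℝ) ^ 2)⁻¹ * (((s : ℝ) ^ 2 - s + 1) * a +
    (s : ℝ) * (((nb I x).card : ℝ) * ((1 / (s : ℝ)) * ((t : ℝ) * (1 / (s : ℝ) ^ 2))))), ?_⟩
  have h8 := congrArg (fun M => ((s : ℝ) ^ 2)⁻¹ • M) h6
  simp only [smul_smul, inv_mul_cancel₀ h7, one_smul] at h8
  rw [h8]
  module

/-- **Task ICas (5).** `A_x = Q_x`, `A_w = -Q_x/s` for `w ∼ x` (`Q_abs_adj`), and for `y` far from `x`,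
`A_y = (s X_y - Q_x)/(s-1)`; the sums of `X_y` and `X_y^2` over the `y` far from `x` are multiples of `Q_x`:
(4) multiplied by `Q_x` on both sides; (1), `exch`, (3) and `Q_abs_adj`. -/
theorem GQ.sum_AA_sq (h : GQ I s t) (hst : s + t + 1 = s * s) (hs : 2 ≤ s) (x : Pt) :
    ∃ σ : ℝ, ∑ u, AA I s x u * AA I s x u = σ • Q I s x := by
  have hs0 : (s : ℝ) ≠ 0 := by
    have : 0 < s := by omega
    positivity
  obtain ⟨a, ha⟩ := h.ICas_sumX hst hs x
  obtain ⟨b, hb⟩ := h.ICas_sumX2 hst hs x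
  have hx := h.Q_idem hst hs x
  obtain ⟨c0, hc0⟩ : ∃ c : ℝ, AA I s x x * AA I s x x = c • Q I s x := by
    refine ⟨(1 / ((s : ℝ) - 1)) * ((1 / ((s : ℝ) - 1)) * (((s : ℝ) - 1) * ((s : ℝ) - 1))), ?_⟩
    unfold AA
    rw [hx, hx]
    simp only [Matrix.mul_smul, Matrix.smul_mul, mul_sub, sub_mul, hx, smul_sub, smul_smul]
    module
  obtain ⟨c1, hc1⟩ : ∃ c : ℝ, ∀ w ∈ nb I x, AA I s x w * AA I s x w = c • Q I s x := by
    refine ⟨(1 / ((s : ℝ) - 1)) * ((1 / ((s : ℝ) - 1)) *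
      (((s : ℝ) * (1 / (s : ℝ) ^ 2) - 1) * ((s : ℝ) * (1 / (s : ℝ) ^ 2) - 1))), ?_⟩
    intro w hw
    unfold AA
    rw [h.Q_abs_adj hst hs (mem_nb.1 hw)]
    simp only [Matrix.mul_smul, Matrix.smul_mul, mul_sub, sub_mul, hx, smul_sub, smul_smul]
    module
  have h2 : ∀ y ∈ far I x, AA I s x y * AA I s x y =
      ((1 / ((s : ℝ) - 1)) * (1 / ((s : ℝ) - 1)) * ((s : ℝ) * (s : ℝ))) •
        ((Q I s x * Q I s y * Q I s x) * (Q I s x * Q I s y * Q I s x)) +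
      (-(2 * (1 / ((s : ℝ) - 1)) * (1 / ((s : ℝ) - 1)) * (s : ℝ))) •
        (Q I s x * Q I s y * Q I s x) +
      ((1 / ((s : ℝ) - 1)) * (1 / ((s : ℝ) - 1))) • Q I s x := by
    intro y _
    have e1 : Q I s x * (Q I s x * Q I s y * Q I s x) = Q I s x * Q I s y * Q I s x := by
      rw [← mul_assoc, ← mul_assoc, hx]
    have e2 : Q I s x * Q I s y * Q I s x * Q I s x = Q I s x * Q I s y * Q I s x := by
      rw [mul_assoc (Q I s x * Q I s y), hx]
    unfold AA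
    simp only [Matrix.mul_smul, Matrix.smul_mul, mul_sub, sub_mul, hx, e1, e2, smul_sub,
      smul_smul]
    module
  refine ⟨c0 + ((nb I x).card : ℝ) * c1 +
    ((1 / ((s : ℝ) - 1)) * (1 / ((s : ℝ) - 1)) * ((s : ℝ) * (s : ℝ)) * b +
      (-(2 * (1 / ((s : ℝ) - 1)) * (1 / ((s : ℝ) - 1)) * (s : ℝ))) * a +
      ((far I x).card : ℝ) * ((1 / ((s : ℝ) - 1)) * (1 / ((s : ℝ) - 1)))), ?_⟩
  have h3 : ∑ w ∈ nb I x, AA I s x w * AA I s x w = (((nb I x).card : ℝ) * c1) • Q I s x := by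
    rw [Finset.sum_congr rfl hc1, Finset.sum_const, ← Nat.cast_smul_eq_nsmul ℝ, smul_smul]
  have h4 : ∑ y ∈ far I x, AA I s x y * AA I s x y =
      ((1 / ((s : ℝ) - 1)) * (1 / ((s : ℝ) - 1)) * ((s : ℝ) * (s : ℝ))) • (b • Q I s x) +
      (-(2 * (1 / ((s : ℝ) - 1)) * (1 / ((s : ℝ) - 1)) * (s : ℝ))) • (a • Q I s x) +
      (((far I x).card : ℝ) * ((1 / ((s : ℝ) - 1)) * (1 / ((s : ℝ) - 1)))) • Q I s x := by
    rw [Finset.sum_congr rfl h2, Finset.sum_add_distrib, Finset.sum_add_distrib, ← ha, ← hb,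
      Finset.smul_sum, Finset.smul_sum, Finset.sum_const, ← Nat.cast_smul_eq_nsmul ℝ, smul_smul]
  rw [h.rsum_split (fun u => AA I s x u * AA I s x u) x, hc0, h3, h4]
  module

end Pool.CCff5b
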