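import Mathlib

set_option autoImplicit false

namespace Pool.CCff5b

open Finset Matrix

/-- **Task IProj (1).** Pseudoinverse of a real symmetric matrix `S`, commuting with everything that
commutes with `S`. Proof: spectral theorem (`Matrix.IsHermitian.spectral_theorem`) `S = U D Uᴴ`,
`G = U D⁻¹ Uᴴ` with `0⁻¹ = 0`. If `L S = S L` then `L' = Uᴴ L U` commutes with `D`, so
`L' i j (D j - D i) = 0`, so `L' i j (D j⁻¹ - D i⁻¹) = 0`, so `L'` commutes with `D⁻¹`. -/
theorem pinv {P : Type} [Fintype P] [DecidableEq P] (S : Matrix P P ℝ) (hS : Sᵀ = S) :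
    ∃ G : Matrix P P ℝ, Gᵀ = G ∧ S * G * S = S ∧ G * S * G = G ∧ G * S = S * G ∧
      ∀ L : Matrix P P ℝ, L * S = S * L → L * G = G * L := by
  have hsa : IsSelfAdjoint S := by
    rw [isSelfAdjoint_iff, Matrix.star_eq_conjTranspose, conjTranspose_eq_transpose_of_trivial, hS]
  have hfin : (spectrum ℝ S).Finite := Matrix.finite_real_spectrum
  have hc : ∀ f : ℝ → ℝ, ContinuousOn f (spectrum ℝ S) := fun f => hfin.continuousOn f
  have hid : cfc (fun x : ℝ => x) S = S := cfc_id' ℝ S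
  refine ⟨cfc (fun x : ℝ => x⁻¹) S, ?_, ?_, ?_, ?_, ?_⟩
  · have h1 : IsSelfAdjoint (cfc (fun x : ℝ => x⁻¹) S) := cfc_predicate _ _
    rw [isSelfAdjoint_iff, Matrix.star_eq_conjTranspose, conjTranspose_eq_transpose_of_trivial] at h1
    exact h1
  · have h1 : cfc (fun x : ℝ => x * x⁻¹ * x) S = cfc (fun x : ℝ => x) S * cfc (fun x : ℝ => x⁻¹) S *
        cfc (fun x : ℝ => x) S := by
      rw [← cfc_mul _ _ S (hc _) (hc _), ← cfc_mul _ _ S (hc _) (hc _)]
    have h2 : cfc (fun x : ℝ => x * x⁻¹ * x) S = S := by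
      have : (fun x : ℝ => x * x⁻¹ * x) = fun x => x := by
        funext x
        exact mul_inv_mul_cancel x
      rw [this, hid]
    rw [h2, hid] at h1
    exact h1.symm
  · have h1 : cfc (fun x : ℝ => x⁻¹ * x * x⁻¹) S = cfc (fun x : ℝ => x⁻¹) S *
        cfc (fun x : ℝ => x) S * cfc (fun x : ℝ => x⁻¹) S := by
      rw [← cfc_mul _ _ S (hc _) (hc _), ← cfc_mul _ _ S (hc _) (hc _)]
    have h2 : (fun x : ℝ => x⁻¹ * x * x⁻¹) = fun x => x⁻¹ := by
      funext x
      by_cases hx : x = 0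
      · simp [hx]
      · field_simp
    rw [h2, hid] at h1
    exact h1.symm
  · have h1 : Commute S S := Commute.refl S
    exact (h1.cfc_real _).eq
  · intro L hL
    have h1 : Commute S L := hL.symm
    exact (h1.cfc_real _).eq.symm

/-- the trace of a real idempotent matrix is a natural number (see `trace_idem` in Trace.lean) -/
theorem trace_idem_real {P : Type} [Fintype P] [DecidableEq P] (N : Matrix P P ℝ)
    (hN : N * N = N) : ∃ r : ℕ, N.trace = (r : ℝ) := by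
  have h1 : IsIdempotentElem (Matrix.toLin' N) := by
    unfold IsIdempotentElem
    rw [Module.End.mul_eq_comp, ← Matrix.toLin'_mul, hN]
  refine ⟨Module.finrank ℝ (LinearMap.range (Matrix.toLin' N)), ?_⟩
  have h2 := (LinearMap.IsIdempotentElem.isProj_range _ h1).trace
  rw [← h2]
  exact (Matrix.trace_toLin'_eq N).symm

theorem IProj_sq_nonneg {P : Type} [Fintype P] (A : Matrix P P ℝ) : 0 ≤ (Aᵀ * A).trace := by
  have h := Matrix.posSemidef_conjTranspose_mul_self A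
  rw [conjTranspose_eq_transpose_of_trivial] at h
  exact h.trace_nonneg

theorem IProj_sq_zero {P : Type} [Fintype P] (A : Matrix P P ℝ) (h : (Aᵀ * A).trace = 0) :
    A = 0 := by
  rw [← conjTranspose_eq_transpose_of_trivial] at h
  exact Matrix.trace_conjTranspose_mul_self_eq_zero_iff.mp h

theorem IProj_eq {P : Type} [Fintype P] [DecidableEq P] (L Q : Matrix P P ℝ) (hL : Lᵀ = L)
    (hQ : Qᵀ = Q) (hQQ : Q * Q = Q) (hc : L * Q = Q * L) :
    (L * L * Q).trace = ((L * Q)ᵀ * (L * Q)).trace := by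
  rw [transpose_mul, hL, hQ]
  have h1 : Q * L * (L * Q) = L * L * Q := by
    rw [← hc]
    calc L * Q * (L * Q) = L * (Q * L) * Q := by simp only [Matrix.mul_assoc]
      _ = L * (L * Q) * Q := by rw [hc]
      _ = L * L * (Q * Q) := by simp only [Matrix.mul_assoc]
      _ = L * L * Q := by rw [hQQ]
  rw [h1]

theorem IProj_nonneg {P : Type} [Fintype P] [DecidableEq P] (L Q : Matrix P P ℝ) (hL : Lᵀ = L)
    (hQ : Qᵀ = Q) (hQQ : Q * Q = Q) (hc : L * Q = Q * L) : 0 ≤ (L * L * Q).trace := by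
  rw [IProj_eq L Q hL hQ hQQ hc]
  exact IProj_sq_nonneg _

theorem IProj_zero {P : Type} [Fintype P] [DecidableEq P] (L Q : Matrix P P ℝ) (hL : Lᵀ = L)
    (hQ : Qᵀ = Q) (hQQ : Q * Q = Q) (hc : L * Q = Q * L) (h : (L * L * Q).trace = 0) :
    L * Q = 0 := by
  rw [IProj_eq L Q hL hQ hQQ hc] at h
  exact IProj_sq_zero _ h

/-- **Task IProj (2).** The trace argument. `L, Qx, Qy, R` real symmetric, `R, Qx, Qy` idempotent,
`R Qx = Qx`, `R Qy = Qy`, `R L = L`, `L` commutes with `Qx`, `Qy`,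
`s^2 Qy Qx Qy = Qy + (s^2-1) L Qy`, traces as given. Then `(L Qy)^2 = L Qy`.
Proof. `M = (1 - Qx) Qy`, `Mᵀ M = Qy - Qy Qx Qy = ((s^2-1)/s^2) S`, `S = Qy - L Qy`, `G` from `pinv`
for this `S`; `G` commutes with `L`, `Qy`. `PI = Qy - S G` is symmetric idempotent, `L PI = PI`
(`(Qy - L Qy) PI = S Qy - S S G = 0`), so `i = tr PI = tr (L PI) = tr (L^2 PI)` is a natural number
(`trace_idem_real`). `P2 = (s^2/(s^2-1)) M G Mᵀ` is symmetric idempotent, `Qx P2 = 0`, commutes with `L`,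
`tr (L^k P2) = tr (L^k S G) = tr (L^k (Qy - PI))` for `k = 1, 2`. `PW = R - Qx - P2` is symmetric
idempotent, commutes with `L`, `tr (PW L) = 0 - (s-1) - ((s-1) - i) = i - 2(s-1)`,
`tr (PW L^2) = s - (s-1) - ((s-1) - i) = i + 2 - s >= 0`. If `i = s - 2` then `PW L = 0` and
`i = 2 (s-1)`, impossible. So `i >= s - 1` (integers). `tr (L^2 (Qy - PI)) = (s-1) - i >= 0` as
`Qy - PI = S G` is a projection commuting with `L`. So `i = s-1` and `L (Qy - PI) = 0`,
`L Qy = L PI = PI`. -/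
theorem proj_abs {P : Type} [Fintype P] [DecidableEq P] (s : ℕ) (hs : 2 ≤ s)
    (L Qx Qy R : Matrix P P ℝ) (hL : Lᵀ = L) (hxs : Qxᵀ = Qx) (hys : Qyᵀ = Qy) (hRs : Rᵀ = R)
    (hx : Qx * Qx = Qx) (hy : Qy * Qy = Qy) (hR : R * R = R) (hRx : R * Qx = Qx)
    (hRy : R * Qy = Qy) (hRL : R * L = L) (hLx : L * Qx = Qx * L) (hLy : L * Qy = Qy * L)
    (hrel : ((s : ℝ) ^ 2) • (Qy * Qx * Qy) = Qy + ((s : ℝ) ^ 2 - 1) • (L * Qy))
    (t0 : L.trace = 0) (t1 : (L * L).trace = s) (tx1 : (L * Qx).trace = (s : ℝ) - 1)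
    (tx2 : (L * L * Qx).trace = (s : ℝ) - 1) (ty1 : (L * Qy).trace = (s : ℝ) - 1)
    (ty2 : (L * L * Qy).trace = (s : ℝ) - 1) :
    (L * Qy) * (L * Qy) = L * Qy := by
  have hs2 : (2 : ℝ) ≤ s := by exact_mod_cast hs
  have hs0 : (s : ℝ) ≠ 0 := by positivity
  have hsq : ((s : ℝ) ^ 2 - 1) ≠ 0 := by nlinarith
  obtain ⟨c, hc⟩ : ∃ c : ℝ, c = ((s : ℝ) ^ 2 - 1) / (s : ℝ) ^ 2 := ⟨_, rfl⟩
  have hc0 : c ≠ 0 := by
    rw [hc]
    exact div_ne_zero hsq (pow_ne_zero 2 hs0)
  -- the matrix S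
  obtain ⟨S, hS⟩ : ∃ S : Matrix P P ℝ, S = Qy - L * Qy := ⟨_, rfl⟩
  have hSs : Sᵀ = S := by
    rw [hS, transpose_sub, transpose_mul, hL, hys, hLy]
  have hLS : L * S = S * L := by
    rw [hS, mul_sub, sub_mul, hLy, Matrix.mul_assoc Qy L L, ← Matrix.mul_assoc L Qy L, hLy,
      Matrix.mul_assoc]
  have hyS : Qy * S = S := by
    rw [hS, mul_sub, hy, hLy, ← Matrix.mul_assoc, hy]
  have hSy : S * Qy = S := by
    rw [hS, sub_mul, hy, Matrix.mul_assoc, hy]
  obtain ⟨G, hGs, hSGS, hGSG, hGS, hGc⟩ := pinv S hSs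
  have hLG : L * G = G * L := hGc L hLS
  have hyG : Qy * G = G * Qy := hGc Qy (by rw [hyS, hSy])
  -- the projection E = S G
  obtain ⟨E, hE⟩ : ∃ E : Matrix P P ℝ, E = S * G := ⟨_, rfl⟩
  have hEs : Eᵀ = E := by rw [hE, transpose_mul, hSs, hGs, hGS]
  have hEE : E * E = E := by
    rw [hE, ← Matrix.mul_assoc, hSGS]
  have hyE : Qy * E = E := by rw [hE, ← Matrix.mul_assoc, hyS]
  have hEy : E * Qy = E := by rw [hE, Matrix.mul_assoc, ← hyG, ← Matrix.mul_assoc, hSy]
  have hLE : L * E = E * L := by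
    rw [hE, ← Matrix.mul_assoc, hLS, Matrix.mul_assoc, hLG, Matrix.mul_assoc]
  have hSE : S * E = S := by rw [hE, ← hGS, ← Matrix.mul_assoc, hSGS]
  -- the projection PI
  obtain ⟨F, hF⟩ : ∃ F : Matrix P P ℝ, F = Qy - E := ⟨_, rfl⟩
  have hFF : F * F = F := by
    rw [hF, mul_sub, sub_mul, sub_mul, hy, hEy, hyE, hEE]
    abel
  have hyF : Qy * F = F := by rw [hF, mul_sub, hy, hyE]
  have hLF : L * F = F := by
    have h1 : S * F = 0 := by rw [hF, mul_sub, hSy, hSE, sub_self]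
    have h2 : S * F = F - L * F := by
      rw [hS, sub_mul, Matrix.mul_assoc, hyF]
    rw [h1] at h2
    exact (sub_eq_zero.mp h2.symm).symm
  obtain ⟨i, hi⟩ := trace_idem_real F hFF
  have hQE : Qy = F + E := by rw [hF]; abel
  have tE1 : (L * E).trace = (s : ℝ) - 1 - i := by
    have h1 := ty1
    rw [hQE, mul_add, trace_add, hLF, hi] at h1
    linarith
  have tE2 : (L * L * E).trace = (s : ℝ) - 1 - i := by
    have h1 := ty2
    rw [hQE, mul_add, trace_add, Matrix.mul_assoc L L F, hLF, hLF, hi] at h1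
    linarith
  -- the matrix M
  obtain ⟨M, hM⟩ : ∃ M : Matrix P P ℝ, M = Qy - Qx * Qy := ⟨_, rfl⟩
  have hMt : Mᵀ = Qy - Qy * Qx := by
    rw [hM, transpose_sub, transpose_mul, hxs, hys]
  have hMM : Mᵀ * M = c • S := by
    have h1 : Mᵀ * M = Qy - Qy * Qx * Qy := by
      rw [hMt, hM, mul_sub, sub_mul, sub_mul, hy]
      have h2 : Qy * Qx * (Qx * Qy) = Qy * Qx * Qy := by
        rw [← Matrix.mul_assoc, Matrix.mul_assoc Qy Qx Qx, hx]
      have h3 : Qy * (Qx * Qy) = Qy * Qx * Qy := by rw [Matrix.mul_assoc]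
      rw [h2, h3]
      abel
    have h4 : Qy * Qx * Qy = ((s : ℝ) ^ 2)⁻¹ • (Qy + ((s : ℝ) ^ 2 - 1) • (L * Qy)) := by
      rw [← hrel, smul_smul, inv_mul_cancel₀ (pow_ne_zero 2 hs0), one_smul]
    rw [h1, h4, hS, hc]
    ext u v
    simp only [Matrix.sub_apply, Matrix.smul_apply, Matrix.add_apply, smul_eq_mul]
    field_simp
    ring
  have hxM : Qx * M = 0 := by
    rw [hM, mul_sub, ← Matrix.mul_assoc, hx, sub_self]
  have hMx : Mᵀ * Qx = 0 := by
    rw [hMt, sub_mul, Matrix.mul_assoc, hx, sub_self]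
  have hRM : R * M = M := by
    rw [hM, mul_sub, hRy, ← Matrix.mul_assoc, hRx]
  have hMR : Mᵀ * R = Mᵀ := by
    have h1 := congrArg transpose hRM
    rw [transpose_mul, hRs] at h1
    exact h1
  have hLM : L * M = M * L := by
    rw [hM, mul_sub, sub_mul, hLy, ← Matrix.mul_assoc, hLx, Matrix.mul_assoc, hLy,
      Matrix.mul_assoc]
  have hLMt : L * Mᵀ = Mᵀ * L := by
    have h1 := congrArg transpose hLM
    rw [transpose_mul, transpose_mul, hL] at h1
    exact h1.symm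
  -- the projection P2
  obtain ⟨B, hB⟩ : ∃ B : Matrix P P ℝ, B = c⁻¹ • (M * G * Mᵀ) := ⟨_, rfl⟩
  have hBs : Bᵀ = B := by
    rw [hB, transpose_smul, transpose_mul, transpose_mul, transpose_transpose, hGs,
      Matrix.mul_assoc]
  have hBB : B * B = B := by
    have h1 : (M * G * Mᵀ) * (M * G * Mᵀ) = c • (M * G * Mᵀ) := by
      calc (M * G * Mᵀ) * (M * G * Mᵀ) = M * (G * (Mᵀ * M) * G) * Mᵀ := by
            simp only [Matrix.mul_assoc]
        _ = M * (G * (c • S) * G) * Mᵀ := by rw [hMM]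
        _ = c • (M * (G * S * G) * Mᵀ) := by
            simp only [Matrix.mul_smul, Matrix.smul_mul]
        _ = c • (M * G * Mᵀ) := by rw [hGSG]
    rw [hB, Matrix.smul_mul, Matrix.mul_smul, h1, smul_smul, smul_smul, mul_assoc,
      inv_mul_cancel₀ hc0, mul_one]
  have hxB : Qx * B = 0 := by
    rw [hB, Matrix.mul_smul, ← Matrix.mul_assoc, ← Matrix.mul_assoc, hxM]
    simp
  have hBx : B * Qx = 0 := by
    rw [hB, Matrix.smul_mul, Matrix.mul_assoc, hMx]
    simp
  have hRB : R * B = B := by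
    rw [hB, Matrix.mul_smul, ← Matrix.mul_assoc, ← Matrix.mul_assoc, hRM]
  have hBR : B * R = B := by
    rw [hB, Matrix.smul_mul, Matrix.mul_assoc, hMR]
  have hLB : L * B = B * L := by
    rw [hB, Matrix.mul_smul, Matrix.smul_mul]
    congr 1
    calc L * (M * G * Mᵀ) = (L * M) * G * Mᵀ := by simp only [Matrix.mul_assoc]
      _ = M * (L * G) * Mᵀ := by rw [hLM]; simp only [Matrix.mul_assoc]
      _ = M * G * (L * Mᵀ) := by rw [hLG]; simp only [Matrix.mul_assoc]
      _ = M * G * Mᵀ * L := by rw [hLMt]; simp only [Matrix.mul_assoc]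
  have key : ∀ A : Matrix P P ℝ, A * M = M * A → (A * B).trace = (A * E).trace := by
    intro A hA
    have h1 : A * (M * G * Mᵀ) = M * (A * G * Mᵀ) := by
      calc A * (M * G * Mᵀ) = (A * M) * G * Mᵀ := by simp only [Matrix.mul_assoc]
        _ = M * (A * G * Mᵀ) := by rw [hA]; simp only [Matrix.mul_assoc]
    have h2 : (A * G * Mᵀ) * M = c • (A * E) := by
      rw [Matrix.mul_assoc, hMM, Matrix.mul_smul, Matrix.mul_assoc, hGS, hE]
    rw [hB, Matrix.mul_smul, h1, trace_smul, trace_mul_comm, h2, trace_smul, smul_smul,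
      inv_mul_cancel₀ hc0, one_smul]
  have tB1 : (L * B).trace = (s : ℝ) - 1 - i := by rw [key L hLM, tE1]
  have tB2 : (L * L * B).trace = (s : ℝ) - 1 - i := by
    rw [key (L * L) (by rw [Matrix.mul_assoc, hLM, ← Matrix.mul_assoc, hLM, Matrix.mul_assoc]), tE2]
  -- the projection PW
  have hxR : Qx * R = Qx := by
    have h1 := congrArg transpose hRx
    rw [transpose_mul, hRs, hxs] at h1
    exact h1
  have hLR : L * R = L := by
    have h1 := congrArg transpose hRL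
    rw [transpose_mul, hRs, hL] at h1
    exact h1
  obtain ⟨W, hW⟩ : ∃ W : Matrix P P ℝ, W = R - Qx - B := ⟨_, rfl⟩
  have hWs : Wᵀ = W := by rw [hW, transpose_sub, transpose_sub, hRs, hxs, hBs]
  have hWW : W * W = W := by
    rw [hW]
    simp only [mul_sub, sub_mul, hR, hRx, hRB, hxR, hx, hxB, hBR, hBx, hBB]
    abel
  have hLW : L * W = W * L := by
    rw [hW]
    simp only [mul_sub, sub_mul, hLR, hRL, hLx, hLB]
  have tW1 : (L * W).trace = (i : ℝ) - 2 * ((s : ℝ) - 1) := by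
    rw [hW, mul_sub, mul_sub, trace_sub, trace_sub, hLR, t0, tx1, tB1]
    ring
  have tW2 : (L * L * W).trace = (i : ℝ) + 2 - s := by
    rw [hW, mul_sub, mul_sub, trace_sub, trace_sub, Matrix.mul_assoc L L R, hLR, t1, tx2, tB2]
    ring
  have hn1 : 0 ≤ (i : ℝ) + 2 - s := by
    rw [← tW2]
    exact IProj_nonneg L W hL hWs hWW hLW
  have hn2 : 0 ≤ (s : ℝ) - 1 - i := by
    rw [← tE2]
    exact IProj_nonneg L E hL hEs hEE hLE
  have hne : (i : ℝ) + 2 - s ≠ 0 := by
    intro h0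
    have h1 : L * W = 0 := IProj_zero L W hL hWs hWW hLW (by rw [tW2, h0])
    rw [h1, trace_zero] at tW1
    linarith
  have hi1 : i + 1 = s := by
    have h1 : s ≤ i + 2 := by
      have : (s : ℝ) ≤ ((i + 2 : ℕ) : ℝ) := by push_cast; linarith
      exact_mod_cast this
    have h2 : s ≠ i + 2 := by
      intro h
      apply hne
      rw [h]
      push_cast
      ring
    have h3 : i + 1 ≤ s := by
      have : ((i + 1 : ℕ) : ℝ) ≤ (s : ℝ) := by push_cast; linarith
      exact_mod_cast this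
    omega
  have hi2 : (s : ℝ) - 1 - i = 0 := by
    rw [← hi1]
    push_cast
    ring
  have hLE0 : L * E = 0 := IProj_zero L E hL hEs hEE hLE (by rw [tE2, hi2])
  have hfin : L * Qy = F := by
    rw [hQE, mul_add, hLF, hLE0, add_zero]
  rw [hfin, hFF]

end Pool.CCff5b
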