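import Pool.Agent.W_ccff5b_h54.ITr
import Pool.Agent.W_ccff5b_h54.IProj

set_option autoImplicit false

namespace Pool.CCff5b

open Finset
open scoped Classical

variable {Pt Ln : Type} [Fintype Pt] [Fintype Ln] {I : Pt → Ln → Prop} {s t : ℕ}

/-- `P^x_y = Q_x L_xy`, the projection on `U_x ∩ U_y` -/
noncomputable def PP (I : Pt → Ln → Prop) (s : ℕ) (x y : Pt) : Matrix Pt Pt ℝ :=
  Q I s x * LL I s x y

theorem IComm_s (hs : 2 ≤ s) : ((s : ℝ) ^ 2 ≠ 0) ∧ ((s : ℝ) ^ 2 - 1 ≠ 0) := by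
  have h2 : (2 : ℝ) ≤ s := by exact_mod_cast hs
  constructor
  · positivity
  · nlinarith

/-- **Task IComm (1).** `proj_abs` for `L = LL I s y x`, `Qx := Q y`, `Qy := Q x`, `R = PM I s` -/
theorem GQ.PP_idem (h : GQ I s t) (hst : s + t + 1 = s * s) (hs : 2 ≤ s) {x y : Pt}
    (hxy : Far I x y) : PP I s x y * PP I s x y = PP I s x y := by
  have hyx := hxy.symm
  have hsw := h.LL_swap hst hs hxy
  have hc := h.LL_Q_comm hst hs hxy
  have key := proj_abs s hs (LL I s x y) (Q I s y) (Q I s x) (PM I s)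
    (h.LL_symm hst hs hxy) (h.Q_symm y) (h.Q_symm x) h.PM_symm
    (h.Q_idem hst hs y) (h.Q_idem hst hs x) (h.PM_idem hst hs) (h.PM_Q hst hs y) (h.PM_Q hst hs x)
    (h.PM_LL hst hs hxy) (by rw [hsw]; exact h.LL_Q_comm hst hs hyx) hc
    (by
      rw [hc, h.Q_LL hst hs hxy]
      abel)
    (h.LL_trace hst hs hxy) (h.LL_sq_trace hst hs hxy)
    (by rw [hsw]; exact h.LL_Q_trace hst hs hyx)
    (by rw [hsw]; exact h.LL_sq_Q_trace hst hs hyx)
    (h.LL_Q_trace hst hs hxy) (h.LL_sq_Q_trace hst hs hxy)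
  unfold PP
  rw [← hc]
  exact key

theorem GQ.PP_symm (h : GQ I s t) (hst : s + t + 1 = s * s) (hs : 2 ≤ s) {x y : Pt}
    (hxy : Far I x y) : (PP I s x y).transpose = PP I s x y := by
  unfold PP
  rw [Matrix.transpose_mul, h.LL_symm hst hs hxy, h.Q_symm x, h.LL_Q_comm hst hs hxy]

theorem GQ.Q_PP (h : GQ I s t) (hst : s + t + 1 = s * s) (hs : 2 ≤ s) {x y : Pt}
    (hxy : Far I x y) : Q I s x * PP I s x y = PP I s x y := by
  unfold PP
  rw [← Matrix.mul_assoc, h.Q_idem hst hs x]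

theorem GQ.IComm_PP_Q (h : GQ I s t) (hst : s + t + 1 = s * s) (hs : 2 ≤ s) {x y : Pt}
    (hxy : Far I x y) : PP I s x y * Q I s x = PP I s x y := by
  have h1 := congrArg Matrix.transpose (h.Q_PP hst hs hxy)
  rw [Matrix.transpose_mul, h.Q_symm x, h.PP_symm hst hs hxy] at h1
  exact h1

/-- `s^2 Q_x Q_y Q_x = Q_x + (s^2-1) P` (`Q_LL`) -/
theorem GQ.X_PP (h : GQ I s t) (hst : s + t + 1 = s * s) (hs : 2 ≤ s) {x y : Pt}
    (hxy : Far I x y) : ((s : ℝ) ^ 2) • (Q I s x * Q I s y * Q I s x) =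
      Q I s x + ((s : ℝ) ^ 2 - 1) • PP I s x y := by
  unfold PP
  rw [h.Q_LL hst hs hxy]
  abel

/-- `P Q_y P = P` by `X_PP` (`P Q_x = P`, `P P = P`), so `((1-Q_y)P)ᵀ ((1-Q_y)P) = 0`, `Q_y P = P`. -/
theorem GQ.Q_PP' (h : GQ I s t) (hst : s + t + 1 = s * s) (hs : 2 ≤ s) {x y : Pt}
    (hxy : Far I x y) : Q I s y * PP I s x y = PP I s x y := by
  obtain ⟨hs1, hs2⟩ := IComm_s hs
  have hX := h.X_PP hst hs hxy
  have hP := h.PP_idem hst hs hxy
  have hXP := h.Q_PP hst hs hxy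
  have hPX := h.IComm_PP_Q hst hs hxy
  have hPs := h.PP_symm hst hs hxy
  have hYs := h.Q_symm y
  have hYi := h.Q_idem hst hs y
  generalize PP I s x y = P at *
  generalize Q I s x = X at *
  generalize Q I s y = Y at *
  have h1 : P * Y * P = P := by
    have e1 : P * (((s : ℝ) ^ 2) • (X * Y * X)) * P = ((s : ℝ) ^ 2) • (P * Y * P) := by
      rw [Matrix.mul_smul, Matrix.smul_mul]
      congr 1
      calc P * (X * Y * X) * P = (P * X) * Y * (X * P) := by simp only [Matrix.mul_assoc]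
        _ = P * Y * P := by rw [hPX, hXP]
    have e2 : P * (X + ((s : ℝ) ^ 2 - 1) • P) * P = ((s : ℝ) ^ 2) • P := by
      rw [mul_add, add_mul, hPX, hP, Matrix.mul_smul, Matrix.smul_mul, hP, hP]
      rw [sub_smul, one_smul]
      abel
    rw [hX, e2] at e1
    have e3 := congrArg (fun Z => ((s : ℝ) ^ 2)⁻¹ • Z) e1
    simp only [smul_smul, inv_mul_cancel₀ hs1, one_smul] at e3
    exact e3.symm
  have h2 : (P - Y * P).transpose * (P - Y * P) = 0 := by
    rw [Matrix.transpose_sub, Matrix.transpose_mul, hPs, hYs, sub_mul, mul_sub, mul_sub, hP,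
      ← Matrix.mul_assoc, h1, ← Matrix.mul_assoc, Matrix.mul_assoc P Y Y, hYi, h1]
    abel
  have h3 : P - Y * P = 0 := IProj_sq_zero _ (by rw [h2, Matrix.trace_zero])
  exact (sub_eq_zero.mp h3).symm

/-- `P^x_y = P^y_x`: `L P^x_y = P^x_y` (`L` commutes with `Q_x`, `PP_idem`), so
`P^y_x P^x_y = Q_y L P^x_y = Q_y P^x_y = P^x_y`; the same with `x, y` exchanged; transpose. -/
theorem GQ.IComm_swap (h : GQ I s t) (hst : s + t + 1 = s * s) (hs : 2 ≤ s) {x y : Pt}
    (hxy : Far I x y) : PP I s y x * PP I s x y = PP I s x y := by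
  have hL : LL I s x y * PP I s x y = PP I s x y := by
    have h1 := h.PP_idem hst hs hxy
    unfold PP at h1 ⊢
    have h2 : Q I s x * LL I s x y * (Q I s x * LL I s x y) =
        LL I s x y * (Q I s x * LL I s x y) := by
      rw [← h.LL_Q_comm hst hs hxy]
      calc LL I s x y * Q I s x * (LL I s x y * Q I s x)
          = LL I s x y * (Q I s x * LL I s x y) * Q I s x := by simp only [Matrix.mul_assoc]
        _ = LL I s x y * (LL I s x y * Q I s x) * Q I s x := by rw [h.LL_Q_comm hst hs hxy]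
        _ = LL I s x y * (LL I s x y * (Q I s x * Q I s x)) := by simp only [Matrix.mul_assoc]
        _ = LL I s x y * (LL I s x y * Q I s x) := by rw [h.Q_idem hst hs x]
    rw [← h2, h1]
  have h3 : PP I s y x = Q I s y * LL I s x y := by
    unfold PP
    rw [h.LL_swap hst hs hxy]
  rw [h3, Matrix.mul_assoc, hL, h.Q_PP' hst hs hxy]

theorem GQ.PP_swap (h : GQ I s t) (hst : s + t + 1 = s * s) (hs : 2 ≤ s) {x y : Pt}
    (hxy : Far I x y) : PP I s x y = PP I s y x := by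
  have h1 := h.IComm_swap hst hs hxy
  have h2 := h.IComm_swap hst hs hxy.symm
  have h3 := congrArg Matrix.transpose h1
  rw [Matrix.transpose_mul, h.PP_symm hst hs hxy, h.PP_symm hst hs hxy.symm] at h3
  rw [← h3, h2]

/-- for `f ∈ U_x ∩ U_y`, `P f = f`: apply `X_PP` to `f` -/
theorem GQ.PP_of_InU (h : GQ I s t) (hst : s + t + 1 = s * s) (hs : 2 ≤ s) {x y : Pt}
    (hxy : Far I x y) {f : Pt → ℝ} (hf : InU I s x f) (hf' : InU I s y f) :
    (PP I s x y).mulVec f = f := by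
  obtain ⟨hs1, hs2⟩ := IComm_s hs
  have h1 := congrArg (fun Z => Matrix.mulVec Z f) (h.X_PP hst hs hxy)
  simp only [Matrix.smul_mulVec, Matrix.add_mulVec, ← Matrix.mulVec_mulVec,
    h.Q_mulVec hst hs hf, h.Q_mulVec hst hs hf'] at h1
  have h2 : ((s : ℝ) ^ 2 - 1) • (PP I s x y).mulVec f = ((s : ℝ) ^ 2 - 1) • f := by
    rw [sub_smul ((s : ℝ) ^ 2) 1 f, one_smul, h1]
    abel
  have h3 := congrArg (fun Z => ((s : ℝ) ^ 2 - 1)⁻¹ • Z) h2
  simp only [smul_smul, inv_mul_cancel₀ hs2, one_smul] at h3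
  exact h3

theorem GQ.PP_InU (h : GQ I s t) (hst : s + t + 1 = s * s) (hs : 2 ≤ s) {x y : Pt}
    (hxy : Far I x y) (g : Pt → ℝ) : InU I s x ((PP I s x y).mulVec g) := by
  unfold PP
  rw [← Matrix.mulVec_mulVec]
  exact h.Q_InU hst x _

theorem GQ.PP_InU' (h : GQ I s t) (hst : s + t + 1 = s * s) (hs : 2 ≤ s) {x y : Pt}
    (hxy : Far I x y) (g : Pt → ℝ) : InU I s y ((PP I s x y).mulVec g) := by
  rw [h.PP_swap hst hs hxy]
  exact h.PP_InU hst hs hxy.symm g

theorem GQ.IComm_far (h : GQ I s t) {l : Ln} {x w a : Pt}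
    (hx : ¬ I x l) (hw : I w l) (hxw : Adj I x w) (ha : a ∈ (pts I l).erase w) : Far I x a := by
  rw [Finset.mem_erase] at ha
  have hal : I a l := by
    have := ha.2
    simpa [pts] using this
  refine far_of_ne ?_ ?_
  · rintro rfl
    exact hx hal
  · intro hxa
    exact ha.1 (h.proj_unique hx hal hw hxa hxw)

/-- **Task IComm (2).** `∑_{a ∈ l - w} P^x_a = Q_x T(∑ E_xa) = Q_x T(F_x) = Q_x` (`LL_eq`, `T_sum`,
`sumE_line`, `Q_TF`; `x` is far from all `a ∈ l - w`). -/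
theorem GQ.sumPP_line (h : GQ I s t) (hst : s + t + 1 = s * s) (hs : 2 ≤ s) {l : Ln} {x w : Pt}
    (hx : ¬ I x l) (hw : I w l) (hxw : Adj I x w) :
    ∑ a ∈ (pts I l).erase w, PP I s x a = Q I s x := by
  have h1 : ∀ a ∈ (pts I l).erase w, PP I s x a =
      Q I s x * T I s (fun u => (E I s x a u : ℝ)) := by
    intro a ha
    unfold PP
    rw [h.LL_eq hst hs (h.IComm_far hx hw hxw ha)]
  rw [Finset.sum_congr rfl h1, ← Matrix.mul_sum, ← T_sum]
  have h2 : (fun u => ∑ a ∈ (pts I l).erase w, (E I s x a u : ℝ)) =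
      fun u => (F I s x u : ℝ) := by
    funext u
    have := h.sumE_line hst hx hw hxw u
    rw [← this]
    push_cast
    rfl
  rw [h2, h.Q_TF hst hs x]

/-- **Task IComm (3).** `u ∈ U_x ∩ U_y`, `v ∼ y`, `v` far from `x`: `P^x_v u = 0`.
`⟨u, Q_v u⟩ = ⟨u, Q_y Q_v Q_y u⟩ = |u|^2/s^2`, and by `X_PP` for `x, v` also
`⟨u, Q_v u⟩ = ⟨u, Q_x Q_v Q_x u⟩ = |u|^2/s^2 + (1 - 1/s^2) |P^x_v u|^2`. -/
theorem GQ.PP_vanish (h : GQ I s t) (hst : s + t + 1 = s * s) (hs : 2 ≤ s) {x y v : Pt}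
    (hxv : Far I x v) (hyv : Adj I y v) {u : Pt → ℝ} (hu : InU I s x u)
    (hu' : InU I s y u) : (PP I s x v).mulVec u = 0 := by
  obtain ⟨hs1, hs2⟩ := IComm_s hs
  have hxu := h.Q_mulVec hst hs hu
  have hyu := h.Q_mulVec hst hs hu'
  have hdot : ∀ (A V : Matrix Pt Pt ℝ), A.transpose = A → A.mulVec u = u →
      dotProduct u ((A * V * A).mulVec u) = dotProduct u (V.mulVec u) := by
    intro A V hA hAu
    rw [← Matrix.mulVec_mulVec, hAu, ← Matrix.mulVec_mulVec, Matrix.dotProduct_mulVec,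
      ← Matrix.mulVec_transpose, hA, hAu]
  have h1 : dotProduct u ((Q I s v).mulVec u) = (1 / (s : ℝ) ^ 2) * dotProduct u u := by
    rw [← hdot (Q I s y) (Q I s v) (h.Q_symm y) hyu, h.Q_abs_adj hst hs hyv, Matrix.smul_mulVec,
      hyu, dotProduct_smul, smul_eq_mul]
  have h2 : ((s : ℝ) ^ 2) * dotProduct u ((Q I s v).mulVec u) =
      dotProduct u u + ((s : ℝ) ^ 2 - 1) * dotProduct u ((PP I s x v).mulVec u) := by
    have h3 := congrArg (fun Z => dotProduct u (Matrix.mulVec Z u)) (h.X_PP hst hs hxv)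
    simp only [Matrix.smul_mulVec, Matrix.add_mulVec, dotProduct_add, dotProduct_smul,
      smul_eq_mul] at h3
    rw [hdot (Q I s x) (Q I s v) (h.Q_symm x) hxu, hxu] at h3
    exact h3
  have h4 : dotProduct u ((PP I s x v).mulVec u) = 0 := by
    rw [h1] at h2
    have h5 : (s : ℝ) ^ 2 * ((1 / (s : ℝ) ^ 2) * dotProduct u u) = dotProduct u u := by
      field_simp
    rw [h5] at h2
    have h6 : ((s : ℝ) ^ 2 - 1) * dotProduct u ((PP I s x v).mulVec u) = 0 := by linarith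
    exact (mul_eq_zero.mp h6).resolve_left hs2
  have h7 : dotProduct ((PP I s x v).mulVec u) ((PP I s x v).mulVec u) = 0 := by
    rw [← h4]
    conv_rhs => rw [← h.PP_idem hst hs hxv, ← Matrix.mulVec_mulVec, Matrix.dotProduct_mulVec,
      ← Matrix.mulVec_transpose, h.PP_symm hst hs hxv]
  exact dotProduct_self_eq_zero.mp h7

theorem IComm_sub {I : Pt → Ln → Prop} {a : Pt} {f g : Pt → ℝ} (hf : InU I s a f)
    (hg : InU I s a g) : InU I s a (f - g) := by
  refine ⟨fun l => ?_, fun w hw => ?_⟩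
  · simp only [Pi.sub_apply, Finset.sum_sub_distrib]
    rw [hf.1 l, hg.1 l, sub_zero]
  · simp only [Pi.sub_apply]
    have h1 := hf.2 w hw
    have h2 := hg.2 w hw
    rw [mul_sub, h1, h2]
    ring

theorem IComm_zero {I : Pt → Ln → Prop} {a : Pt} : InU I s a (0 : Pt → ℝ) := by
  refine ⟨fun l => ?_, fun w hw => ?_⟩
  · simp
  · simp

/-- **Task IComm (4).** `x, y, z` pairwise far, `u ∈ U_x ∩ U_y`: `P^x_z u = P^y_z u`.
`l` a line through `z`, `w`, `v` its points collinear with `x`, `y` (`≠ z`). For `a ∈ l - v` put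
`d_a = (if a = w then 0 else P^x_a u) - P^y_a u ∈ U_a`. `∑_{a ∈ l - v} d_a = u - u = 0`: by `sumPP_line` for `y`,
and for `x` (if `w ≠ v` then `P^x_v u = 0` by `PP_vanish`). `Q_uniq` gives `d_z = 0`. -/
theorem GQ.PP_agree (h : GQ I s t) (hst : s + t + 1 = s * s) (hs : 2 ≤ s) {x y z : Pt}
    (hxy : Far I x y) (hxz : Far I x z) (hyz : Far I y z) {u : Pt → ℝ} (hu : InU I s x u)
    (hu' : InU I s y u) : (PP I s x z).mulVec u = (PP I s y z).mulVec u := by
  obtain ⟨l, hzl⟩ := h.exists_line z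
  have hxl : ¬ I x l := fun hx => hxz l hx hzl
  have hyl : ¬ I y l := fun hy => hyz l hy hzl
  obtain ⟨w, hwl, hxw⟩ := h.exists_proj hxl
  obtain ⟨v, hvl, hyv⟩ := h.exists_proj hyl
  have hzw : z ≠ w := by
    rintro rfl
    exact hxz.not_adj hxw
  have hzv : z ≠ v := by
    rintro rfl
    exact hyz.not_adj hyv
  have mem : ∀ {a : Pt}, I a l → a ∈ pts I l := fun {a} ha => by simp [pts, ha]
  have hxsum : ∑ a ∈ (pts I l).erase w, (PP I s x a).mulVec u = u := by
    have h1 := congrArg (fun Z => Matrix.mulVec Z u) (h.sumPP_line hst hs hxl hwl hxw)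
    simp only [Matrix.sum_mulVec] at h1
    rw [h1, h.Q_mulVec hst hs hu]
  have hysum : ∑ a ∈ (pts I l).erase v, (PP I s y a).mulVec u = u := by
    have h1 := congrArg (fun Z => Matrix.mulVec Z u) (h.sumPP_line hst hs hyl hvl hyv)
    simp only [Matrix.sum_mulVec] at h1
    rw [h1, h.Q_mulVec hst hs hu']
  have hxsum' : ∑ a ∈ (pts I l).erase v, (if a = w then (0 : Pt → ℝ) else
      (PP I s x a).mulVec u) = u := by
    have e0 : ∀ S : Finset Pt, ∑ a ∈ S, (if a = w then (0 : Pt → ℝ) else (PP I s x a).mulVec u) =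
        ∑ a ∈ S.erase w, (PP I s x a).mulVec u := by
      intro S
      rw [← Finset.sum_erase S (a := w) (f := fun a => if a = w then (0 : Pt → ℝ) else
        (PP I s x a).mulVec u) (by simp)]
      refine Finset.sum_congr rfl fun a ha => ?_
      rw [if_neg (Finset.ne_of_mem_erase ha)]
    rw [e0]
    by_cases hwv : w = v
    · subst hwv
      rw [Finset.erase_idem]
      exact hxsum
    · have hvm : v ∈ (pts I l).erase w := Finset.mem_erase.2 ⟨fun h => hwv h.symm, mem hvl⟩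
      have hfar : Far I x v := h.IComm_far hxl hwl hxw hvm
      have h0 : (PP I s x v).mulVec u = 0 := h.PP_vanish hst hs hfar hyv hu hu'
      rw [Finset.erase_right_comm]
      have h9 : ∑ a ∈ ((pts I l).erase w).erase v, (PP I s x a).mulVec u =
          ∑ a ∈ (pts I l).erase w, (PP I s x a).mulVec u :=
        Finset.sum_erase _ (f := fun a => (PP I s x a).mulVec u) h0
      rw [h9]
      exact hxsum
  have key := h.Q_uniq hst hs hvl (fun a => (if a = w then (0 : Pt → ℝ) else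
      (PP I s x a).mulVec u) - (PP I s y a).mulVec u) ?_ ?_ z
      (Finset.mem_erase.2 ⟨hzv, mem hzl⟩)
  · simp only [if_neg hzw] at key
    exact sub_eq_zero.mp key
  · intro a ha
    have hya : Far I y a := h.IComm_far hyl hvl hyv ha
    refine IComm_sub ?_ (h.PP_InU' hst hs hya u)
    by_cases haw : a = w
    · simp only [if_pos haw]
      exact IComm_zero
    · simp only [if_neg haw]
      have hxa : Far I x a :=
        h.IComm_far hxl hwl hxw (Finset.mem_erase.2 ⟨haw, Finset.mem_of_mem_erase ha⟩)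
      exact h.PP_InU' hst hs hxa u
  · rw [Finset.sum_sub_distrib, hxsum', hysum, sub_self]

theorem GQ.IComm_PRP (h : GQ I s t) (hst : s + t + 1 = s * s) (hs : 2 ≤ s) {x y z : Pt}
    (hxy : Far I x y) (hxz : Far I x z) (hyz : Far I y z) :
    PP I s x y * (PP I s x z * PP I s x y) = PP I s x z * PP I s x y := by
  have h1 : ∀ g : Pt → ℝ, (PP I s x y * (PP I s x z * PP I s x y)).mulVec g =
      (PP I s x z * PP I s x y).mulVec g := by
    intro g
    rw [← Matrix.mulVec_mulVec, ← Matrix.mulVec_mulVec]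
    have hx := h.PP_InU hst hs hxy g
    have hy := h.PP_InU' hst hs hxy g
    have e := h.PP_agree hst hs hxy hxz hyz hx hy
    refine h.PP_of_InU hst hs hxy (h.PP_InU hst hs hxz _) ?_
    rw [e]
    exact h.PP_InU hst hs hyz _
  ext a b
  have h2 := congrFun (h1 (Pi.single b 1)) a
  simpa using h2

/-- **Task IComm (5).** By `PP_agree`, `P^x_z u ∈ U_x ∩ U_y` for `u ∈ U_x ∩ U_y`, so
`P^x_y P^x_z P^x_y = P^x_z P^x_y`; transpose. -/
theorem GQ.PP_comm (h : GQ I s t) (hst : s + t + 1 = s * s) (hs : 2 ≤ s) {x y z : Pt}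
    (hxy : Far I x y) (hxz : Far I x z) (hyz : Far I y z) :
    PP I s x y * PP I s x z = PP I s x z * PP I s x y := by
  have h1 := h.IComm_PRP hst hs hxy hxz hyz
  have h2 := congrArg Matrix.transpose h1
  rw [Matrix.transpose_mul, Matrix.transpose_mul, h.PP_symm hst hs hxy, h.PP_symm hst hs hxz,
    Matrix.mul_assoc, h1] at h2
  exact h2.symm

end Pool.CCff5b
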