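import Pool.Agent.W_ccff5b_h86.Moments

/-!
# Generalized quadrangles of order `(s, s^2-s-1)`: definitions (MP_ccff5b_co, helper54, proofs row 201)

Everywhere below `h : GQ I s t`, `hst : s + t + 1 = s * s`, `hs : 2 ≤ s`.
-/

set_option autoImplicit false

namespace Pool.CCff5b

open Finset
open scoped Classical

variable {Pt Ln : Type} [Fintype Pt] [Fintype Ln]

/-- `E_xy`: `s` at `x` and `y`, `-1` on the other points collinear with `x` or `y`,
`s - #(common neighbours of x, y, u)` elsewhere. Used for `x` far from `y`. -/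
noncomputable def E (I : Pt → Ln → Prop) (s : ℕ) (x y u : Pt) : ℤ :=
  if u = x ∨ u = y then (s : ℤ) else if Adj I x u ∨ Adj I y u then -1 else (s : ℤ) - cn I x y u

/-- `μ = (s+1)^2 (s-1)` -/
noncomputable def mu (s : ℕ) : ℝ := ((s : ℝ) + 1) ^ 2 * ((s : ℝ) - 1)

/-- real functions with zero line sums -/
def RLS (I : Pt → Ln → Prop) (f : Pt → ℝ) : Prop := ∀ l, ∑ z ∈ pts I l, f z = 0

/-- membership in `U_x` -/
def InU (I : Pt → Ln → Prop) (s : ℕ) (x : Pt) (f : Pt → ℝ) : Prop :=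
  RLS I f ∧ ∀ w, Adj I x w → (s : ℝ) * f w = -f x

/-- the projection on the functions with zero line sums -/
noncomputable def PM (I : Pt → Ln → Prop) (s : ℕ) : Matrix Pt Pt ℝ :=
  fun x y => (F I s x y : ℝ) / mu s

/-- the kernel `b_x(y,z)` -/
noncomputable def B (I : Pt → Ln → Prop) (s : ℕ) (x y z : Pt) : ℝ :=
  if y = x then (s : ℝ) * (F I s x z : ℝ) else if Adj I x y then -(F I s x z : ℝ)
  else ((s : ℝ) + 1) * (E I s x y z : ℝ) - (F I s x z : ℝ)

/-- the projection on `U_x` -/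
noncomputable def Q (I : Pt → Ln → Prop) (s : ℕ) (x : Pt) : Matrix Pt Pt ℝ :=
  fun y z => B I s x y z / ((s : ℝ) * mu s)

/-- `Λ_a = (s Q_a - Π)/(s-1)` (multiplication by `F_a`, compressed to `LS`) -/
noncomputable def Lam (I : Pt → Ln → Prop) (s : ℕ) (a : Pt) : Matrix Pt Pt ℝ :=
  (1 / ((s : ℝ) - 1)) • ((s : ℝ) • Q I s a - PM I s)

/-- `L_xy = (s Λ_x + s Λ_y + ∑_w Λ_w)/(s+1)`, `w` the common neighbours of `x`, `y`
(multiplication by `E_xy`, compressed to `LS`) -/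
noncomputable def LL (I : Pt → Ln → Prop) (s : ℕ) (x y : Pt) : Matrix Pt Pt ℝ :=
  (1 / ((s : ℝ) + 1)) •
    ((s : ℝ) • Lam I s x + (s : ℝ) • Lam I s y + ∑ w ∈ cns2 I x y, Lam I s w)

/-- `A_u = (s Q_x Q_u Q_x - Q_x)/(s-1)` -/
noncomputable def AA (I : Pt → Ln → Prop) (s : ℕ) (x u : Pt) : Matrix Pt Pt ℝ :=
  (1 / ((s : ℝ) - 1)) • ((s : ℝ) • (Q I s x * Q I s u * Q I s x) - Q I s x)

end Pool.CCff5b
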