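import Pool.Agent.W_ccff5b_h54.IB

set_option autoImplicit false

namespace Pool.CCff5b

open Finset
open scoped Classical

variable {Pt Ln : Type} [Fintype Pt] [Fintype Ln] {I : Pt → Ln → Prop} {s t : ℕ}

/-- **Task IKer (1).** For a kernel `K` with zero line sums in each variable
`s ∑_y ∑_z Q_x(y,z) K(y,z) = (s + s t + 1) K(x,x) + s ∑_{u far x} K(u,u) - t ∑_{u ∼ x} K(u,u)`.
Proof: `∑_z Q_x(y,z) K(y,z) = (1/s) (s K(x,x) | -K(y,x) (y ∼ x) | (s-1) K(y,x) + s K(y,y) + ∑_w K(y,w))` by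
`GQ.B_act` for `f = K y`; then sum over `y` with `rsum_split`, `rsum_nb`, `rsum_far` (for `y ↦ K(y,x)`),
`exch` and `rsum_nb_far` (for `y ↦ K(y,w)`, `w ∼ x`). -/
theorem GQ.Q_kernel' (h : GQ I s t) (hst : s + t + 1 = s * s) (hs : 2 ≤ s) (x : Pt)
    {K : Pt → Pt → ℝ} (h1 : ∀ y, RLS I (K y)) (h2 : ∀ z, RLS I (fun y => K y z)) :
    (s : ℝ) * ∑ y, ∑ z, Q I s x y z * K y z =
      ((s : ℝ) + s * t + 1) * K x x + (s : ℝ) * ∑ u ∈ far I x, K u u
        - (t : ℝ) * ∑ u ∈ nb I x, K u u := by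
  have hmu : mu s ≠ 0 := (mu_pos hs).ne'
  have hs0 : (s : ℝ) ≠ 0 := by
    have : 0 < s := by omega
    positivity
  have e1 : ∀ y, (s : ℝ) * ∑ z, Q I s x y z * K y z =
      if y = x then (s : ℝ) * K y x else if Adj I x y then -K y x
      else ((s : ℝ) - 1) * K y x + (s : ℝ) * K y y + ∑ w ∈ cns2 I x y, K y w := by
    intro y
    have e2 := h.B_act hst x y (h1 y)
    have e3 : (s : ℝ) * ∑ z, Q I s x y z * K y z = (∑ z, B I s x y z * K y z) / mu s := by
      rw [Finset.mul_sum, Finset.sum_div]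
      refine Finset.sum_congr rfl fun z _ => ?_
      unfold Q
      field_simp
    rw [e3, e2, mul_div_cancel_left₀ _ hmu]
  rw [Finset.mul_sum, Finset.sum_congr rfl (fun y _ => e1 y), h.rsum_split _ x, if_pos rfl]
  have e4 : ∑ y ∈ nb I x, (if y = x then (s : ℝ) * K y x else if Adj I x y then -K y x
      else ((s : ℝ) - 1) * K y x + (s : ℝ) * K y y + ∑ w ∈ cns2 I x y, K y w) =
      ((t : ℝ) + 1) * K x x := by
    have e5 : ∀ y ∈ nb I x, (if y = x then (s : ℝ) * K y x else if Adj I x y then -K y x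
        else ((s : ℝ) - 1) * K y x + (s : ℝ) * K y y + ∑ w ∈ cns2 I x y, K y w) = -K y x := by
      intro y hy
      have hy' := mem_nb.1 hy
      rw [if_neg hy'.ne.symm, if_pos hy']
    have e6 := h.rsum_nb (h2 x) x
    rw [Finset.sum_congr rfl e5, Finset.sum_neg_distrib, e6]
    ring
  have e7 : ∑ y ∈ far I x, (if y = x then (s : ℝ) * K y x else if Adj I x y then -K y x
      else ((s : ℝ) - 1) * K y x + (s : ℝ) * K y y + ∑ w ∈ cns2 I x y, K y w) =
      ((s : ℝ) - 1) * ((t : ℝ) * K x x) + (s : ℝ) * ∑ u ∈ far I x, K u u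
        - (t : ℝ) * ∑ u ∈ nb I x, K u u := by
    have e5 : ∀ y ∈ far I x, (if y = x then (s : ℝ) * K y x else if Adj I x y then -K y x
        else ((s : ℝ) - 1) * K y x + (s : ℝ) * K y y + ∑ w ∈ cns2 I x y, K y w) =
        ((s : ℝ) - 1) * K y x + (s : ℝ) * K y y + ∑ w ∈ cns2 I x y, K y w := by
      intro y hy
      have hy' := mem_far.1 hy
      rw [if_neg (h.far_ne hy').symm, if_neg hy'.not_adj]
    have e6 := h.rsum_far (h2 x) x
    have e8 : ∑ y ∈ far I x, ∑ w ∈ cns2 I x y, K y w = -(t : ℝ) * ∑ u ∈ nb I x, K u u := by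
      rw [exch x (fun y w => K y w), Finset.mul_sum]
      refine Finset.sum_congr rfl fun w hw => ?_
      exact h.rsum_nb_far (h2 w) (mem_nb.1 hw)
    rw [Finset.sum_congr rfl e5, Finset.sum_add_distrib, Finset.sum_add_distrib, e8,
      ← Finset.mul_sum, ← Finset.mul_sum, e6]
    ring
  rw [e4, e7]
  ring

/-- **Task IKer (2).** The same with `F_x`: `t = s^2 - s - 1` (`rsum_split`, values of `F_x`). -/
theorem GQ.Q_kernel (h : GQ I s t) (hst : s + t + 1 = s * s) (hs : 2 ≤ s) (x : Pt)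
    {K : Pt → Pt → ℝ} (h1 : ∀ y, RLS I (K y)) (h2 : ∀ z, RLS I (fun y => K y z)) :
    (s : ℝ) * ∑ y, ∑ z, Q I s x y z * K y z =
      ∑ u, K u u + ((s : ℝ) - 1) * ∑ u, (F I s x u : ℝ) * K u u := by
  have ht : (t : ℝ) = (s : ℝ) * s - s - 1 := by
    have h3 : (s : ℝ) + t + 1 = s * s := by exact_mod_cast hst
    linarith
  have e1 : ∑ u ∈ nb I x, (F I s x u : ℝ) * K u u = -(s : ℝ) * ∑ u ∈ nb I x, K u u := by
    rw [Finset.mul_sum]
    refine Finset.sum_congr rfl fun u hu => ?_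
    rw [F_adj (mem_nb.1 hu)]
    push_cast
    ring
  have e2 : ∑ u ∈ far I x, (F I s x u : ℝ) * K u u = ∑ u ∈ far I x, K u u := by
    refine Finset.sum_congr rfl fun u hu => ?_
    rw [h.F_far (mem_far.1 hu)]
    push_cast
    ring
  rw [h.Q_kernel' hst hs x h1 h2, h.rsum_split (fun u => K u u) x,
    h.rsum_split (fun u => (F I s x u : ℝ) * K u u) x, e1, e2, F_self, ht]
  push_cast
  ring

end Pool.CCff5b
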