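import Pool.Agent.W_ccff5b_h54.IDefs

set_option autoImplicit false

namespace Pool.CCff5b

open Finset
open scoped Classical

variable {Pt Ln : Type} [Fintype Pt] [Fintype Ln] {I : Pt → Ln → Prop} {s t : ℕ}

/-- **Task IReal (1)-(4).** Real versions of `GQ.sum_nb`, `GQ.sum_univ`, `GQ.LS_F`, `GQ.sum_F_mul` in
`W_ccff5b_h86/SumA.lean`: copy the proofs with `ℝ` instead of `ℤ`. -/
theorem GQ.rsum_nb (h : GQ I s t) {f : Pt → ℝ} (hf : RLS I f) (y : Pt) :
    ∑ z ∈ nb I y, f z = -((t : ℝ) + 1) * f y := by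
  have h1 : nb I y = (lns I y).biUnion (fun l => (pts I l).erase y) := by
    ext z
    simp only [mem_nb, Finset.mem_biUnion, mem_lns, Finset.mem_erase, mem_pts]
    constructor
    · rintro ⟨hne, l, hy, hz⟩
      exact ⟨l, hy, hne.symm, hz⟩
    · rintro ⟨l, hy, hne, hz⟩
      exact ⟨hne.symm, l, hy, hz⟩
  rw [h1, Finset.sum_biUnion]
  · have h2 : ∀ l ∈ lns I y, ∑ z ∈ (pts I l).erase y, f z = -f y := by
      intro l hl
      have hy : y ∈ pts I l := mem_pts.2 (mem_lns.1 hl)
      have h3 := Finset.add_sum_erase (pts I l) f hy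
      rw [hf l] at h3
      linarith
    rw [Finset.sum_congr rfl h2, Finset.sum_const, h.lns_card, nsmul_eq_mul]
    push_cast
    ring
  · intro l hl m hm hlm
    refine Finset.disjoint_left.2 fun z hz hz' => hlm ?_
    have hl' : I y l := mem_lns.1 hl
    have hm' : I y m := mem_lns.1 hm
    rw [Finset.mem_erase, mem_pts] at hz hz'
    exact h.two z y l m hz.2 hl' hz'.2 hm' hz.1

theorem GQ.rsum_univ (h : GQ I s t) {f : Pt → ℝ} (hf : RLS I f) : ∑ z, f z = 0 := by
  have h1 : ∑ l : Ln, ∑ z ∈ pts I l, f z = ∑ z : Pt, ∑ l ∈ lns I z, f z := by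
    refine Finset.sum_comm' ?_
    intro l z
    simp
  rw [Finset.sum_congr rfl (fun l _ => hf l), Finset.sum_const_zero] at h1
  have h2 : ∑ z : Pt, ∑ l ∈ lns I z, f z = ((t : ℝ) + 1) * ∑ z, f z := by
    rw [Finset.mul_sum]
    refine Finset.sum_congr rfl fun z _ => ?_
    rw [Finset.sum_const, h.lns_card, nsmul_eq_mul]
    push_cast
    rfl
  rw [h2] at h1
  have h3 : ((t : ℝ) + 1) ≠ 0 := by positivity
  exact (mul_eq_zero.1 h1.symm).resolve_left h3

theorem GQ.rLS_F (h : GQ I s t) (x : Pt) : RLS I (fun z => (F I s x z : ℝ)) := by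
  intro l
  have h1 := h.LS_F x l
  show ∑ z ∈ pts I l, (F I s x z : ℝ) = 0
  exact_mod_cast h1

theorem GQ.rsum_F_mul (h : GQ I s t) {f : Pt → ℝ} (hf : RLS I f) (x : Pt) :
    ∑ z, (F I s x z : ℝ) * f z = ((s : ℝ) + 1) * ((s : ℝ) + t) * f x := by
  have h1 : ∀ z, (F I s x z : ℝ) * f z = f z + (if z = x then ((s : ℝ) ^ 2 - 1) * f z else 0) +
      (if Adj I x z then -((s : ℝ) + 1) * f z else 0) := by
    intro z
    by_cases hz : z = x
    · subst hz
      rw [F_self, if_pos rfl, if_neg not_adj_self]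
      push_cast
      ring
    · by_cases ha : Adj I x z
      · rw [F_adj ha, if_neg hz, if_pos ha]
        push_cast
        ring
      · rw [if_neg hz, if_neg ha, h.F_far (far_of_ne (fun e => hz e.symm) ha)]
        push_cast
        ring
  rw [Finset.sum_congr rfl (fun z _ => h1 z), Finset.sum_add_distrib, Finset.sum_add_distrib,
    h.rsum_univ hf, Finset.sum_ite_eq' Finset.univ x, if_pos (Finset.mem_univ _),
    ← Finset.sum_filter]
  have h2 : ∑ z ∈ Finset.univ.filter (fun z => Adj I x z), -((s : ℝ) + 1) * f z =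
      -((s : ℝ) + 1) * ∑ z ∈ nb I x, f z := by
    rw [Finset.mul_sum]
    rfl
  rw [h2, h.rsum_nb hf]
  ring

/-- splitting of a sum over all points -/
theorem GQ.rsum_split (h : GQ I s t) {M : Type} [AddCommMonoid M] (f : Pt → M) (x : Pt) :
    ∑ z, f z = f x + ∑ z ∈ nb I x, f z + ∑ z ∈ far I x, f z := by
  have h1 : (Finset.univ : Finset Pt) = insert x (nb I x ∪ far I x) := by
    ext z
    simp only [Finset.mem_univ, Finset.mem_insert, Finset.mem_union, mem_nb, mem_far, true_iff]
    exact eq_or_adj_or_far I x z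
  have h2 : x ∉ nb I x ∪ far I x := by
    rw [Finset.mem_union, mem_nb, mem_far]
    rintro (h3 | h3)
    · exact not_adj_self h3
    · exact h.not_far_self h3
  have h3 : Disjoint (nb I x) (far I x) :=
    Finset.disjoint_left.2 fun z hz hz' => (mem_nb.1 hz).not_far (mem_far.1 hz')
  rw [h1, Finset.sum_insert h2, Finset.sum_union h3, add_assoc]

/-- `∑_{far x} f = t f(x)`: from `rsum_split`, `rsum_univ`, `rsum_nb` -/
theorem GQ.rsum_far (h : GQ I s t) {f : Pt → ℝ} (hf : RLS I f) (x : Pt) :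
    ∑ z ∈ far I x, f z = (t : ℝ) * f x := by
  have h1 := h.rsum_split f x
  rw [h.rsum_univ hf, h.rsum_nb hf] at h1
  linarith

/-- for `w ∼ x`, the sum over the `z ∼ w` far from `x` is `-t f(w)`: the points `z ∼ w` not far from `x`
are the points `≠ w` of the line `xw` (`GQ.tri`); their sum is `-f w`. -/
theorem GQ.rsum_nb_far (h : GQ I s t) {f : Pt → ℝ} (hf : RLS I f) {x w : Pt} (hxw : Adj I x w) :
    ∑ z ∈ univ.filter (fun z => Adj I w z ∧ Far I x z), f z = -(t : ℝ) * f w := by
  obtain ⟨hne, l, hxl, hwl⟩ := hxw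
  have h1 : nb I w = univ.filter (fun z => Adj I w z ∧ Far I x z) ∪ (pts I l).erase w := by
    ext z
    simp only [mem_nb, Finset.mem_union, Finset.mem_filter, Finset.mem_univ, true_and,
      Finset.mem_erase, mem_pts]
    constructor
    · intro hz
      by_cases hf' : Far I x z
      · exact Or.inl ⟨hz, hf'⟩
      · refine Or.inr ⟨hz.ne.symm, ?_⟩
        rcases eq_or_adj_or_far I x z with h2 | h2 | h2
        · rw [h2]
          exact hxl
        · exact h.tri hne hxl hwl h2 hz
        · exact absurd h2 hf'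
    · rintro (hz | ⟨hz1, hz2⟩)
      · exact hz.1
      · exact ⟨fun e => hz1 e.symm, l, hwl, hz2⟩
  have h2 : Disjoint (univ.filter (fun z => Adj I w z ∧ Far I x z)) ((pts I l).erase w) := by
    refine Finset.disjoint_left.2 fun z hz hz' => ?_
    rw [Finset.mem_filter] at hz
    rw [Finset.mem_erase, mem_pts] at hz'
    exact hz.2.2 l hxl hz'.2
  have h3 := h.rsum_nb hf w
  have h4 := Finset.add_sum_erase (pts I l) f (mem_pts.2 hwl)
  rw [hf l] at h4
  rw [h1, Finset.sum_union h2] at h3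
  linarith

omit [Fintype Ln] in
/-- exchange of the order of summation over the pairs `y` far from `x`, `w` a common neighbour -/
theorem exch {M : Type} [AddCommMonoid M] (x : Pt) (g : Pt → Pt → M) :
    ∑ y ∈ far I x, ∑ w ∈ cns2 I x y, g y w =
      ∑ w ∈ nb I x, ∑ y ∈ univ.filter (fun y => Adj I w y ∧ Far I x y), g y w := by
  refine Finset.sum_comm' ?_
  intro y w
  simp only [mem_far, mem_cns2, mem_nb, Finset.mem_filter, Finset.mem_univ, true_and]
  constructor
  · rintro ⟨h1, h2, h3⟩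
    exact ⟨⟨h3.symm, h1⟩, h2⟩
  · rintro ⟨⟨h1, h2⟩, h3⟩
    exact ⟨h2, h3, h1.symm⟩

end Pool.CCff5b
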