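import Pool.Agent.W_ccff5b_h54.IKer

set_option autoImplicit false

namespace Pool.CCff5b

open Finset
open scoped Classical

variable {Pt Ln : Type} [Fintype Pt] [Fintype Ln] {I : Pt → Ln → Prop} {s t : ℕ}

/-- multiplication by `f`, compressed to the functions with zero line sums -/
noncomputable def T (I : Pt → Ln → Prop) (s : ℕ) (f : Pt → ℝ) : Matrix Pt Pt ℝ :=
  PM I s * Matrix.diagonal f * PM I s

omit [Fintype Ln] in
theorem T_apply (f : Pt → ℝ) (a b : Pt) : T I s f a b = ∑ u, PM I s a u * f u * PM I s u b := by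
  unfold T
  rw [Matrix.mul_apply]
  refine Finset.sum_congr rfl fun u _ => ?_
  rw [Matrix.mul_diagonal]

omit [Fintype Ln] in
theorem T_add (f g : Pt → ℝ) : T I s (fun u => f u + g u) = T I s f + T I s g := by
  ext a b
  rw [Matrix.add_apply, T_apply, T_apply, T_apply, ← Finset.sum_add_distrib]
  refine Finset.sum_congr rfl fun u _ => ?_
  ring

omit [Fintype Ln] in
theorem T_smul (c : ℝ) (f : Pt → ℝ) : T I s (fun u => c * f u) = c • T I s f := by
  ext a b
  rw [Matrix.smul_apply, T_apply, T_apply, smul_eq_mul, Finset.mul_sum]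
  refine Finset.sum_congr rfl fun u _ => ?_
  ring

omit [Fintype Ln] in
theorem T_sum (S : Finset Pt) (f : Pt → Pt → ℝ) :
    T I s (fun u => ∑ w ∈ S, f w u) = ∑ w ∈ S, T I s (f w) := by
  ext a b
  rw [Matrix.sum_apply, T_apply]
  have h1 : ∀ w, T I s (f w) a b = ∑ u, PM I s a u * f w u * PM I s u b := fun w => T_apply _ a b
  rw [Finset.sum_congr rfl (fun w _ => h1 w), Finset.sum_comm]
  refine Finset.sum_congr rfl fun u _ => ?_
  rw [Finset.mul_sum, Finset.sum_mul]

theorem GQ.T_symm (h : GQ I s t) (f : Pt → ℝ) : (T I s f).transpose = T I s f := by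
  unfold T
  rw [Matrix.transpose_mul, Matrix.transpose_mul, Matrix.diagonal_transpose, h.PM_symm,
    Matrix.mul_assoc]

theorem GQ.PM_T (h : GQ I s t) (hst : s + t + 1 = s * s) (hs : 2 ≤ s) (f : Pt → ℝ) :
    PM I s * T I s f = T I s f := by
  unfold T
  rw [← Matrix.mul_assoc, ← Matrix.mul_assoc, h.PM_idem hst hs]

theorem GQ.T_PM (h : GQ I s t) (hst : s + t + 1 = s * s) (hs : 2 ≤ s) (f : Pt → ℝ) :
    T I s f * PM I s = T I s f := by
  unfold T
  rw [Matrix.mul_assoc, h.PM_idem hst hs]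

/-- action on functions with zero line sums -/
theorem GQ.T_mulVec (h : GQ I s t) (hst : s + t + 1 = s * s) (hs : 2 ≤ s) (f : Pt → ℝ)
    {g : Pt → ℝ} (hg : RLS I g) : (T I s f).mulVec g = (PM I s).mulVec (fun u => f u * g u) := by
  unfold T
  rw [← Matrix.mulVec_mulVec, ← Matrix.mulVec_mulVec, h.PM_mulVec hst hs hg]
  congr 1
  ext u
  rw [Matrix.mulVec_diagonal]

/-- `F_u^2 = s + (1-s) F_u + s μ δ_u`, so `∑_v F_u(v)^2 f(v) = (1-s) μ f(u) + s μ f(u) = μ f(u)` for `f`
with zero line sums; `(T f)(u,u) = ∑_v Π(u,v) f(v) Π(v,u)`. -/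
theorem GQ.T_diag (h : GQ I s t) (hst : s + t + 1 = s * s) (hs : 2 ≤ s) {f : Pt → ℝ}
    (hf : RLS I f) (u : Pt) : T I s f u u = f u / mu s := by
  have hmu : mu s ≠ 0 := (mu_pos hs).ne'
  have h1 : ∀ v, PM I s u v * f v * PM I s v u = ((s : ℝ) * f v + (1 - (s : ℝ)) *
      ((F I s u v : ℝ) * f v) + (if v = u then (s : ℝ) * mu s * f v else 0)) / (mu s * mu s) := by
    intro v
    have h2 : PM I s v u = PM I s u v := by
      unfold PM
      rw [IB_F_symm]
    have h3 : PM I s u v * f v * PM I s v u =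
        ((F I s u v : ℝ) * (F I s u v : ℝ) * f v) / (mu s * mu s) := by
      rw [h2]
      unfold PM
      field_simp
    rw [h3]
    congr 1
    rcases eq_or_adj_or_far I u v with hv | hv | hv
    · rw [if_pos hv, hv, F_self]
      unfold mu
      push_cast
      ring
    · rw [if_neg hv.ne.symm, F_adj hv]
      push_cast
      ring
    · rw [if_neg (h.far_ne hv).symm, h.F_far hv]
      push_cast
      ring
  rw [T_apply, Finset.sum_congr rfl (fun v _ => h1 v), ← Finset.sum_div, Finset.sum_add_distrib,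
    Finset.sum_add_distrib, ← Finset.mul_sum, ← Finset.mul_sum, h.rsum_univ hf, h.rsum_F_mul hf,
    mu_eq hst, Finset.sum_ite_eq' Finset.univ u, if_pos (Finset.mem_univ _)]
  field_simp
  ring

theorem GQ.T_trace (h : GQ I s t) (hst : s + t + 1 = s * s) (hs : 2 ≤ s) {f : Pt → ℝ}
    (hf : RLS I f) : (T I s f).trace = 0 := by
  have h1 : (T I s f).trace = ∑ u, T I s f u u := rfl
  rw [h1, Finset.sum_congr rfl (fun u _ => h.T_diag hst hs hf u), ← Finset.sum_div,
    h.rsum_univ hf, zero_div]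

/-- `tr (T f T g) = tr (diag g (Π diag f Π))` (`Π` idempotent), then `T_diag` -/
theorem GQ.T_trace_mul (h : GQ I s t) (hst : s + t + 1 = s * s) (hs : 2 ≤ s) {f : Pt → ℝ}
    (hf : RLS I f) (g : Pt → ℝ) : (T I s f * T I s g).trace = (∑ u, f u * g u) / mu s := by
  have h1 : T I s f * T I s g = (T I s f * Matrix.diagonal g) * PM I s := by
    have h2 : T I s f * T I s g = (T I s f * PM I s) * Matrix.diagonal g * PM I s := by
      conv_lhs => rw [show T I s g = PM I s * Matrix.diagonal g * PM I s from rfl]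
      simp only [Matrix.mul_assoc]
    rw [h2, h.T_PM hst hs]
  rw [h1, Matrix.trace_mul_comm, ← Matrix.mul_assoc, h.PM_T hst hs]
  have h3 : (T I s f * Matrix.diagonal g).trace = ∑ u, (T I s f * Matrix.diagonal g) u u := rfl
  rw [h3, Finset.sum_div]
  refine Finset.sum_congr rfl fun u _ => ?_
  rw [Matrix.mul_diagonal, h.T_diag hst hs hf]
  ring

/-- `Q_x = (1/s) Π + ((s-1)/s) T(F_x)`: `Q_x = Π Q_x Π` (`PM_Q`, `Q_PM`), and the entry `(a,b)` of `Π Q_x Π` is
`∑_y ∑_z Q_x(y,z) K(y,z)` with `K y z = Π(a,y) Π(z,b)`: `GQ.Q_kernel`; `∑_u Π(a,u) Π(u,b) = Π(a,b)`. -/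
theorem GQ.Q_eq (h : GQ I s t) (hst : s + t + 1 = s * s) (hs : 2 ≤ s) (x : Pt) :
    (s : ℝ) • Q I s x = PM I s + ((s : ℝ) - 1) • T I s (fun u => (F I s x u : ℝ)) := by
  have hcol : ∀ b, RLS I (fun z => PM I s z b) := by
    intro b l
    have h3 : ∀ u, PM I s u b = (F I s b u : ℝ) / mu s := by
      intro u
      unfold PM
      rw [IB_F_symm]
    have h4 := h.rLS_F b l
    simp only at h4
    simp only
    rw [Finset.sum_congr rfl (fun u _ => h3 u), ← Finset.sum_div, h4, zero_div]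
  have hrow : ∀ a, RLS I (fun y => PM I s a y) := by
    intro a l
    have h3 : ∀ u, PM I s a u = PM I s u a := by
      intro u
      unfold PM
      rw [IB_F_symm]
    have h4 := hcol a l
    simp only at h4
    simp only
    rw [Finset.sum_congr rfl (fun u _ => h3 u), h4]
  ext a b
  have h1 : ∀ y, RLS I (fun z => PM I s a y * PM I s z b) := by
    intro y l
    have h4 := hcol b l
    simp only at h4
    simp only
    rw [← Finset.mul_sum, h4, mul_zero]
  have h2 : ∀ z, RLS I (fun y => PM I s a y * PM I s z b) := by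
    intro z l
    have h4 := hrow a l
    simp only at h4
    simp only
    rw [← Finset.sum_mul, h4, zero_mul]
  have h3 := h.Q_kernel hst hs x (K := fun y z => PM I s a y * PM I s z b) h1 h2
  have h5 : Q I s x a b = ∑ y, ∑ z, Q I s x y z * (PM I s a y * PM I s z b) := by
    have h6 : Q I s x = PM I s * (Q I s x * PM I s) := by
      rw [h.Q_PM hst hs, h.PM_Q hst hs]
    have h7 : Q I s x a b = (PM I s * (Q I s x * PM I s)) a b := by rw [← h6]
    rw [h7, Matrix.mul_apply]
    refine Finset.sum_congr rfl fun y _ => ?_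
    rw [Matrix.mul_apply, Finset.mul_sum]
    refine Finset.sum_congr rfl fun z _ => ?_
    ring
  have h8 : PM I s a b = ∑ u, PM I s a u * PM I s u b := by
    have h9 : PM I s a b = (PM I s * PM I s) a b := by rw [h.PM_idem hst hs]
    rw [h9, Matrix.mul_apply]
  rw [Matrix.smul_apply, Matrix.add_apply, Matrix.smul_apply, smul_eq_mul, smul_eq_mul, h5, h3,
    T_apply, h8]
  congr 2
  refine Finset.sum_congr rfl fun u _ => ?_
  ring

/-- `Λ_a = T(F_a)` -/
theorem GQ.Lam_eq (h : GQ I s t) (hst : s + t + 1 = s * s) (hs : 2 ≤ s) (a : Pt) :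
    Lam I s a = T I s (fun u => (F I s a u : ℝ)) := by
  have hs1 : (s : ℝ) - 1 ≠ 0 := by
    have : (2 : ℝ) ≤ s := by exact_mod_cast hs
    linarith
  unfold Lam
  rw [h.Q_eq hst hs, add_sub_cancel_left, smul_smul, one_div, inv_mul_cancel₀ hs1, one_smul]

/-- `L_xy = T(E_xy)` (`GQ.E_F` cast to `ℝ`, `T_add`, `T_smul`, `T_sum`) -/
theorem GQ.LL_eq (h : GQ I s t) (hst : s + t + 1 = s * s) (hs : 2 ≤ s) {x y : Pt}
    (hxy : Far I x y) : LL I s x y = T I s (fun u => (E I s x y u : ℝ)) := by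
  have hs1 : (s : ℝ) + 1 ≠ 0 := by positivity
  have h1 : ∀ u, ((s : ℝ) + 1) * (E I s x y u : ℝ) = ((s : ℝ) * (F I s x u : ℝ) +
      (s : ℝ) * (F I s y u : ℝ)) + ∑ w ∈ cns2 I x y, (F I s w u : ℝ) := by
    intro u
    have h2 := h.E_F hst hxy u
    exact_mod_cast h2
  have h2 : T I s (fun u => ((s : ℝ) + 1) * (E I s x y u : ℝ)) =
      (s : ℝ) • Lam I s x + (s : ℝ) • Lam I s y + ∑ w ∈ cns2 I x y, Lam I s w := by
    rw [show (fun u => ((s : ℝ) + 1) * (E I s x y u : ℝ)) = fun u => ((s : ℝ) * (F I s x u : ℝ) +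
      (s : ℝ) * (F I s y u : ℝ)) + ∑ w ∈ cns2 I x y, (F I s w u : ℝ) from funext h1,
      T_add, T_add, T_smul, T_smul, T_sum, h.Lam_eq hst hs, h.Lam_eq hst hs]
    congr 1
    refine Finset.sum_congr rfl fun w _ => ?_
    rw [h.Lam_eq hst hs]
  unfold LL
  rw [← h2, T_smul, smul_smul, one_div, inv_mul_cancel₀ hs1, one_smul]

end Pool.CCff5b
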