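import Pool.Agent.W_ccff5b_h54.ICas

set_option autoImplicit false

namespace Pool.CCff5b

open Finset
open scoped Classical

variable {Pt Ln : Type} [Fintype Pt] [Fintype Ln] {I : Pt → Ln → Prop} {s t : ℕ}

theorem ITr_s1 (hs : 2 ≤ s) : (0 : ℝ) < (s : ℝ) - 1 := by
  have : (2 : ℝ) ≤ s := by exact_mod_cast hs
  linarith

theorem ITr_s0 (hs : 2 ≤ s) : (0 : ℝ) < (s : ℝ) := by
  have : (2 : ℝ) ≤ s := by exact_mod_cast hs
  linarith

omit [Fintype Ln] in
/-- `A_u = Q_x T(F_u) Q_x` -/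
theorem ITr_AA_T (x u : Pt) (hs : 2 ≤ s)
    (hQ : (s : ℝ) • Q I s u = PM I s + ((s : ℝ) - 1) • T I s (fun v => (F I s u v : ℝ)))
    (h1 : Q I s x * PM I s = Q I s x) (h2 : Q I s x * Q I s x = Q I s x) :
    AA I s x u = Q I s x * T I s (fun v => (F I s u v : ℝ)) * Q I s x := by
  have h3 := ITr_s1 hs
  have h4 : (s : ℝ) • (Q I s x * Q I s u * Q I s x) =
      Q I s x * ((s : ℝ) • Q I s u) * Q I s x := by
    rw [Matrix.mul_smul, Matrix.smul_mul]
  unfold AA
  rw [h4, hQ, Matrix.mul_add, Matrix.add_mul, h1, h2, Matrix.mul_smul, Matrix.smul_mul,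
    add_sub_cancel_left, smul_smul, one_div, inv_mul_cancel₀ h3.ne', one_smul]

/-- **Task ITr (1).** `A_u = Q_x T(F_u) Q_x` (`Q_eq`), so
`A_u(a,b) = ∑_v F_u(v) q_a(v) q_b(v)`, `q_a = Q_x(a,·)`
`= μ (Π(q_a q_b))(u) = μ (Q_x Π(q_a q_b))(u)` (`mul_InU`, `Q_mulVec`) `= μ ∑_v Q_x(u,v) q_a(v) q_b(v)` (`Q_PM`). -/
theorem GQ.AA_eq (h : GQ I s t) (hst : s + t + 1 = s * s) (hs : 2 ≤ s) (x u a b : Pt) :
    AA I s x u a b = mu s * ∑ v, Q I s x u v * Q I s x a v * Q I s x b v := by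
  have hsym : ∀ p q, Q I s x p q = Q I s x q p := fun p q => by
    have := congrFun (congrFun (h.Q_symm x) q) p
    simpa [Matrix.transpose_apply] using this
  have hmu : mu s ≠ 0 := (mu_pos hs).ne'
  have h0 := ITr_AA_T x u hs (h.Q_eq hst hs u) (h.Q_PM hst hs x) (h.Q_idem hst hs x)
  have h1 : Q I s x * T I s (fun v => (F I s u v : ℝ)) * Q I s x =
      Q I s x * Matrix.diagonal (fun v => (F I s u v : ℝ)) * Q I s x := by
    unfold T
    have e1 : Q I s x * (PM I s * Matrix.diagonal (fun v => (F I s u v : ℝ)) * PM I s) * Q I s x =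
        (Q I s x * PM I s) * Matrix.diagonal (fun v => (F I s u v : ℝ)) * (PM I s * Q I s x) := by
      simp only [Matrix.mul_assoc]
    rw [e1, h.Q_PM hst hs, h.PM_Q hst hs]
  have hq : ∀ p, InU I s x (fun v => Q I s x p v) := fun p => by
    have := h.IB_Qcol hst x p
    have e : (fun v => Q I s x p v) = fun v => Q I s x v p := by
      funext v
      exact hsym p v
    rw [e]
    exact this
  have h2 := h.mul_InU hst hs (hq a) (hq b)
  have h3 := congrFun (h.Q_mulVec hst hs h2) u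
  rw [Matrix.mulVec_mulVec, h.Q_PM hst hs] at h3
  rw [h0, h1]
  have h4 : (Q I s x * Matrix.diagonal (fun v => (F I s u v : ℝ)) * Q I s x) a b =
      mu s * (PM I s).mulVec (fun v => Q I s x a v * Q I s x b v) u := by
    rw [Matrix.mul_apply, Matrix.mulVec, dotProduct, Finset.mul_sum]
    refine Finset.sum_congr rfl fun v _ => ?_
    rw [Matrix.mul_diagonal, hsym v b]
    unfold PM
    field_simp
  rw [h4, ← h3, Matrix.mulVec, dotProduct]
  congr 1
  refine Finset.sum_congr rfl fun v _ => ?_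
  ring

theorem GQ.AA_self (h : GQ I s t) (hst : s + t + 1 = s * s) (hs : 2 ≤ s) (x : Pt) :
    AA I s x x = Q I s x := by
  have h3 := ITr_s1 hs
  have e : (s : ℝ) • Q I s x - Q I s x = ((s : ℝ) - 1) • Q I s x := by
    rw [sub_smul, one_smul]
  unfold AA
  rw [h.Q_idem hst hs, h.Q_idem hst hs, e, smul_smul, one_div, inv_mul_cancel₀ h3.ne', one_smul]

/-- **Task ITr (2).** By (1) `A_u(a,b) = A_a(u,b)`, `A_v(b,a) = A_a(b,v)`, so
`tr (A_u A_v) = ∑_{a,b} A_a(u,b) A_a(b,v) = ∑_a (A_a^2)(u,v) = σ Q_x(u,v)` (`sum_AA_sq`). For `u = v = x`,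
`A_x = Q_x` and `tr Q_x = s(s-1)`, `Q_x(x,x) = s^3/(s μ)`, so `σ = μ (s-1)/s`. -/
theorem GQ.trace_AA (h : GQ I s t) (hst : s + t + 1 = s * s) (hs : 2 ≤ s) (x u v : Pt) :
    (s : ℝ) ^ 2 * (AA I s x u * AA I s x v).trace = ((s : ℝ) - 1) * B I s x u v := by
  obtain ⟨σ, hσ⟩ := h.sum_AA_sq hst hs x
  have hmu : mu s ≠ 0 := (mu_pos hs).ne'
  have hs0 : (s : ℝ) ≠ 0 := (ITr_s0 hs).ne'
  have key : ∀ p q, (AA I s x p * AA I s x q).trace = σ * Q I s x p q := fun p q => by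
    have e1 : (AA I s x p * AA I s x q).trace =
        ∑ a, (AA I s x a * AA I s x a) p q := by
      rw [Matrix.trace]
      refine Finset.sum_congr rfl fun a _ => ?_
      rw [Matrix.diag_apply, Matrix.mul_apply, Matrix.mul_apply]
      refine Finset.sum_congr rfl fun b _ => ?_
      rw [h.AA_eq hst hs x p a b, h.AA_eq hst hs x q b a, h.AA_eq hst hs x a p b,
        h.AA_eq hst hs x a b q]
      have r1 : ∑ v, Q I s x p v * Q I s x a v * Q I s x b v =
          ∑ v, Q I s x a v * Q I s x p v * Q I s x b v :=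
        Finset.sum_congr rfl fun v _ => by ring
      have r2 : ∑ v, Q I s x q v * Q I s x b v * Q I s x a v =
          ∑ v, Q I s x a v * Q I s x b v * Q I s x q v :=
        Finset.sum_congr rfl fun v _ => by ring
      rw [r1, r2]
    have e2 := congrFun (congrFun hσ p) q
    rw [e1, ← Matrix.sum_apply, e2, Matrix.smul_apply, smul_eq_mul]
  have h1 := key x x
  rw [h.AA_self hst hs, h.Q_idem hst hs, h.Q_trace hst hs] at h1
  have h2 : Q I s x x x = (s : ℝ) ^ 3 / ((s : ℝ) * mu s) := by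
    unfold Q
    rw [IB_eq rfl, F_self]
    push_cast
    ring
  rw [h2] at h1
  have h3 : σ * (s : ℝ) = mu s * ((s : ℝ) - 1) := by
    field_simp at h1
    nlinarith [h1]
  rw [key u v]
  unfold Q
  rw [← mul_assoc, mul_div_assoc']
  rw [div_eq_iff (mul_ne_zero hs0 hmu)]
  calc (s : ℝ) ^ 2 * σ * B I s x u v = (σ * (s : ℝ)) * ((s : ℝ) * B I s x u v) := by ring
    _ = ((s : ℝ) - 1) * B I s x u v * ((s : ℝ) * mu s) := by rw [h3]; ring

/-- **Task ITr (3).** `rsum_E_mul` for `f = E_xy`: `s E(x) + s E(y) + ∑_w E(w) = 2 s^2 - (t+1)` -/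
theorem GQ.sum_E_sq (h : GQ I s t) (hst : s + t + 1 = s * s) {x y : Pt}
    (hxy : Far I x y) : ∑ u, (E I s x y u : ℝ) * (E I s x y u : ℝ) = mu s * s := by
  have h1 := h.rsum_E_mul hst hxy (h.rLS_E hst hxy)
  have h2 : ∑ w ∈ cns2 I x y, (E I s x y w : ℝ) = -((t : ℝ) + 1) := by
    have e : ∀ w ∈ cns2 I x y, (E I s x y w : ℝ) = -1 := fun w hw => by
      rw [mem_cns2] at hw
      rw [h.IB_E_adj hxy hw.1]
      push_cast
      ring
    rw [Finset.sum_congr rfl e, Finset.sum_const, h.card_cns2 hxy, nsmul_eq_mul]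
    push_cast
    ring
  have h3 : (E I s x y x : ℝ) = s := by
    rw [IB_E_left]
    push_cast
    rfl
  have h4 : (E I s x y y : ℝ) = s := by
    rw [E_swap, IB_E_left]
    push_cast
    rfl
  have h5 : (s : ℝ) + t + 1 = s * s := by exact_mod_cast hst
  rw [h2, h3, h4] at h1
  have h6 : (0 : ℝ) ≤ (s : ℝ) := Nat.cast_nonneg s
  have h7 : (s : ℝ) + 1 ≠ 0 := by positivity
  apply mul_left_cancel₀ h7
  rw [h1]
  have h8 : (s : ℝ) * s + s * s + -((t : ℝ) + 1) = (s + 1) * s := by linarith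
  rw [h8]
  ring

/-- **Task ITr (4).** `LL_eq`, `T_trace` -/
theorem GQ.LL_trace (h : GQ I s t) (hst : s + t + 1 = s * s) (hs : 2 ≤ s) {x y : Pt}
    (hxy : Far I x y) : (LL I s x y).trace = 0 := by
  rw [h.LL_eq hst hs hxy]
  exact h.T_trace hst hs (h.rLS_E hst hxy)

/-- `LL_eq`, `T_trace_mul`, (3) -/
theorem GQ.LL_sq_trace (h : GQ I s t) (hst : s + t + 1 = s * s) (hs : 2 ≤ s) {x y : Pt}
    (hxy : Far I x y) : (LL I s x y * LL I s x y).trace = s := by
  rw [h.LL_eq hst hs hxy, h.T_trace_mul hst hs (h.rLS_E hst hxy), h.sum_E_sq hst hxy]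
  have hmu : mu s ≠ 0 := (mu_pos hs).ne'
  field_simp

/-- `s tr A_y = s - 1` -/
theorem GQ.ITr_trace (h : GQ I s t) (hst : s + t + 1 = s * s) (hs : 2 ≤ s) {x y : Pt}
    (hxy : Far I x y) : (s : ℝ) * (AA I s x y).trace = (s : ℝ) - 1 := by
  have hs0 : (s : ℝ) ≠ 0 := (ITr_s0 hs).ne'
  have h1 := h.trace_AA hst hs x y x
  have h2 : AA I s x y * AA I s x x = AA I s x y := by
    rw [h.AA_self hst hs]
    unfold AA
    rw [Matrix.smul_mul, Matrix.sub_mul, Matrix.smul_mul, Matrix.mul_assoc, h.Q_idem hst hs]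
  have h3 : B I s x y x = s := by
    rw [h.IB_far hxy, IB_E_left, F_self]
    push_cast
    ring
  rw [h2, h3] at h1
  apply mul_left_cancel₀ hs0
  linarith

/-- `LL Q` and `Q LL` -/
theorem GQ.LL_Q_trace (h : GQ I s t) (hst : s + t + 1 = s * s) (hs : 2 ≤ s) {x y : Pt}
    (hxy : Far I x y) : (LL I s x y * Q I s x).trace = (s : ℝ) - 1 := by
  have h0 := ITr_s0 hs
  have h1 := congrArg Matrix.trace (h.Q_LL_AA hst hs hxy)
  rw [Matrix.trace_smul, Matrix.trace_add, Matrix.trace_smul, h.Q_trace hst hs, smul_eq_mul,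
    smul_eq_mul, h.ITr_trace hst hs hxy] at h1
  rw [Matrix.trace_mul_comm]
  have h7 : (s : ℝ) + 1 ≠ 0 := by positivity
  apply mul_left_cancel₀ h7
  rw [h1]
  ring

/-- For `y, z` far from `x`: `tr ((Q_x L_xy)(Q_x L_xz)) = (s-1)(b_x(y,z) + s + 2)/(s+1)^2`, from `Q_LL_AA`,
`trace_AA`, `AA_self`, `Q_trace` (`A_y Q_x = A_y`). -/
theorem GQ.trace_QLQL (h : GQ I s t) (hst : s + t + 1 = s * s) (hs : 2 ≤ s) {x y z : Pt}
    (hxy : Far I x y) (hxz : Far I x z) :
    ((s : ℝ) + 1) ^ 2 * ((Q I s x * LL I s x y) * (Q I s x * LL I s x z)).trace =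
      ((s : ℝ) - 1) * (B I s x y z + s + 2) := by
  have hAQ : ∀ y, AA I s x y * Q I s x = AA I s x y := fun y => by
    unfold AA
    rw [Matrix.smul_mul, Matrix.sub_mul, Matrix.smul_mul, Matrix.mul_assoc, h.Q_idem hst hs]
  have hQA : ∀ y, Q I s x * AA I s x y = AA I s x y := fun y => by
    unfold AA
    rw [Matrix.mul_smul, Matrix.mul_sub, Matrix.mul_smul, Matrix.mul_assoc, ← Matrix.mul_assoc,
      h.Q_idem hst hs, ← Matrix.mul_assoc]
  have e : ((s : ℝ) + 1) ^ 2 * ((Q I s x * LL I s x y) * (Q I s x * LL I s x z)).trace =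
      (((((s : ℝ) + 1) • (Q I s x * LL I s x y)) *
        (((s : ℝ) + 1) • (Q I s x * LL I s x z)))).trace := by
    rw [Matrix.smul_mul, Matrix.mul_smul, smul_smul, Matrix.trace_smul, smul_eq_mul]
    ring
  rw [e, h.Q_LL_AA hst hs hxy, h.Q_LL_AA hst hs hxz, Matrix.add_mul, Matrix.mul_add,
    Matrix.mul_add, Matrix.smul_mul, Matrix.smul_mul, Matrix.mul_smul, Matrix.mul_smul, hAQ, hQA,
    h.Q_idem hst hs]
  simp only [Matrix.trace_add, Matrix.trace_smul, smul_eq_mul]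
  rw [h.ITr_trace hst hs hxy, h.ITr_trace hst hs hxz, h.Q_trace hst hs]
  have h1 := h.trace_AA hst hs x y z
  linear_combination h1

/-- the case `z = y`: `b_x(y,y) = s^2 + s - 1`; `L L Q_x = (Q_x L)(Q_x L)` as `L` commutes with `Q_x`. -/
theorem GQ.LL_sq_Q_trace (h : GQ I s t) (hst : s + t + 1 = s * s) (hs : 2 ≤ s) {x y : Pt}
    (hxy : Far I x y) : (LL I s x y * LL I s x y * Q I s x).trace = (s : ℝ) - 1 := by
  have h0 := ITr_s0 hs
  have hc := h.LL_Q_comm hst hs hxy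
  have e : (Q I s x * LL I s x y) * (Q I s x * LL I s x y) =
      LL I s x y * LL I s x y * Q I s x := by
    rw [← hc]
    calc LL I s x y * Q I s x * (LL I s x y * Q I s x)
        = LL I s x y * (Q I s x * LL I s x y) * Q I s x := by simp only [Matrix.mul_assoc]
      _ = LL I s x y * (LL I s x y * Q I s x) * Q I s x := by rw [← hc]
      _ = LL I s x y * LL I s x y * (Q I s x * Q I s x) := by simp only [Matrix.mul_assoc]
      _ = LL I s x y * LL I s x y * Q I s x := by rw [h.Q_idem hst hs]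
  have h1 := h.trace_QLQL hst hs hxy hxy
  rw [e, h.B_diag, h.F_far hxy] at h1
  have h7 : ((s : ℝ) + 1) ^ 2 ≠ 0 := by positivity
  apply mul_left_cancel₀ h7
  rw [h1]
  push_cast
  ring

end Pool.CCff5b
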