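import Pool.Agent.W_ccff5b_h54.Star

set_option autoImplicit false

namespace Pool.CCff5b

open Finset
open scoped Classical

variable {Pt Ln : Type} [Fintype Pt] [Fintype Ln] {I : Pt → Ln → Prop} {s t : ℕ}

/-- the sum of the squares of `G^a_z` on a line through `z` -/
theorem GQ.sum_sq_line (h : GQ I s t) {a z : Pt} {l : Ln} (haz : Far I a z) (hz : I z l) :
    ∑ x ∈ pts I l, (H I s a z x) ^ 2 = (s : ℤ) * ((s : ℤ) - 1) := by
  have ha : ¬ I a l := fun ha => haz l ha hz
  obtain ⟨m, hm, ham⟩ := h.exists_proj ha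
  have hm1 : m ∈ pts I l := mem_pts.2 hm
  have hzm : z ≠ m := by
    rintro rfl
    exact ham.not_far haz
  have hz1 : z ∈ (pts I l).erase m := Finset.mem_erase.2 ⟨hzm, mem_pts.2 hz⟩
  have hcard : ((((pts I l).erase m).erase z).card : ℤ) = (s : ℤ) - 1 := by
    have h1 : (((pts I l).erase m).erase z).card + 1 = s := by
      rw [Finset.card_erase_add_one hz1, Finset.card_erase_of_mem hm1, h.pts_card l]
      simp
    have h2 : ((((pts I l).erase m).erase z).card : ℤ) + 1 = s := by exact_mod_cast h1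
    linarith
  rw [← Finset.add_sum_erase _ _ hm1, ← Finset.add_sum_erase _ _ hz1,
    H_zero_right ham.not_far, H_far haz, G_self haz]
  have h2 : ∑ x ∈ ((pts I l).erase m).erase z, (H I s a z x) ^ 2 = (s : ℤ) - 1 := by
    rw [Finset.sum_congr rfl (g := fun _ => (1 : ℤ)) fun x hx => by
      rw [Finset.mem_erase, Finset.mem_erase, mem_pts] at hx
      have hax : Far I a x := by
        refine far_of_ne ?_ fun hadj => hx.2.1 (h.proj_unique ha hx.2.2 hm hadj ham)
        rintro rfl
        exact ha hx.2.2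
      rw [H_far haz, G_adj hax ⟨Ne.symm hx.1, l, hz, hx.2.2⟩]
      norm_num]
    rw [Finset.sum_const, nsmul_eq_mul, mul_one, hcard]
  rw [h2]
  ring

/-- **(\*\*)** `G^c · G^a_z = s^2 G^a_z(c) G^c_a` for `c, z` on a line not through `a`, `z` far from `a` -/
theorem GQ.star (h : GQ I s t) (hst : s + t = s * s) {a c z : Pt} {l : Ln}
    (haz : Far I a z) (hc : I c l) (hz : I z l) (y : Pt) :
    ∑ u, H I s c y u * H I s a z u = (s : ℤ) ^ 2 * H I s a z c * H I s c a y := by
  have hv : LS I (H I s a z) := h.LS_H hst a z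
  have hv0 : ∀ u, ¬ Far I a u → H I s a z u = 0 := fun u hu => H_zero_right hu
  have hnorm : ∑ u, (H I s a z u) ^ 2 = (s : ℤ) ^ 3 * ((s : ℤ) - 1) := by
    have h1 := h.sum_H_mul hst z hv hv0
    rw [H_far haz, G_self haz] at h1
    rw [← h1]
    exact Finset.sum_congr rfl fun u _ => sq _
  have hsum : ∑ x ∈ pts I l, ∑ y, (∑ u, H I s x y u * H I s a z u -
      (s : ℤ) ^ 2 * H I s a z x * H I s x a y) ^ 2 = 0 := by
    rw [Finset.sum_congr rfl fun x _ => h.square hst x hv hv0, Finset.sum_sub_distrib,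
      ← Finset.mul_sum, ← Finset.mul_sum, h.energy hst l hv, h.sum_sq_line haz hz, hnorm]
    ring
  have h1 := (Finset.sum_eq_zero_iff_of_nonneg (fun x _ =>
    Finset.sum_nonneg fun y _ => sq_nonneg _)).1 hsum c (mem_pts.2 hc)
  have h2 := (Finset.sum_eq_zero_iff_of_nonneg (fun y _ => sq_nonneg _)).1 h1 y (Finset.mem_univ y)
  have h3 := pow_eq_zero_iff (two_ne_zero) |>.1 h2
  linarith

/-- `V_a` test: for `f` in `V_a`, `z` equal or collinear to `a`, `z` far from `c` -/
theorem GQ.sum_test (h : GQ I s t) (hst : s + t = s * s) (hs : 1 ≤ s) {a c z : Pt}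
    (hcz : Far I c z) (haz : ¬ Far I a z) {f : Pt → ℤ} (hf : LS I f)
    (hf0 : ∀ u, ¬ Far I a u → f u = 0) :
    ∑ u, H I s c z u * f u = (s : ℤ) ^ 2 * H I s c z a * f c := by
  obtain ⟨l, ha, hz⟩ : ∃ l, I a l ∧ I z l := by
    unfold Far at haz
    push Not at haz
    exact haz
  have h1 : ∀ y, ∑ u, H I s a y u * H I s c z u = (s : ℤ) ^ 2 * H I s c z a * H I s a c y :=
    fun y => h.star hst hcz ha hz y
  have h2 : (s : ℤ) ^ 3 * ∑ u, H I s c z u * f u =
      (s : ℤ) ^ 3 * ((s : ℤ) ^ 2 * H I s c z a * f c) := by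
    calc (s : ℤ) ^ 3 * ∑ u, H I s c z u * f u
        = ∑ u, H I s c z u * ∑ y, H I s a u y * f y := by
          rw [Finset.mul_sum]
          refine Finset.sum_congr rfl fun u _ => ?_
          rw [h.sum_H_mul hst u hf hf0]
          ring
      _ = ∑ y, (∑ u, H I s a y u * H I s c z u) * f y := by
          have e1 : ∀ u, H I s c z u * ∑ y, H I s a u y * f y =
              ∑ y, (H I s a y u * H I s c z u) * f y := by
            intro u
            rw [Finset.mul_sum]
            refine Finset.sum_congr rfl fun y _ => ?_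
            rw [H_symm a y u]
            ring
          rw [Finset.sum_congr rfl fun u _ => e1 u, Finset.sum_comm]
          exact Finset.sum_congr rfl fun y _ => by rw [Finset.sum_mul]
      _ = (s : ℤ) ^ 2 * H I s c z a * ∑ y, H I s a c y * f y := by
          rw [Finset.mul_sum]
          exact Finset.sum_congr rfl fun y _ => by rw [h1 y]; ring
      _ = _ := by
          rw [h.sum_H_mul hst c hf hf0]
          ring
  have h3 : (s : ℤ) ^ 3 ≠ 0 := by positivity
  exact mul_left_cancel₀ h3 h2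

/-- the matrix `s^6 N` -/
noncomputable def M (I : Pt → Ln → Prop) (s : ℕ) (a c y b : Pt) : ℤ :=
  ∑ v, H I s c y v * H I s a b v - (s : ℤ) ^ 2 * H I s a b c * H I s c a y

theorem GQ.LS_M (h : GQ I s t) (hst : s + t = s * s) (a c b : Pt) :
    LS I (fun y => M I s a c y b) := by
  intro l
  unfold M
  rw [Finset.sum_sub_distrib, Finset.sum_comm, ← Finset.mul_sum, h.LS_H hst c a l, mul_zero,
    sub_zero]
  refine Finset.sum_eq_zero fun v _ => ?_
  rw [← Finset.sum_mul]
  have h1 : ∑ y ∈ pts I l, H I s c y v = 0 := by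
    rw [← h.LS_H hst c v l]
    exact Finset.sum_congr rfl fun y _ => H_symm c y v
  rw [h1, zero_mul]

theorem GQ.M_zero_c (_h : GQ I s t) {a c y : Pt} (b : Pt) (hy : ¬ Far I c y) :
    M I s a c y b = 0 := by
  unfold M
  rw [H_zero_right hy, mul_zero, sub_zero]
  exact Finset.sum_eq_zero fun v _ => by rw [H_zero_left hy, zero_mul]

theorem GQ.M_zero_a (h : GQ I s t) (hst : s + t = s * s) (hs : 1 ≤ s) {a c y : Pt}
    (b : Pt) (hy : ¬ Far I a y) : M I s a c y b = 0 := by
  by_cases hcy : Far I c y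
  · unfold M
    rw [h.sum_test hst hs hcy hy (h.LS_H hst a b) fun u hu => H_zero_right hu, H_symm c y a]
    ring
  · exact h.M_zero_c b hcy

/-- `M` acts as `s^6` on `V_a ∩ V_c` -/
theorem GQ.M_mul (h : GQ I s t) (hst : s + t = s * s) {a c : Pt} {f : Pt → ℤ}
    (hf : LS I f) (hfa : ∀ u, ¬ Far I a u → f u = 0) (hfc : ∀ u, ¬ Far I c u → f u = 0) (y : Pt) :
    ∑ b, M I s a c y b * f b = (s : ℤ) ^ 6 * f y := by
  unfold M
  have h1 : ∀ b, (∑ v, H I s c y v * H I s a b v - (s : ℤ) ^ 2 * H I s a b c * H I s c a y) * f b =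
      ∑ v, H I s c y v * (H I s a v b * f b) - (s : ℤ) ^ 2 * H I s c a y * (H I s a c b * f b) := by
    intro b
    rw [sub_mul, Finset.sum_mul, H_symm a b c]
    congr 1
    · exact Finset.sum_congr rfl fun v _ => by rw [H_symm a b v]; ring
    · ring
  rw [Finset.sum_congr rfl fun b _ => h1 b, Finset.sum_sub_distrib, Finset.sum_comm,
    ← Finset.mul_sum, h.sum_H_mul hst c hf hfa, hfc c h.not_far_self]
  have h2 : ∀ v, ∑ b, H I s c y v * (H I s a v b * f b) = (s : ℤ) ^ 3 * (H I s c y v * f v) := by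
    intro v
    rw [← Finset.mul_sum, h.sum_H_mul hst v hf hfa]
    ring
  rw [Finset.sum_congr rfl fun v _ => h2 v, ← Finset.mul_sum, h.sum_H_mul hst y hf hfc]
  ring

/-- `M^2 = s^6 M` -/
theorem GQ.M_sq (h : GQ I s t) (hst : s + t = s * s) (hs : 1 ≤ s) (a c y b : Pt) :
    ∑ z, M I s a c y z * M I s a c z b = (s : ℤ) ^ 6 * M I s a c y b :=
  h.M_mul hst (h.LS_M hst a c b) (fun _ hu => h.M_zero_a hst hs b hu)
    (fun _ hu => h.M_zero_c b hu) y

end Pool.CCff5b
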