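import Pool.Agent.W_ccff5b_h54.Ident

set_option autoImplicit false

namespace Pool.CCff5b

open Finset
open scoped Classical

variable {Pt Ln : Type} [Fintype Pt] [Fintype Ln] {I : Pt → Ln → Prop} {s t : ℕ}

/-- quadratic form of `G^x` -/
noncomputable def qf (I : Pt → Ln → Prop) (s : ℕ) (x : Pt) (f : Pt → ℤ) : ℤ :=
  ∑ y, ∑ z, H I s x y z * f y * f z

theorem GQ.sum_HH (h : GQ I s t) (hst : s + t = s * s) (x u v : Pt) :
    ∑ y, H I s x y u * H I s x y v = (s : ℤ) ^ 3 * H I s x u v := by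
  rw [H_symm x u v, ← h.sum_H_mul hst u (h.LS_H hst x v) fun z hz => H_zero_right hz]
  exact Finset.sum_congr rfl fun y _ => by rw [H_symm x y u, H_symm x y v]

/-- `|G^x v|^2 = s^3 q_x(v)` -/
theorem GQ.sum_sq_H (h : GQ I s t) (hst : s + t = s * s) (x : Pt) (v : Pt → ℤ) :
    ∑ y, (∑ u, H I s x y u * v u) ^ 2 = (s : ℤ) ^ 3 * qf I s x v := by
  have h1 : ∀ y, (∑ u, H I s x y u * v u) ^ 2 =
      ∑ u, ∑ w, (H I s x y u * H I s x y w) * (v u * v w) := by
    intro y
    rw [sq, Finset.sum_mul_sum]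
    exact Finset.sum_congr rfl fun u _ => Finset.sum_congr rfl fun w _ => by ring
  rw [Finset.sum_congr rfl fun y _ => h1 y, Finset.sum_comm]
  unfold qf
  rw [Finset.mul_sum]
  refine Finset.sum_congr rfl fun u _ => ?_
  rw [Finset.sum_comm, Finset.mul_sum]
  refine Finset.sum_congr rfl fun w _ => ?_
  rw [← Finset.sum_mul, h.sum_HH hst]
  ring

theorem GQ.sum_H_cross (h : GQ I s t) (hst : s + t = s * s) (x a : Pt) (v : Pt → ℤ) :
    ∑ y, (∑ u, H I s x y u * v u) * H I s x a y = (s : ℤ) ^ 3 * ∑ u, H I s x a u * v u := by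
  have h1 : ∀ y, (∑ u, H I s x y u * v u) * H I s x a y =
      ∑ u, (H I s x y u * H I s x y a) * v u := by
    intro y
    rw [Finset.sum_mul, H_symm x a y]
    exact Finset.sum_congr rfl fun u _ => by ring
  rw [Finset.sum_congr rfl fun y _ => h1 y, Finset.sum_comm, Finset.mul_sum]
  refine Finset.sum_congr rfl fun u _ => ?_
  rw [← Finset.sum_mul, h.sum_HH hst, H_symm x u a]
  ring

/-- the square which will be zero -/
theorem GQ.square (h : GQ I s t) (hst : s + t = s * s) {a : Pt} (c : Pt) {v : Pt → ℤ}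
    (hv : LS I v) (hv0 : ∀ z, ¬ Far I a z → v z = 0) :
    ∑ y, (∑ u, H I s c y u * v u - (s : ℤ) ^ 2 * v c * H I s c a y) ^ 2 =
      (s : ℤ) ^ 3 * qf I s c v - (s : ℤ) ^ 7 * ((s : ℤ) - 1) * (v c) ^ 2 := by
  by_cases hac : Far I a c
  · have h1 : ∀ y, (∑ u, H I s c y u * v u - (s : ℤ) ^ 2 * v c * H I s c a y) ^ 2 =
        (∑ u, H I s c y u * v u) ^ 2 -
          2 * (s : ℤ) ^ 2 * v c * ((∑ u, H I s c y u * v u) * H I s c a y) +
          ((s : ℤ) ^ 2 * v c) ^ 2 * (H I s c y a * H I s c y a) := by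
      intro y
      rw [H_symm c y a]
      ring
    rw [Finset.sum_congr rfl fun y _ => h1 y, Finset.sum_add_distrib, Finset.sum_sub_distrib,
      ← Finset.mul_sum, ← Finset.mul_sum, h.sum_sq_H hst, h.sum_H_cross hst, h.sum_HH hst]
    have h2 : ∑ u, H I s c a u * v u = ((s : ℤ) ^ 3 - (s : ℤ) ^ 2) * v c := by
      rw [← h.sum_G_other hst hac hv hv0]
      exact Finset.sum_congr rfl fun u _ => by rw [H_far hac.symm]
    rw [h2, H_far hac.symm, G_self hac.symm]
    ring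
  · rw [hv0 c hac]
    rw [Finset.sum_congr rfl (g := fun y => (∑ u, H I s c y u * v u) ^ 2) fun y _ => by ring,
      h.sum_sq_H hst]
    ring

theorem sum3_swap {P : Type} [Fintype P] (S : Finset P) (g : P → P → P → ℤ) :
    ∑ y, ∑ z, ∑ x ∈ S, g x y z = ∑ x ∈ S, ∑ y, ∑ z, g x y z := by
  have h1 : ∀ y, ∑ z, ∑ x ∈ S, g x y z = ∑ x ∈ S, ∑ z, g x y z := fun y => Finset.sum_comm
  rw [Finset.sum_congr rfl fun y _ => h1 y]
  exact Finset.sum_comm

/-- energy identity -/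
theorem GQ.energy (h : GQ I s t) (hst : s + t = s * s) (l : Ln) {f : Pt → ℤ} (hf : LS I f) :
    ∑ x ∈ pts I l, qf I s x f = (s : ℤ) ^ 3 * ∑ y, f y ^ 2 - (s : ℤ) ^ 4 * ∑ x ∈ pts I l, f x ^ 2 := by
  have hst' : (s : ℤ) + t = s * s := by exact_mod_cast hst
  have h0 : ∀ y z, ((s : ℤ) + 1) ^ 2 * ∑ x ∈ pts I l, H I s x y z * f y * f z +
      ∑ x ∈ pts I l, (F I s x y * f y) * (F I s x z * f z) =
      (s : ℤ) * ((s : ℤ) + 1) * f y * (F I s y z * f z) := by
    intro y z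
    have h1 := h.ident hst l y z
    have h2 : ∑ x ∈ pts I l, H I s x y z * f y * f z =
        (∑ x ∈ pts I l, H I s x y z) * (f y * f z) := by
      rw [Finset.sum_mul]
      exact Finset.sum_congr rfl fun x _ => by ring
    have h3 : ∑ x ∈ pts I l, (F I s x y * f y) * (F I s x z * f z) =
        (∑ x ∈ pts I l, F I s x y * F I s x z) * (f y * f z) := by
      rw [Finset.sum_mul]
      exact Finset.sum_congr rfl fun x _ => by ring
    rw [h2, h3]
    linear_combination (f y * f z) * h1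
  have h4 : ∑ y, ∑ z, (((s : ℤ) + 1) ^ 2 * ∑ x ∈ pts I l, H I s x y z * f y * f z +
      ∑ x ∈ pts I l, (F I s x y * f y) * (F I s x z * f z)) =
      ∑ y, ∑ z, (s : ℤ) * ((s : ℤ) + 1) * f y * (F I s y z * f z) :=
    Finset.sum_congr rfl fun y _ => Finset.sum_congr rfl fun z _ => h0 y z
  have h5 : ∑ y, ∑ z, (s : ℤ) * ((s : ℤ) + 1) * f y * (F I s y z * f z) =
      (s : ℤ) * ((s : ℤ) + 1) * (((s : ℤ) + 1) * (s * s)) * ∑ y, f y ^ 2 := by
    rw [Finset.mul_sum]
    refine Finset.sum_congr rfl fun y _ => ?_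
    rw [← Finset.mul_sum, h.sum_F_mul hf y, hst']
    ring
  have h6 : ∑ y, ∑ z, (((s : ℤ) + 1) ^ 2 * ∑ x ∈ pts I l, H I s x y z * f y * f z +
      ∑ x ∈ pts I l, (F I s x y * f y) * (F I s x z * f z)) =
      ((s : ℤ) + 1) ^ 2 * ∑ x ∈ pts I l, qf I s x f +
        (((s : ℤ) + 1) * (s * s)) ^ 2 * ∑ x ∈ pts I l, f x ^ 2 := by
    simp only [Finset.sum_add_distrib, ← Finset.mul_sum]
    congr 1
    · congr 1
      unfold qf
      exact sum3_swap (pts I l) fun x y z => H I s x y z * f y * f z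
    · rw [Finset.mul_sum]
      have h7 : ∀ x, (∑ y, F I s x y * f y) * (∑ z, F I s x z * f z) =
          (((s : ℤ) + 1) * (s * s)) ^ 2 * f x ^ 2 := by
        intro x
        rw [h.sum_F_mul hf x, hst']
        ring
      rw [← Finset.sum_congr rfl fun x _ => h7 x]
      have h8 : ∀ x, (∑ y, F I s x y * f y) * (∑ z, F I s x z * f z) =
          ∑ y, ∑ z, (F I s x y * f y) * (F I s x z * f z) := by
        intro x
        rw [Finset.sum_mul_sum]
      rw [Finset.sum_congr rfl fun x _ => h8 x]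
      exact sum3_swap (pts I l) fun x y z => (F I s x y * f y) * (F I s x z * f z)
  rw [h6, h5] at h4
  have h9 : ((s : ℤ) + 1) ^ 2 ≠ 0 := by positivity
  apply mul_left_cancel₀ h9
  linear_combination h4

end Pool.CCff5b
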