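import Pool.Agent.W_ccff5b_h86.Moments
import Pool.Agent.W_ccff5b_h86.RankA

set_option autoImplicit false

namespace Pool.CCff5b

open Finset
open scoped Classical

variable {Pt Ln : Type} [Fintype Pt] [Fintype Ln] {I : Pt → Ln → Prop} {s t : ℕ}

/-- the matrix `G^x`, extended by zero to all pairs -/
noncomputable def H (I : Pt → Ln → Prop) (s : ℕ) (x y z : Pt) : ℤ :=
  if Far I x y then G I s x y z else 0

omit [Fintype Ln] in
theorem H_far {x y z : Pt} (h : Far I x y) : H I s x y z = G I s x y z := by simp [H, h]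

omit [Fintype Ln] in
theorem H_zero_left {x y z : Pt} (h : ¬ Far I x y) : H I s x y z = 0 := by simp [H, h]

omit [Fintype Ln] in
theorem H_zero_right {x y z : Pt} (h : ¬ Far I x z) : H I s x y z = 0 := by
  unfold H
  split_ifs
  · exact G_zero h
  · rfl

omit [Fintype Ln] in
theorem H_symm (x y z : Pt) : H I s x y z = H I s x z y := by
  by_cases h : Far I x y
  · by_cases h' : Far I x z
    · rw [H_far h, H_far h', G_symm h h']
    · rw [H_zero_right h', H_zero_left h']
  · rw [H_zero_left h, H_zero_right h]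

theorem GQ.LS_H (h : GQ I s t) (hst : s + t = s * s) (x y : Pt) : LS I (H I s x y) := by
  intro l
  by_cases hf : Far I x y
  · rw [← h.LS_G hst hf l]
    exact Finset.sum_congr rfl fun z _ => H_far hf
  · exact Finset.sum_eq_zero fun z _ => H_zero_left hf

/-- reproducing property on `V_x` -/
theorem GQ.sum_H_mul (h : GQ I s t) (hst : s + t = s * s) {x : Pt} (y : Pt) {f : Pt → ℤ}
    (hf : LS I f) (hf0 : ∀ z, ¬ Far I x z → f z = 0) :
    ∑ z, H I s x y z * f z = (s : ℤ) ^ 3 * f y := by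
  by_cases hxy : Far I x y
  · rw [← h.sum_G_mul hst hxy hf hf0]
    exact Finset.sum_congr rfl fun z _ => by rw [H_far hxy]
  · rw [hf0 y hxy, mul_zero]
    exact Finset.sum_eq_zero fun z _ => by rw [H_zero_left hxy, zero_mul]

/-- `(s+1) (G^x_y - G^y_x) = F_y - F_x` -/
theorem GQ.G_swap_F (h : GQ I s t) {x y : Pt} (hxy : Far I x y) (z : Pt) :
    ((s : ℤ) + 1) * (G I s x y z - G I s y x z) = F I s y z - F I s x z := by
  rcases eq_or_adj_or_far I x z with rfl | hxz | hxz
  · rw [G_zero h.not_far_self, G_self hxy.symm, F_self, h.F_far hxy.symm]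
    ring
  · rw [G_zero hxz.not_far, F_adj hxz]
    rcases eq_or_adj_or_far I y z with rfl | hyz | hyz
    · exact absurd hxz hxy.not_adj
    · rw [G_zero hyz.not_far, F_adj hyz]
      ring
    · rw [G_adj hyz hxz, h.F_far hyz]
      ring
  · rw [h.F_far hxz]
    rcases eq_or_adj_or_far I y z with rfl | hyz | hyz
    · rw [G_self hxy, G_zero h.not_far_self, F_self]
      ring
    · rw [G_adj hxz hyz, G_zero hyz.not_far, F_adj hyz]
      ring
    · rw [h.G_swap hxz hyz, h.F_far hyz]
      ring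

/-- for `f` in `V_a`: `⟨G^c_a, f⟩ = (s^3 - s^2) f c` -/
theorem GQ.sum_G_other (h : GQ I s t) (hst : s + t = s * s) {a c : Pt} (hac : Far I a c)
    {f : Pt → ℤ} (hf : LS I f) (hf0 : ∀ z, ¬ Far I a z → f z = 0) :
    ∑ z, G I s c a z * f z = ((s : ℤ) ^ 3 - (s : ℤ) ^ 2) * f c := by
  have h1 : ∑ z, ((s : ℤ) + 1) * (G I s c a z - G I s a c z) * f z =
      ((s : ℤ) + 1) * ((s : ℤ) + t) * f a - ((s : ℤ) + 1) * ((s : ℤ) + t) * f c := by
    rw [← h.sum_F_mul hf a, ← h.sum_F_mul hf c, ← Finset.sum_sub_distrib]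
    refine Finset.sum_congr rfl fun z _ => ?_
    rw [h.G_swap_F hac.symm z]
    ring
  have h2 : ∑ z, ((s : ℤ) + 1) * (G I s c a z - G I s a c z) * f z =
      ((s : ℤ) + 1) * (∑ z, G I s c a z * f z - ∑ z, G I s a c z * f z) := by
    rw [← Finset.sum_sub_distrib, Finset.mul_sum]
    exact Finset.sum_congr rfl fun z _ => by ring
  have hst' : (s : ℤ) + t = s * s := by exact_mod_cast hst
  rw [h2, h.sum_G_mul hst hac hf hf0, hf0 a h.not_far_self, hst'] at h1
  have h3 : ((s : ℤ) + 1) ≠ 0 := by positivity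
  have h4 : ((s : ℤ) + 1) * (∑ z, G I s c a z * f z - (((s : ℤ) ^ 3 - (s : ℤ) ^ 2) * f c)) = 0 := by
    linear_combination h1
  have h5 := (mul_eq_zero.1 h4).resolve_left h3
  linarith

end Pool.CCff5b
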